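import Pool.Agent.Lib.MP_3240be_co.H62.Defs

/-!
# MP_3240be_co, Theorem T2, rows MAIN, CHO, CAS
-/

set_option autoImplicit false

namespace MP3240G

open Finset
open MP3240Q (Bip SG Sub)
open Pool.Agent.Lib.MP_3240be_co.H82 (TC)

theorem sub_trans {U V W : Type} {A : SimpleGraph U} {B : SimpleGraph V} {C : SimpleGraph W}
    (h1 : Sub A B) (h2 : Sub B C) : Sub A C := by
  obtain ⟨f, hf, hf'⟩ := h1
  obtain ⟨g, hg, hg'⟩ := h2
  exact ⟨fun x => g (f x), hg.comp hf, fun x y hxy => hg' _ _ (hf' x y hxy)⟩

theorem sub_refl {U : Type} (A : SimpleGraph U) : Sub A A :=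
  ⟨id, Function.injective_id, fun _ _ h => h⟩

/-- A copy of the type of finite graphs, ordered by inclusion. -/
def SGo : Type := SG

instance : Preorder SGo where
  le x y := Sub (show SG from x).2 (show SG from y).2
  lt x y := Sub (show SG from x).2 (show SG from y).2 ∧ ¬ Sub (show SG from y).2 (show SG from x).2
  le_refl x := sub_refl (show SG from x).2
  le_trans _ _ _ h1 h2 := sub_trans h1 h2
  lt_iff_le_not_ge _ _ := Iff.rfl

/-- Every member is contained in a maximal member. -/
theorem exists_mx {fam : Set SG} (hfin : fam.Finite) {x : SG} (hx : x ∈ fam) :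
    ∃ y, Mx fam y ∧ Sub x.2 y.2 := by
  obtain ⟨m, hm1, hm2⟩ := Set.Finite.exists_le_maximal (α := SGo) (s := fam) (a := x) hfin hx
  exact ⟨m, ⟨hm2.prop, fun y hy hmy => hm2.le_of_ge hy hmy⟩, hm1⟩

theorem main_proof (hC : ChoStatement) (hS : SytStatement) (hR : RelStatement) :
    MainStatement := by
  intro h n n' fam H H' h1 hfin hne hbig hsub hcc hT hconn hHH' hno
  obtain ⟨x, hx⟩ := hC h fam h1 hfin hne hbig hcc
  obtain ⟨T, A, F, hBT, hin⟩ := hT
  obtain ⟨F', -, hBT'⟩ := hS h x.1 fam x.2 hx.mx T A F hBT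
  exact hR h x.1 n n' fam x.2 H H' hx (hsub x hx.mx.1) ⟨T, A, F', hBT', hin⟩ hconn hHH' hno

theorem cho_proof (hD : NcdStatement) (hB : NbcStatement) (hN : NbnStatement) :
    ChoStatement := by
  intro h fam h1 hfin hne hbig hcc
  by_cases hex : ∃ x, Mx fam x ∧ Cross x.2
  · obtain ⟨x, hx, hxc⟩ := hex
    have htc : TC True x.2 := (hD h x (hbig x hx.1)).2 hxc
    refine ⟨x, h1, hfin, hbig, hx, hB x.1 fam x.2 htc hx, ?_, Or.inr htc⟩
    intro y hy hyx
    refine (hD h y (hbig y hy.1)).1 (fun hyc => ?_)
    exact hyx (hcc y x hy hx hyc hxc)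
  · push Not at hex
    obtain ⟨x, hx, hxn⟩ := hN fam hfin hne (fun x hx => (hbig x hx).1)
    refine ⟨x, h1, hfin, hbig, hx, hxn, ?_, Or.inl ?_⟩
    · intro y hy _
      exact (hD h y (hbig y hy.1)).1 (hex y hy)
    · exact (hD h x (hbig x hx.1)).1 (hex x hx)

theorem cas_proof : CasStatement := by
  classical
  intro fam Tn D P Cp hfin hD hmono hkill hgam hPC hpp
  by_cases hex : ∃ c, P c D
  · -- Case 2
    obtain ⟨c, hc⟩ := hex
    by_contra hcon
    push Not at hcon
    obtain ⟨x, hx, hxP⟩ := hcon c (hPC c hc)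
    -- something is absent in the other colour
    obtain ⟨y, hy, hyP⟩ : ∃ y, (y ∈ Tn ∨ y ∈ fam) ∧ ¬ P (!c) y := by
      by_cases hcp : Cp (!c)
      · obtain ⟨y, hy, hyP⟩ := hcon (!c) hcp
        exact ⟨y, hy.imp_right (fun h => h.1), hyP⟩
      · exact ⟨D, Or.inr hD.1, fun h => hcp (hPC _ h)⟩
    rcases hx with hx | hx
    · rcases hgam c with h1 | h1
      · exact hxP (h1 x hx)
      · exact hyP (h1 y hy)
    · rcases hy with hy | hy
      · rcases hgam (!c) with h1 | h1
        · exact hyP (h1 y hy)
        · rw [Bool.not_not] at h1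
          exact hxP (h1 x (Or.inr hx.1))
      · obtain ⟨x', hx', hxx⟩ := exists_mx hfin hx.1
        obtain ⟨y', hy', hyy⟩ := exists_mx hfin hy
        have hx'P : ¬ P c x' := fun h => hxP (hmono c _ _ hxx h)
        have hy'P : ¬ P (!c) y' := fun h => hyP (hmono _ _ _ hyy h)
        -- `x'` is not contained in `D`
        have hx'D : ¬ Sub x'.2 D.2 := fun h => hx'P (hmono c _ _ h hc)
        cases c with
        | true =>
          rcases hkill x' y' hx' hy' (fun h => hx'D h.1) with h | h
          · exact hx'P h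
          · exact hy'P h
        | false =>
          rcases hkill y' x' hy' hx' (fun h => hx'D h.2) with h | h
          · exact hy'P h
          · exact hx'P h
  · -- Case 1
    rcases hpp with h | ⟨c, hcp, hsm⟩
    · exact absurd h hex
    · refine ⟨c, hcp, ?_⟩
      push Not at hex
      rintro x (hx | ⟨hx, hDx⟩)
      · rcases hgam c with h1 | h1
        · exact h1 x hx
        · exact absurd (h1 D (Or.inr hD.1)) (hex _)
      · by_cases hxD : Sub x.2 D.2
        · exact hsm x hx hDx hxD
        · obtain ⟨x', hx', hxx⟩ := exists_mx hfin hx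
          have hx'D : ¬ Sub x'.2 D.2 := fun h => hxD (sub_trans hxx h)
          cases c with
          | true =>
            rcases hkill x' D hx' hD (fun h => hx'D h.1) with h | h
            · exact hmono _ _ _ hxx h
            · exact absurd h (hex _)
          | false =>
            rcases hkill D x' hD hx' (fun h => hx'D h.2) with h | h
            · exact absurd h (hex _)
            · exact hmono _ _ _ hxx h

end MP3240G
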