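import Pool.Agent.Lib.MP_3240be_co.H62.Defs

/-!
# MP_3240be_co, Theorem T2, row PPS: the passenger gadget with the smaller members of the family
-/

set_option autoImplicit false

namespace MP3240G

open Finset
open MP3240Q (Mono Cop Bip SG Sub Nb Hang Piece2 Small)
open Pool.Agent.Lib.MP_3240be_co.H82 (TC)

namespace Pps

/-- A monochromatic copy is moved by an injective map that respects edges and colours. -/
theorem mono_map {U V W : Type} {S : SimpleGraph V} {S' : SimpleGraph W} {C : V → V → Bool}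
    {C' : W → W → Bool} {D : SimpleGraph U} {c : Bool} {f : U → V} (e : V → W)
    (he : Function.Injective e) (hadj : ∀ u v, S.Adj u v → S'.Adj (e u) (e v))
    (hcol : ∀ u v, C' (e u) (e v) = C u v) (hf : Mono S C D c f) :
    Mono S' C' D c (fun v => e (f v)) := by
  refine ⟨he.comp hf.1, fun i j hij => ?_⟩
  obtain ⟨h1, h2⟩ := hf.2 i j hij
  exact ⟨hadj _ _ h1, (hcol _ _).trans h2⟩

/-- Passengers are respected: `Nb`. -/
theorem nb_map {L L' Q : Type} {S : SimpleGraph (L ⊕ Q)} {S' : SimpleGraph (L' ⊕ Q)}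
    {C : L' ⊕ Q → L' ⊕ Q → Bool} (i : L → L') (hi : Function.Injective i)
    (hadj : ∀ u v, S.Adj u v → S'.Adj (Sum.map i id u) (Sum.map i id v)) {c : Bool} {N : ℕ}
    {q : Q} (h : Nb S (fun u v => C (Sum.map i id u) (Sum.map i id v)) c N (Sum.inr q)) :
    Nb S' C c N (Sum.inr q) := by
  obtain ⟨g, hg, h1⟩ := h
  refine ⟨fun j => i (g j), hi.comp hg, fun j => ?_⟩
  obtain ⟨h2, h3⟩ := h1 j
  exact ⟨hadj _ _ h2, h3⟩

theorem map_inj {L L' Q : Type} {i : L → L'} (hi : Function.Injective i) :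
    Function.Injective (Sum.map i (id : Q → Q)) :=
  Sum.map_injective.2 ⟨hi, Function.injective_id⟩

theorem cop_map {L L' Q : Type} {k : ℕ} {D : SimpleGraph (Fin k)} {S : SimpleGraph (L ⊕ Q)}
    {S' : SimpleGraph (L' ⊕ Q)} {C : L' ⊕ Q → L' ⊕ Q → Bool} (i : L → L')
    (hi : Function.Injective i)
    (hadj : ∀ u v, S.Adj u v → S'.Adj (Sum.map i id u) (Sum.map i id v)) {c : Bool} {N : ℕ}
    {a b : Fin k} (h : Cop D S (fun u v => C (Sum.map i id u) (Sum.map i id v)) c N a b) :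
    Cop D S' C c N a b := by
  obtain ⟨f, hf, h1, h2⟩ := h
  refine ⟨fun v => Sum.map i id (f v), mono_map _ (map_inj hi) hadj (fun _ _ => rfl) hf, ?_, ?_⟩
  · intro v hva hvb
    obtain ⟨l, hl⟩ := h1 v hva hvb
    exact ⟨i l, by simp [hl]⟩
  · intro v q hq
    rcases hfv : f v with l | q'
    · simp [hfv] at hq
    · have h3 : q' = q := by simpa [hfv] using hq
      subst h3
      exact nb_map i hi hadj (h2 v q' hfv)

theorem prs_map {L L' Q : Type} {S : SimpleGraph (L ⊕ Q)} {S' : SimpleGraph (L' ⊕ Q)}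
    {C : L' ⊕ Q → L' ⊕ Q → Bool} (i : L → L') (hi : Function.Injective i)
    (hadj : ∀ u v, S.Adj u v → S'.Adj (Sum.map i id u) (Sum.map i id v)) {c : Bool} {x : SG}
    (h : Prs S (fun u v => C (Sum.map i id u) (Sum.map i id v)) c x) : Prs S' C c x := by
  obtain ⟨f, hf⟩ := h
  exact ⟨fun v => i (f v), mono_map (Sum.map i id) (map_inj hi) hadj (fun _ _ => rfl) hf⟩

/-- The complete graph on two vertices. -/
abbrev K2 : SG := ⟨2, ⊤⟩

theorem small_K2 {k h : ℕ} {fam : Set SG} {D : SimpleGraph (Fin k)} (hF : Fam h fam D) :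
    Small D K2.2 := by
  obtain ⟨h2, -⟩ := hF.big _ hF.mx.1
  have h3 : 3 ≤ k := h2.three
  have hne : Nontrivial (Fin k) := Fin.nontrivial_iff_two_le.2 (by omega)
  refine Or.inl ⟨?_, ?_⟩
  · obtain ⟨w, hw⟩ := h2.conn.preconnected.exists_adj_of_nontrivial (⟨0, by omega⟩ : Fin k)
    refine ⟨fun i => if i = 0 then ⟨0, by omega⟩ else w, ?_, ?_⟩
    · intro i j hij
      have hne' : (⟨0, by omega⟩ : Fin k) ≠ w := hw.ne
      fin_cases i <;> fin_cases j <;> simp_all
    · intro i j hij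
      fin_cases i <;> fin_cases j <;> simp_all [SimpleGraph.adj_comm]
  · rintro ⟨f, hf, -⟩
    have h4 := Fintype.card_le_of_injective f hf
    simp at h4
    omega

end Pps

open Pps in
theorem pps_proof (hPgd : PgdStatement) (hKgd : KgdStatement) (hUnf : UnfStatement)
    (hPi2 : MP3240Q.Piece2Statement) : PpsStatement := by
  classical
  intro h k n N fam D H hN hF hH
  obtain ⟨hTwo, κD, hκD⟩ := hF.big _ hF.mx.1
  rcases hF.alt with hnc | htc
  · -- `IsNc`
    obtain ⟨G, L, hG, hL, S, C₀, hB, harr⟩ :=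
      hPgd h k n N fam D H hF.one hF.big hF.mx.1 hF.nob hnc hH
    let J : Type := {x : SG // x ∈ fam ∧ ¬ Sub D x.2 ∧ Sub x.2 D}
    have : Finite J := by
      have h1 : {x : SG | x ∈ fam ∧ ¬ Sub D x.2 ∧ Sub x.2 D}.Finite :=
        hF.fin.subset fun x hx => hx.1
      exact h1.to_subtype
    have hK : ∀ j : J, ∃ (X : Type) (_ : Finite X) (Γ : SimpleGraph X),
        (∃ C : X → X → Bool, (∀ x y, C x y = C y x) ∧ ∀ c f, ¬ Mono Γ C D c f) ∧
        ∀ C : X → X → Bool, (∀ x y, C x y = C y x) →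
          (∃ c f, Mono Γ C D c f) ∨ ∀ c, ∃ f, Mono Γ C j.1.2 c f := by
      intro j
      obtain ⟨κ, hκ⟩ := (hF.big _ j.2.1).2
      exact hKgd h k fam D (fun _ => ⟨k, D⟩) j.1 hF.one hF.big hF.mx.1 hF.nob
        (fun _ => hF.mx.1) ⟨true, hnc⟩ ⟨κ, hκ.prop⟩ j.2.2.1
    choose X hX Γ hΓ1 hΓ2 using hK
    have : ∀ j, Finite (X j) := hX
    have := hL
    obtain ⟨L', hL', S', C₀', i, i', hB', -, hi, hi', hadj, hadj'⟩ :=
      hUnf k n D H hTwo G L S C₀ hB J X Γ hΓ1
    refine ⟨G, L', hG, hL', S', C₀', hB', ?_⟩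
    intro C hC
    by_cases hcase : ∃ c, Prs S' C c ⟨k, D⟩
    · exact Or.inr (Or.inl hcase)
    · rcases harr (fun u v => C (Sum.map i id u) (Sum.map i id v)) (fun _ _ => hC _ _) with
        ⟨g, c, hg⟩ | ⟨c, hc⟩ | ⟨c, hc⟩
      · exact Or.inl ⟨g, c, hg⟩
      · exact absurd ⟨c, prs_map i hi hadj hc⟩ hcase
      · refine Or.inr (Or.inr ⟨c, fun a b hab => cop_map i hi hadj (hc a b hab), ?_⟩)
        intro x hx hx1 hx2
        have hmo : ∀ (y : SG) (c : Bool) (f : Fin y.1 → X ⟨x, hx, hx1, hx2⟩),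
            Mono (Γ ⟨x, hx, hx1, hx2⟩) (fun u v => C (Sum.inl (i' _ u)) (Sum.inl (i' _ v)))
              y.2 c f → Prs S' C c y := by
          intro y c f hf
          refine ⟨fun v => i' _ (f v), mono_map (fun u => Sum.inl (i' _ u)) ?_ ?_ ?_ hf⟩
          · exact Sum.inl_injective.comp (hi' _)
          · exact fun u v huv => hadj' _ u v huv
          · exact fun _ _ => rfl
        rcases hΓ2 ⟨x, hx, hx1, hx2⟩ (fun u v => C (Sum.inl (i' _ u)) (Sum.inl (i' _ v)))
          (fun _ _ => hC _ _) with ⟨c', f, hf⟩ | h1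
        · exact absurd ⟨c', hmo ⟨k, D⟩ c' f hf⟩ hcase
        · obtain ⟨f, hf⟩ := h1 c
          exact hmo x c f hf
  · -- `TC`
    let 𝓛 : Set SG := insert K2 {x : SG | x ∈ fam ∧ ¬ Sub D x.2 ∧ Sub x.2 D}
    have h𝓛 : 𝓛.Finite := (hF.fin.subset fun x hx => hx.1).insert _
    have hsm : ∀ x ∈ 𝓛, Small D x.2 := by
      intro x hx
      rcases hx with rfl | hx
      · exact small_K2 hF
      · exact Or.inl ⟨hx.2.2, hx.2.1⟩
    obtain ⟨L, hL, S, C₀, hP⟩ := hPi2 True k n N D H 𝓛 htc (fun _ => hH) h𝓛 hsm hN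
    let e : L ⊕ (Unit × Fin n) → L ⊕ Fin n := Sum.map id Prod.snd
    let e' : L ⊕ Fin n → L ⊕ (Unit × Fin n) := Sum.map id (fun q => ((), q))
    have hee : ∀ s, e (e' s) = s := by
      rintro (l | q) <;> rfl
    have hee' : ∀ s, e' (e s) = s := by
      rintro (l | ⟨⟨⟩, q⟩) <;> rfl
    have he : Function.Injective e := Function.LeftInverse.injective hee'
    have he' : Function.Injective e' := Function.LeftInverse.injective hee
    refine ⟨Unit, L, inferInstance, hL, S.comap e, fun x y => C₀ (e x) (e y), ?_, ?_⟩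
    · refine
      { pat := ?_
        symm := fun x y => hP.symm _ _
        red := ?_
        isred := fun _ q q' hq => hP.isred q q' hq
        only := ?_ }
      · rintro ⟨⟩ ⟨⟩ q q'
        have h1 := hP.pat q q'
        exact ⟨fun h => ⟨rfl, h1.1 h⟩, fun h => h1.2 h.2⟩
      · rintro ⟨⟨⟩, q⟩ y hy hred
        obtain ⟨q', hq'⟩ := hP.red q (e y) hy hred
        refine ⟨((), q'), he ?_⟩
        rw [hq']
        rfl
      · intro c f hf v
        obtain ⟨q, hq⟩ := hP.only c (fun v => e (f v)) ⟨he.comp hf.1, hf.2⟩ v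
        refine ⟨((), q), he ?_⟩
        rw [hq]
        rfl
    · intro C hC
      have hadj : ∀ u v, S.Adj u v → (S.comap e).Adj (e' u) (e' v) := by
        intro u v huv
        show S.Adj (e (e' u)) (e (e' v))
        rwa [hee, hee]
      rcases hP.arr (fun u v => C (e' u) (e' v)) (fun _ _ => hC _ _) with ⟨c, hc⟩ | ⟨c, hR⟩
      · exact Or.inl ⟨(), c, hc⟩
      · refine Or.inr (Or.inr ⟨c, ?_, ?_⟩)
        · intro a b hab
          obtain ⟨f, hf, h1, h2⟩ := hR.cop a b hab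
          refine ⟨fun v => e' (f v), mono_map e' he' hadj (fun _ _ => rfl) hf, ?_, ?_⟩
          · intro v hva hvb
            obtain ⟨l, hl⟩ := h1 v hva hvb
            exact ⟨l, by simp [hl, e']⟩
          · rintro v ⟨⟨⟩, q⟩ hq
            have hfv : f v = Sum.inr q := he' hq
            obtain ⟨g, hg1, hg2, hg3, hg4⟩ := h2 v q hfv K2 (Set.mem_insert _ _) (0 : Fin 2)
            have h5 : ∀ ν, ∃ l, g ν (1 : Fin 2) = Sum.inl l := fun ν =>
              hg3 ν (1 : Fin 2) (by decide)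
            choose gl hgl using h5
            refine ⟨gl, ?_, ?_⟩
            · intro ν ν' hν
              refine hg4 ν ν' (1 : Fin 2) (1 : Fin 2) (by decide) ?_
              rw [hgl, hgl, hν]
            · intro ν
              obtain ⟨h6, h7⟩ := (hg1 ν).2 (0 : Fin 2) (1 : Fin 2) (by decide)
              rw [hg2 ν, hgl ν] at h6 h7
              exact ⟨hadj _ _ h6, h7⟩
        · intro x hx hx1 hx2
          obtain ⟨f, hf⟩ := hR.small x (Set.mem_insert_of_mem _ ⟨hx, hx1, hx2⟩)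
          exact ⟨f, mono_map e' he' hadj (fun _ _ => rfl) hf⟩

end MP3240G
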