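import Pool.Agent.Lib.MP_3240be_co.H62.Defs

/-!
# MP_3240be_co, board btt_modules, row UNF: disjoint union of gadgets
-/

set_option autoImplicit false

namespace MP3240G

open MP3240Q (Mono Cop Bip SG Sub em Gl Lin XS St Host)

section Unf

variable {n : ℕ} {G L J : Type} {X : J → Type}

/-- The points of the union. -/
abbrev UL (L : Type) {J : Type} (X : J → Type) : Type := (L ⊕ (Σ j, X j)) ⊕ Bool

/-- Embedding of the gadget with passengers. -/
def ue (L : Type) {J : Type} (X : J → Type) {Q : Type} : L ⊕ Q → UL L X ⊕ Q :=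
  Sum.map (fun l => Sum.inl (Sum.inl l)) id

/-- Embedding of the gadget `j`. -/
def uf (L : Type) {J : Type} (X : J → Type) (Q : Type) (j : J) (x : X j) : UL L X ⊕ Q :=
  Sum.inl (Sum.inl (Sum.inr ⟨j, x⟩))

theorem ue_inj {Q : Type} : Function.Injective (ue L X (Q := Q)) := by
  intro u v h
  rcases u with u | u <;> rcases v with v | v <;> simp_all [ue]

theorem uf_inj {Q : Type} (j : J) : Function.Injective (uf L X Q j) := by
  intro u v h
  simp only [uf, Sum.inl.injEq, Sum.inr.injEq] at h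
  exact eq_of_heq (Sigma.mk.inj h).2

theorem uf_idx {Q : Type} {j j' : J} {x : X j} {x' : X j'} (h : uf L X Q j x = uf L X Q j' x') :
    j = j' := by
  simp only [uf, Sum.inl.injEq, Sum.inr.injEq] at h
  exact (Sigma.mk.inj h).1

theorem ue_ne_uf {Q : Type} (u : L ⊕ Q) (j : J) (x : X j) : ue L X u ≠ uf L X Q j x := by
  rcases u with u | u <;> simp [ue, uf]

/-- The part of a vertex. -/
def upt {Q : Type} : UL L X ⊕ Q → Option (Option J)
  | .inl (.inl (.inl _)) => some none
  | .inl (.inl (.inr p)) => some (some p.1)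
  | .inl (.inr _) => none
  | .inr _ => some none

/-- Adjacency in the union. -/
def uadj {Q : Type} (S : SimpleGraph (L ⊕ Q)) (Γ : ∀ j, SimpleGraph (X j))
    (a b : UL L X ⊕ Q) : Prop :=
  (∃ u v, S.Adj u v ∧ ue L X u = a ∧ ue L X v = b) ∨
    ∃ j u v, (Γ j).Adj u v ∧ uf L X Q j u = a ∧ uf L X Q j v = b

/-- The union. -/
def ugr {Q : Type} (S : SimpleGraph (L ⊕ Q)) (Γ : ∀ j, SimpleGraph (X j)) :
    SimpleGraph (UL L X ⊕ Q) where
  Adj := uadj S Γ
  symm := ⟨by
    rintro a b (⟨u, v, h, rfl, rfl⟩ | ⟨j, u, v, h, rfl, rfl⟩)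
    · exact Or.inl ⟨v, u, h.symm, rfl, rfl⟩
    · exact Or.inr ⟨j, v, u, h.symm, rfl, rfl⟩⟩
  loopless := ⟨by
    rintro a (⟨u, v, h, h1, h2⟩ | ⟨j, u, v, h, h1, h2⟩)
    · have : u = v := ue_inj (h1.trans h2.symm)
      exact h.ne this
    · have : u = v := uf_inj j (h1.trans h2.symm)
      exact h.ne this⟩

theorem ugr_e {Q : Type} (S : SimpleGraph (L ⊕ Q)) (Γ : ∀ j, SimpleGraph (X j)) {u : L ⊕ Q}
    {b : UL L X ⊕ Q} (h : (ugr S Γ).Adj (ue L X u) b) : ∃ v, b = ue L X v ∧ S.Adj u v := by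
  rcases h with ⟨u', v, h, h1, h2⟩ | ⟨j, u', v, h, h1, h2⟩
  · have : u' = u := ue_inj h1
    subst this
    exact ⟨v, h2.symm, h⟩
  · exact absurd h1.symm (ue_ne_uf _ _ _)

theorem ugr_f {Q : Type} (S : SimpleGraph (L ⊕ Q)) (Γ : ∀ j, SimpleGraph (X j)) {j : J} {u v : X j}
    (h : (ugr S Γ).Adj (uf L X Q j u) (uf L X Q j v)) : (Γ j).Adj u v := by
  rcases h with ⟨u', v', h, h1, h2⟩ | ⟨j', u', v', h, h1, h2⟩
  · exact absurd h1 (ue_ne_uf _ _ _)
  · have hj : j' = j := uf_idx h1
    subst hj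
    have e1 : u' = u := uf_inj _ h1
    have e2 : v' = v := uf_inj _ h2
    subst e1 e2
    exact h

theorem ugr_pt {Q : Type} (S : SimpleGraph (L ⊕ Q)) (Γ : ∀ j, SimpleGraph (X j))
    {a b : UL L X ⊕ Q} (h : (ugr S Γ).Adj a b) : upt a = upt b ∧ upt a ≠ none := by
  rcases h with ⟨u, v, h, rfl, rfl⟩ | ⟨j, u, v, h, rfl, rfl⟩
  · rcases u with u | u <;> rcases v with v | v <;> simp [ue, upt]
  · simp [uf, upt]

theorem upt_none {Q : Type} {a : UL L X ⊕ Q} (h : upt a = some none) : ∃ u, a = ue L X u := by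
  rcases a with ((l | p) | b) | q
  · exact ⟨Sum.inl l, rfl⟩
  · simp [upt] at h
  · simp [upt] at h
  · exact ⟨Sum.inr q, rfl⟩

theorem upt_some {Q : Type} {a : UL L X ⊕ Q} {j : J} (h : upt a = some (some j)) :
    ∃ x, a = uf L X Q j x := by
  rcases a with ((l | ⟨j', x⟩) | b) | q
  · simp [upt] at h
  · simp only [upt, Option.some.injEq] at h
    subst h
    exact ⟨x, rfl⟩
  · simp [upt] at h
  · simp [upt] at h

/-- Red in the union. -/
def ured {Q : Type} (C₀ : L ⊕ Q → L ⊕ Q → Bool) (C : ∀ j, X j → X j → Bool)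
    (a b : UL L X ⊕ Q) : Prop :=
  (∃ u v, C₀ u v = true ∧ ue L X u = a ∧ ue L X v = b) ∨
    ∃ j u v, C j u v = true ∧ uf L X Q j u = a ∧ uf L X Q j v = b

/-- The colouring of the union. -/
noncomputable def ucol {Q : Type} (C₀ : L ⊕ Q → L ⊕ Q → Bool) (C : ∀ j, X j → X j → Bool)
    (a b : UL L X ⊕ Q) : Bool := by
  classical exact decide (ured C₀ C a b)

theorem ucol_e {Q : Type} (C₀ : L ⊕ Q → L ⊕ Q → Bool) (C : ∀ j, X j → X j → Bool) (u v : L ⊕ Q) :
    ucol C₀ C (ue L X u) (ue L X v) = C₀ u v := by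
  rw [Bool.eq_iff_iff]
  simp only [ucol, decide_eq_true_eq]
  constructor
  · rintro (⟨u', v', h, h1, h2⟩ | ⟨j, u', v', h, h1, h2⟩)
    · have e1 : u' = u := ue_inj h1
      have e2 : v' = v := ue_inj h2
      subst e1 e2
      exact h
    · exact absurd h1.symm (ue_ne_uf _ _ _)
  · intro h
    exact Or.inl ⟨u, v, h, rfl, rfl⟩

theorem ucol_f {Q : Type} (C₀ : L ⊕ Q → L ⊕ Q → Bool) (C : ∀ j, X j → X j → Bool) (j : J)
    (u v : X j) : ucol C₀ C (uf L X Q j u) (uf L X Q j v) = C j u v := by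
  rw [Bool.eq_iff_iff]
  simp only [ucol, decide_eq_true_eq]
  constructor
  · rintro (⟨u', v', h, h1, h2⟩ | ⟨j', u', v', h, h1, h2⟩)
    · exact absurd h1 (ue_ne_uf _ _ _)
    · have hj : j' = j := uf_idx h1
      subst hj
      have e1 : u' = u := uf_inj _ h1
      have e2 : v' = v := uf_inj _ h2
      subst e1 e2
      exact h
  · intro h
    exact Or.inr ⟨j, u, v, h, rfl, rfl⟩

theorem ucol_symm {Q : Type} (C₀ : L ⊕ Q → L ⊕ Q → Bool) (C : ∀ j, X j → X j → Bool)
    (h0 : ∀ x y, C₀ x y = C₀ y x) (h1 : ∀ j x y, C j x y = C j y x) (a b : UL L X ⊕ Q) :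
    ucol C₀ C a b = ucol C₀ C b a := by
  have key : ∀ a b : UL L X ⊕ Q, ured C₀ C a b → ured C₀ C b a := by
    rintro a b (⟨u, v, h, rfl, rfl⟩ | ⟨j, u, v, h, rfl, rfl⟩)
    · exact Or.inl ⟨v, u, by rw [h0]; exact h, rfl, rfl⟩
    · exact Or.inr ⟨j, v, u, by rw [h1]; exact h, rfl, rfl⟩
  rw [Bool.eq_iff_iff]
  simp only [ucol, decide_eq_true_eq]
  exact ⟨key a b, key b a⟩

end Unf

theorem unf_proof : UnfStatement := by
  classical
  intro k n D H hD G L _ S C₀ hP J _ X _ Γ hΓ
  choose C hCs hC using hΓ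
  refine ⟨UL L X, inferInstance, ugr S Γ, ucol C₀ C, fun l => Sum.inl (Sum.inl l),
    fun j x => Sum.inl (Sum.inr ⟨j, x⟩), ?_, ⟨Sum.inr true, Sum.inr false, by simp⟩, ?_, ?_, ?_, ?_⟩
  · refine ⟨?_, ucol_symm C₀ C hP.symm hCs, ?_, ?_, ?_⟩
    · intro g g' q q'
      rw [← hP.pat]
      constructor
      · intro h
        obtain ⟨v, hv, h'⟩ := ugr_e S Γ (u := Sum.inr (g, q)) h
        have hv' : ue L X v = ue L X (Sum.inr (g', q')) := hv.symm
        have : v = Sum.inr (g', q') := ue_inj hv'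
        subst this
        exact h'
      · intro h
        exact Or.inl ⟨_, _, h, rfl, rfl⟩
    · intro q y h hr
      obtain ⟨v, rfl, h'⟩ := ugr_e S Γ (u := Sum.inr q) h
      have e : ucol C₀ C (ue L X (Sum.inr q)) (ue L X v) = true := hr
      rw [ucol_e] at e
      obtain ⟨q', rfl⟩ := hP.red q v h' e
      exact ⟨q', rfl⟩
    · intro g q q' h
      have e := ucol_e C₀ C (L := L) (X := X) (Sum.inr (g, q)) (Sum.inr (g, q'))
      rw [hP.isred g q q' h] at e
      exact e
    · intro c f hf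
      have hk : 3 ≤ k := hD.three
      have v0 : Fin k := ⟨0, by omega⟩
      have hall : ∀ v, upt (f v) = upt (f v0) := by
        intro v
        obtain ⟨w⟩ := hD.conn.preconnected v v0
        induction w with
        | nil => rfl
        | cons h _ ih => exact (ugr_pt S Γ (hf.2 _ _ h).1).1.trans ih
      have hne : upt (f v0) ≠ none := by
        have : Nontrivial (Fin k) := Fin.nontrivial_iff_two_le.2 (by omega)
        obtain ⟨w, hw⟩ := exists_ne v0
        obtain ⟨p⟩ := hD.conn.preconnected v0 w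
        cases p with
        | nil => exact absurd rfl hw
        | cons h _ => exact (ugr_pt S Γ (hf.2 _ _ h).1).2
      rcases hc : upt (f v0) with _ | (_ | j)
      · exact absurd hc hne
      · have h1 : ∀ v, ∃ u, f v = ue L X u := fun v => upt_none ((hall v).trans hc)
        choose g hg using h1
        have hm : Mono S C₀ D c g := by
          refine ⟨?_, ?_⟩
          · intro u v huv
            apply hf.1
            rw [hg u, hg v, huv]
          · intro u v huv
            have h2 := hf.2 u v huv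
            rw [hg u, hg v] at h2
            refine ⟨?_, ?_⟩
            · obtain ⟨v', hv', h'⟩ := ugr_e S Γ h2.1
              have : g v = v' := ue_inj hv'
              rw [this]
              exact h'
            · rw [← ucol_e C₀ C (L := L) (X := X)]
              exact h2.2
        intro v
        obtain ⟨q, hq⟩ := hP.only c g hm v
        refine ⟨q, ?_⟩
        rw [hg v, hq]
        rfl
      · have h1 : ∀ v, ∃ x, f v = uf L X _ j x := fun v => upt_some ((hall v).trans hc)
        choose g hg using h1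
        refine absurd ?_ (hC j c g)
        refine ⟨?_, ?_⟩
        · intro u v huv
          apply hf.1
          rw [hg u, hg v, huv]
        · intro u v huv
          have h2 := hf.2 u v huv
          rw [hg u, hg v] at h2
          exact ⟨ugr_f S Γ h2.1, by rw [← ucol_f C₀ C (L := L) (Q := G × Fin n)]; exact h2.2⟩
  · intro u v h
    simpa using h
  · intro j u v h
    have h' : (⟨j, u⟩ : Σ j, X j) = ⟨j, v⟩ := by simpa using h
    exact eq_of_heq (Sigma.mk.inj h').2
  · intro u v h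
    exact Or.inl ⟨u, v, h, rfl, rfl⟩
  · intro j u v h
    exact Or.inr ⟨j, u, v, h, rfl, rfl⟩

end MP3240G
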