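import Pool.Agent.Lib.MP_3240be_co.H62.Defs

/-!
# Row BLB (helper37): blobs without `col` edges

Fewer than `K` of the `N` blobs of the kind `l` at `x y` have a `col` edge at `x`, and fewer than
`K` have one at `y`; the others are not `col` at all.
-/

set_option autoImplicit false

namespace MP3240G

open Finset
open MP3240Q (Mono SG)

namespace Blb

variable {Λ : Type} {n N n' : ℕ} {U : Λ → SG} {a b : ∀ l, Fin (U l).1}
  {B : SimpleGraph (Fin n)} {B' : SimpleGraph (Fin n')}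

/-- The vertex `v` of the blob. -/
def rl (l : Λ) (x y : Fin n) (ν : Fin N) (v : Fin (U l).1) : RB U n N n' :=
  Sum.inl ⟨l, x, y, ν, v⟩

theorem rl_inj {l : Λ} {x y : Fin n} {ν ν' : Fin N} {v v' : Fin (U l).1}
    (h : rl (n' := n') l x y ν v = rl l x y ν' v') : ν = ν' ∧ v = v' := by
  simp only [rl, Sum.inl.injEq, Sigma.mk.injEq, heq_eq_eq, Prod.mk.injEq, true_and] at h
  exact h

theorem gb_xy {x y : Fin n} (h : B.Adj x y) :
    (GB (N := N) U a b B B').Adj (Sum.inr x) (Sum.inr y) :=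
  (SimpleGraph.fromRel_adj _ _ _).2 ⟨fun e => h.ne (Sum.inr_injective e),
    Or.inl (Or.inl ⟨x, y, h, rfl, rfl⟩)⟩

theorem gb_in {x y : Fin n} (h : B.Adj x y) (l : Λ) (ν : Fin N) {v v' : Fin (U l).1}
    (h1 : v ≠ a l) (h2 : v ≠ b l) (h3 : v' ≠ a l) (h4 : v' ≠ b l) (h5 : (U l).2.Adj v v') :
    (GB U a b B B').Adj (Sum.inl (rl l x y ν v)) (Sum.inl (rl l x y ν v')) :=
  (SimpleGraph.fromRel_adj _ _ _).2 ⟨fun e => h5.ne (rl_inj (Sum.inl_injective e)).2,
    Or.inl (Or.inr (Or.inr (Or.inl ⟨l, x, y, ν, v, v', h, h1, h2, h3, h4, h5, rfl, rfl⟩)))⟩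

theorem gb_a {x y : Fin n} (h : B.Adj x y) (l : Λ) (ν : Fin N) {v : Fin (U l).1}
    (h1 : v ≠ a l) (h2 : v ≠ b l) (h5 : (U l).2.Adj (a l) v) :
    (GB U a b B B').Adj (Sum.inr x) (Sum.inl (rl l x y ν v)) :=
  (SimpleGraph.fromRel_adj _ _ _).2 ⟨Sum.inr_ne_inl,
    Or.inl (Or.inr (Or.inr (Or.inr (Or.inl ⟨l, x, y, ν, v, h, h1, h2, h5, rfl, rfl⟩))))⟩

theorem gb_b {x y : Fin n} (h : B.Adj x y) (l : Λ) (ν : Fin N) {v : Fin (U l).1}
    (h1 : v ≠ a l) (h2 : v ≠ b l) (h5 : (U l).2.Adj (b l) v) :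
    (GB U a b B B').Adj (Sum.inr y) (Sum.inl (rl l x y ν v)) :=
  (SimpleGraph.fromRel_adj _ _ _).2 ⟨Sum.inr_ne_inl,
    Or.inl (Or.inr (Or.inr (Or.inr (Or.inr ⟨l, x, y, ν, v, h, h1, h2, h5, rfl, rfl⟩))))⟩

/-- Few blobs have a `col` edge at `z`. -/
theorem few {I M : Type} {h Nw : ℕ} (δ : M → Fin Nw ⊕ RB U n N n' → I)
    (C : WP h I M ⊕ (M × Fin n) → WP h I M ⊕ (M × Fin n) → Bool) (m : M) (col : Bool) (K : ℕ)
    (z x y : Fin n) (l : Λ)
    (hz : ¬ ∃ g : Fin K → RB U n N n', Function.Injective g ∧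
      ∀ j, (GB U a b B B').Adj (Sum.inr z) (Sum.inl (g j)) ∧
        C (Sum.inr (m, z)) (Sum.inl (.low (δ m (Sum.inr (g j))))) = col)
    (S : Finset (Fin N)) (hS : ∀ ν ∈ S, ∃ v,
      (GB U a b B B').Adj (Sum.inr z) (Sum.inl (rl l x y ν v)) ∧
        C (Sum.inr (m, z)) (Sum.inl (.low (δ m (Sum.inr (rl l x y ν v))))) = col) :
    S.card < K := by
  classical
  by_contra hcon
  push Not at hcon
  obtain ⟨T, hT, hTc⟩ := exists_subset_card_eq hcon
  have e : T ≃ Fin K := T.equivFinOfCardEq hTc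
  choose v hv using fun ν : T => hS ν.1 (hT ν.2)
  apply hz
  refine ⟨fun j => rl l x y (e.symm j).1 (v (e.symm j)), ?_, fun j => hv (e.symm j)⟩
  intro j j' hjj
  have h1 := (rl_inj hjj).1
  exact e.symm.injective (Subtype.ext h1)

end Blb

open Blb

/-- Row BLB. -/
theorem blb_proof : BlbStatement := by
  intro Λ n N n' h Nw K N' U a b B B' I M δ C m col hC hN hab hδ hlow hfew x y hxy hCxy l
  classical
  obtain ⟨Sx, hSx⟩ : ∃ Sx : Finset (Fin N), Sx = univ.filter (fun ν => ∃ v,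
      (GB U a b B B').Adj (Sum.inr x) (Sum.inl (rl l x y ν v)) ∧
        C (Sum.inr (m, x)) (Sum.inl (.low (δ m (Sum.inr (rl l x y ν v))))) = col) := ⟨_, rfl⟩
  obtain ⟨Sy, hSy⟩ : ∃ Sy : Finset (Fin N), Sy = univ.filter (fun ν => ∃ v,
      (GB U a b B B').Adj (Sum.inr y) (Sum.inl (rl l x y ν v)) ∧
        C (Sum.inr (m, y)) (Sum.inl (.low (δ m (Sum.inr (rl l x y ν v))))) = col) := ⟨_, rfl⟩
  have hSxc : Sx.card < K := few δ C m col K x x y l (hfew x) Sx (fun ν hν => by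
    rw [hSx, mem_filter] at hν
    exact hν.2)
  have hSyc : Sy.card < K := few δ C m col K y x y l (hfew y) Sy (fun ν hν => by
    rw [hSy, mem_filter] at hν
    exact hν.2)
  have hgood : N' ≤ ((univ : Finset (Fin N)) \ (Sx ∪ Sy)).card := by
    have h1 : (Sx ∪ Sy).card ≤ Sx.card + Sy.card := card_union_le _ _
    have h2 : (univ : Finset (Fin N)).card = N := by simp
    have h3 := le_card_sdiff (Sx ∪ Sy) (univ : Finset (Fin N))
    omega
  obtain ⟨T, hT, hTc⟩ := exists_subset_card_eq hgood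
  have e : T ≃ Fin N' := T.equivFinOfCardEq hTc
  suffices main : ∀ ν ∈ (univ : Finset (Fin N)) \ (Sx ∪ Sy),
      Mono (WG (GB U a b B B') δ) C (U l).2 (!col) (fun v =>
        if v = a l then Sum.inr (m, x) else if v = b l then Sum.inr (m, y) else
          Sum.inl (.low (δ m (Sum.inr (Sum.inl ⟨l, x, y, ν, v⟩))))) from
    ⟨fun j => (e.symm j).1, fun j j' hjj => e.symm.injective (Subtype.ext hjj),
      fun j => main _ (hT (e.symm j).2)⟩
  intro ν hν
  rw [mem_sdiff, mem_union, not_or] at hν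
  obtain ⟨-, hνx, hνy⟩ := hν
  rw [hSx, mem_filter, not_and] at hνx
  rw [hSy, mem_filter, not_and] at hνy
  have hax : ∀ v, v ≠ a l → v ≠ b l → (U l).2.Adj (a l) v →
      C (Sum.inr (m, x)) (Sum.inl (.low (δ m (Sum.inr (rl l x y ν v))))) = !col := by
    intro v h1 h2 h3
    have h4 : C (Sum.inr (m, x)) (Sum.inl (.low (δ m (Sum.inr (rl l x y ν v))))) ≠ col :=
      fun h4 => hνx (mem_univ _) ⟨v, gb_a hxy l ν h1 h2 h3, h4⟩
    revert h4
    cases C (Sum.inr (m, x)) (Sum.inl (.low (δ m (Sum.inr (rl l x y ν v))))) <;> cases col <;>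
      simp
  have hby : ∀ v, v ≠ a l → v ≠ b l → (U l).2.Adj (b l) v →
      C (Sum.inr (m, y)) (Sum.inl (.low (δ m (Sum.inr (rl l x y ν v))))) = !col := by
    intro v h1 h2 h3
    have h4 : C (Sum.inr (m, y)) (Sum.inl (.low (δ m (Sum.inr (rl l x y ν v))))) ≠ col :=
      fun h4 => hνy (mem_univ _) ⟨v, gb_b hxy l ν h1 h2 h3, h4⟩
    revert h4
    cases C (Sum.inr (m, y)) (Sum.inl (.low (δ m (Sum.inr (rl l x y ν v))))) <;> cases col <;>
      simp
  have hne : x ≠ y := hxy.ne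
  obtain ⟨F, hF⟩ : ∃ F : Fin (U l).1 → WP h I M ⊕ (M × Fin n), F = fun v =>
      if v = a l then Sum.inr (m, x) else if v = b l then Sum.inr (m, y) else
        Sum.inl (.low (δ m (Sum.inr (rl l x y ν v)))) := ⟨_, rfl⟩
  have hFa : F (a l) = Sum.inr (m, x) := by
    rw [hF]
    exact if_pos rfl
  have hFb : F (b l) = Sum.inr (m, y) := by
    rw [hF]
    show (if b l = a l then _ else _) = _
    rw [if_neg (hab l).ne', if_pos rfl]
  have hFi : ∀ v, v ≠ a l → v ≠ b l → F v = Sum.inl (.low (δ m (Sum.inr (rl l x y ν v)))) := by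
    intro v h1 h2
    rw [hF]
    show (if v = a l then _ else _) = _
    rw [if_neg h1, if_neg h2]
  have hFinj : Function.Injective F := by
    intro v v' hvv
    by_cases h1 : v = a l
    · by_cases h1' : v' = a l
      · exact h1.trans h1'.symm
      · by_cases h2' : v' = b l
        · rw [h1, h2', hFa, hFb] at hvv
          exact absurd (congrArg Prod.snd (Sum.inr_injective hvv)) hne
        · rw [h1, hFa, hFi v' h1' h2'] at hvv
          exact absurd hvv Sum.inr_ne_inl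
    · by_cases h2 : v = b l
      · by_cases h1' : v' = a l
        · rw [h2, h1', hFa, hFb] at hvv
          exact absurd (congrArg Prod.snd (Sum.inr_injective hvv)).symm hne
        · by_cases h2' : v' = b l
          · exact h2.trans h2'.symm
          · rw [h2, hFb, hFi v' h1' h2'] at hvv
            exact absurd hvv Sum.inr_ne_inl
      · by_cases h1' : v' = a l
        · rw [h1', hFa, hFi v h1 h2] at hvv
          exact absurd hvv Sum.inl_ne_inr
        · by_cases h2' : v' = b l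
          · rw [h2', hFb, hFi v h1 h2] at hvv
            exact absurd hvv Sum.inl_ne_inr
          · rw [hFi v h1 h2, hFi v' h1' h2'] at hvv
            have h3 := WP.low.inj (Sum.inl_injective hvv)
            exact (rl_inj (Sum.inr_injective (hδ m h3))).2
  -- one direction of the edges
  have key : ∀ v v', (U l).2.Adj v v' → (v = a l ∨ (v = b l ∧ v' ≠ a l) ∨
      (v ≠ a l ∧ v ≠ b l ∧ v' ≠ a l ∧ v' ≠ b l)) →
      relG (GB U a b B B') δ (F v) (F v') ∧ C (F v) (F v') = !col := by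
    rintro v v' hvv (h1 | ⟨h1, h2⟩ | ⟨h1, h2, h3, h4⟩)
    · subst h1
      have h3 : v' ≠ a l := hvv.ne'
      by_cases h2 : v' = b l
      · rw [h2, hFa, hFb]
        exact ⟨⟨rfl, gb_xy hxy⟩, hCxy⟩
      · rw [hFa, hFi v' h3 h2]
        exact ⟨⟨_, gb_a hxy l ν h3 h2 hvv, rfl⟩, hax v' h3 h2 hvv⟩
    · subst h1
      have h3 : v' ≠ b l := hvv.ne'
      rw [hFb, hFi v' h2 h3]
      exact ⟨⟨_, gb_b hxy l ν h2 h3 hvv, rfl⟩, hby v' h2 h3 hvv⟩
    · rw [hFi v h1 h2, hFi v' h3 h4]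
      have h5 := gb_in (B' := B') hxy l ν h1 h2 h3 h4 hvv
      exact ⟨⟨m, _, _, h5, rfl, rfl⟩, hlow _ _ h5⟩
  have hmono : Mono (WG (GB U a b B B') δ) C (U l).2 (!col) F := by
    refine ⟨hFinj, ?_⟩
    intro v v' hvv
    have h0 : F v ≠ F v' := fun e => hvv.ne (hFinj e)
    have hcase : (v = a l ∨ (v = b l ∧ v' ≠ a l) ∨
        (v ≠ a l ∧ v ≠ b l ∧ v' ≠ a l ∧ v' ≠ b l)) ∨
        (v' = a l ∨ (v' = b l ∧ v ≠ a l) ∨
        (v' ≠ a l ∧ v' ≠ b l ∧ v ≠ a l ∧ v ≠ b l)) := by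
      by_cases h1 : v = a l
      · exact Or.inl (Or.inl h1)
      · by_cases h2 : v' = a l
        · exact Or.inr (Or.inl h2)
        · by_cases h3 : v = b l
          · exact Or.inl (Or.inr (Or.inl ⟨h3, h2⟩))
          · by_cases h4 : v' = b l
            · exact Or.inr (Or.inr (Or.inl ⟨h4, h1⟩))
            · exact Or.inl (Or.inr (Or.inr ⟨h1, h3, h2, h4⟩))
    rcases hcase with h1 | h1
    · obtain ⟨h2, h3⟩ := key v v' hvv h1
      exact ⟨(SimpleGraph.fromRel_adj _ _ _).2 ⟨h0, Or.inl h2⟩, h3⟩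
    · obtain ⟨h2, h3⟩ := key v' v hvv.symm h1
      exact ⟨(SimpleGraph.fromRel_adj _ _ _).2 ⟨h0, Or.inr h2⟩, (hC _ _).trans h3⟩
  rw [hF] at hmono
  exact hmono

end MP3240G
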