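import Pool.Agent.Lib.MP_3240be_co.H43.Defs2
import Pool.Agent.Lib.MP_3240be_co.Q22.Defs2

/-!
# MP_3240be_co, Theorem T2: connected bipartite graphs with cut vertices and several block types

Interface (board t2_modules, helper62).  Paper: finding 4558.
-/

set_option autoImplicit false

namespace MP3240G

open Finset
open MP3240Q (Mono Cop Bip SG Sub em Gl Lin XS St Host)
open MP3240W (TwoC ed)
open MP3240T (cls)
open Pool.Agent.Lib.MP_3240be_co.H82 (TC)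
open Pool.Agent.Lib.MP_3240be_co.H36.Chrom (Sparse ArrowsT)

/-! ## Blocks -/

/-- `U` has at least three vertices, it is connected and has no cut vertex. -/
structure TwoCn {n : ℕ} (U : SimpleGraph (Fin n)) : Prop where
  three : 3 ≤ n
  conn : U.Connected
  cut : ∀ a : Fin n, (U.induce {x | x ≠ a}).Connected

/-- `κ` is a proper 2-colouring of `U`, its class `true` has `h + 1` vertices and the other class
has at least as many. -/
structure Bi {n : ℕ} (U : SimpleGraph (Fin n)) (κ : Fin n → Bool) (h : ℕ) : Prop where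
  prop : ∀ i j, U.Adj i j → κ i ≠ κ j
  cardA : (univ.filter (fun v => κ v = true)).card = h + 1
  cardB : h + 1 ≤ (univ.filter (fun v => κ v = false)).card

/-- 2-connected bipartite graphs whose smaller class has `h + 1` vertices. -/
def Big (h : ℕ) (x : SG) : Prop := TwoCn x.2 ∧ ∃ κ, Bi x.2 κ h

/-- Graphs with a proper 2-colouring with a class of at most `h` vertices. -/
def Tiny (h : ℕ) (x : SG) : Prop :=
  ∃ κ : Fin x.1 → Bool, (∀ i j, x.2.Adj i j → κ i ≠ κ j) ∧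
    (univ.filter (fun v => κ v = true)).card ≤ h

/-- `U` stays connected (and nonempty) after the deletion of two vertices of different colour, for
every proper 2-colouring. -/
def Cross {n : ℕ} (U : SimpleGraph (Fin n)) : Prop :=
  ∀ κ : Fin n → Bool, (∀ i j, U.Adj i j → κ i ≠ κ j) → ∀ a b, κ a ≠ κ b →
    (U.induce {x | x ≠ a ∧ x ≠ b}).Connected

/-- The vertices `c`, `d` of different colour disconnect `U`; both sides (`σ`) contain vertices of
the class of `c`. -/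
structure Nc {n : ℕ} (U : SimpleGraph (Fin n)) (κ : Fin n → Bool) : Type where
  c : Fin n
  d : Fin n
  σ : Fin n → Bool
  hc : κ c = true
  hd : κ d = false
  sep : ∀ x y, x ≠ c → x ≠ d → y ≠ c → y ≠ d → U.Adj x y → σ x = σ y
  side : ∀ s : Bool, ∃ x, κ x = true ∧ x ≠ c ∧ σ x = s

def IsNc (h : ℕ) (x : SG) : Prop := ∃ κ, Bi x.2 κ h ∧ Nonempty (Nc x.2 κ)

/-- `x` is a maximal member of the family. -/
def Mx (fam : Set SG) (x : SG) : Prop := x ∈ fam ∧ ∀ y ∈ fam, Sub x.2 y.2 → Sub y.2 x.2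

/-- `v` is an end of an edge of `D` in the part `l`. -/
def BIn {Λ : Type} {k : ℕ} (D : SimpleGraph (Fin k)) (pt : Fin k → Fin k → Λ) (l : Λ)
    (v : Fin k) : Prop := ∃ u, D.Adj v u ∧ pt v u = l

/-- `D` is contained in a blob graph of the family.  The edge `u v` of `D` lies in the blob
`pt u v`; the blob `l` is the member `U l` without its edge `a l`, `b l`; `φ l` = the positions of
the vertices of the part `l` in the blob; two blobs share only vertices of the base, in the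
positions `a` and `b`; the base is independent; `κ` is a proper 2-colouring such that the two base
vertices of a blob have different colours. -/
def Blobbed (fam : Set SG) {k : ℕ} (D : SimpleGraph (Fin k)) : Prop :=
  ∃ (Λ : Type) (pt : Fin k → Fin k → Λ) (U : Λ → SG) (a b : ∀ l, Fin (U l).1)
    (φ : ∀ l, Fin k → Fin (U l).1) (κ : Fin k → Bool),
    (∀ l, U l ∈ fam ∧ (U l).2.Adj (a l) (b l)) ∧
    (∀ u v, D.Adj u v → κ u ≠ κ v ∧ pt u v = pt v u ∧
      (U (pt u v)).2.Adj (φ (pt u v) u) (φ (pt u v) v)) ∧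
    (∀ l u v, BIn D pt l u → BIn D pt l v → φ l u = φ l v → u = v) ∧
    (∀ l l' v, l ≠ l' → BIn D pt l v → BIn D pt l' v → φ l v = a l ∨ φ l v = b l) ∧
    ∀ l u v, BIn D pt l u → BIn D pt l v → φ l u = a l → φ l v = b l →
      ¬ D.Adj u v ∧ κ u ≠ κ v

/-! ## The theorem -/

/-- `B`-trees `T` with vertex set `A` and set of free vertices `F`, relative to `D`. -/
inductive BTree (h : ℕ) (fam : Set SG) {k : ℕ} (D : SimpleGraph (Fin k)) :
    SimpleGraph ℕ → Set ℕ → Set ℕ → Prop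
  | start (y : ℕ) : BTree h fam D ⊥ {y} {y}
  | pendant (T : SimpleGraph ℕ) (A F : Set ℕ) (y z : ℕ) (ht : BTree h fam D T A F)
      (hy : y ∈ A) (hz : z ∉ A) :
      BTree h fam D (T ⊔ SimpleGraph.edge y z) (insert z A) (insert z F)
  | full (T : SimpleGraph ℕ) (A F : Set ℕ) (x : SG) (f : Fin x.1 ↪ ℕ) (r : Fin x.1)
      (ht : BTree h fam D T A F) (hx : Tiny h x ∨ (x ∈ fam ∧ ¬ Sub D x.2)) (hr : f r ∈ F)
      (hnew : ∀ v, v ≠ r → f v ∉ A) :
      BTree h fam D (T ⊔ x.2.map f) (A ∪ Set.range f) (F ∪ Set.range f)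
  | copy (T : SimpleGraph ℕ) (A F : Set ℕ) (f : Fin k ↪ ℕ) (r a b : Fin k)
      (ht : BTree h fam D T A F) (hr : f r ∈ F) (hnew : ∀ v, v ≠ r → f v ∉ A)
      (hab : D.Adj a b) (hra : r ≠ a) (hrb : r ≠ b) :
      BTree h fam D (T ⊔ D.map f) (A ∪ Set.range f) (F ∪ f '' {v | v ≠ a ∧ v ≠ b})

/-- `B`-trees, symmetric version: every member of the family is glued with a free edge `a b`. -/
inductive BTree0 (h : ℕ) (fam : Set SG) : SimpleGraph ℕ → Set ℕ → Set ℕ → Prop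
  | start (y : ℕ) : BTree0 h fam ⊥ {y} {y}
  | pendant (T : SimpleGraph ℕ) (A F : Set ℕ) (y z : ℕ) (ht : BTree0 h fam T A F)
      (hy : y ∈ A) (hz : z ∉ A) :
      BTree0 h fam (T ⊔ SimpleGraph.edge y z) (insert z A) (insert z F)
  | tiny (T : SimpleGraph ℕ) (A F : Set ℕ) (x : SG) (f : Fin x.1 ↪ ℕ) (r : Fin x.1)
      (ht : BTree0 h fam T A F) (hx : Tiny h x) (hr : f r ∈ F)
      (hnew : ∀ v, v ≠ r → f v ∉ A) :
      BTree0 h fam (T ⊔ x.2.map f) (A ∪ Set.range f) (F ∪ Set.range f)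
  | big (T : SimpleGraph ℕ) (A F : Set ℕ) (x : SG) (f : Fin x.1 ↪ ℕ) (r a b : Fin x.1)
      (ht : BTree0 h fam T A F) (hx : x ∈ fam) (hr : f r ∈ F) (hnew : ∀ v, v ≠ r → f v ∉ A)
      (hab : x.2.Adj a b) (hra : r ≠ a) (hrb : r ≠ b) :
      BTree0 h fam (T ⊔ x.2.map f) (A ∪ Set.range f) (F ∪ f '' {v | v ≠ a ∧ v ≠ b})

/-- `H` is contained in `T` with vertices in `A`. -/
def InT {n : ℕ} (H : SimpleGraph (Fin n)) (T : SimpleGraph ℕ) (A : Set ℕ) : Prop :=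
  ∃ f : Fin n → ℕ, Function.Injective f ∧ (∀ x, f x ∈ A) ∧ ∀ x y, H.Adj x y → T.Adj (f x) (f y)

/-- The conditions on the family and on `D`. -/
structure Fam (h : ℕ) (fam : Set SG) {k : ℕ} (D : SimpleGraph (Fin k)) : Prop where
  one : 1 ≤ h
  fin : fam.Finite
  big : ∀ x ∈ fam, Big h x
  mx : Mx fam ⟨k, D⟩
  nob : ¬ Blobbed fam D
  nc : ∀ x, Mx fam x → ¬ Sub x.2 D → IsNc h x
  alt : IsNc h ⟨k, D⟩ ∨ TC True D

/-- Row REL: the theorem relative to `D`. -/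
def RelStatement : Prop :=
  ∀ (h k n n' : ℕ) (fam : Set SG) (D : SimpleGraph (Fin k)) (H : SimpleGraph (Fin n))
    (H' : SimpleGraph (Fin n')), Fam h fam D → Sub D H →
    (∃ T A F, BTree h fam D T A F ∧ InT H T A) → H'.Connected → Sub H H' → ¬ Sub H' H →
    ∃ (V : Type) (_ : Finite V) (F : SimpleGraph V), ArrowsT F H ∧ ¬ ArrowsT F H'

/-- Row MAIN: the symmetric theorem. -/
def MainStatement : Prop :=
  ∀ (h n n' : ℕ) (fam : Set SG) (H : SimpleGraph (Fin n)) (H' : SimpleGraph (Fin n')), 1 ≤ h →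
    fam.Finite → fam.Nonempty → (∀ x ∈ fam, Big h x) → (∀ x ∈ fam, Sub x.2 H) →
    (∀ x y, Mx fam x → Mx fam y → Cross x.2 → Cross y.2 → Sub x.2 y.2) →
    (∃ T A F, BTree0 h fam T A F ∧ InT H T A) → H'.Connected → Sub H H' → ¬ Sub H' H →
    ∃ (V : Type) (_ : Finite V) (F : SimpleGraph V), ArrowsT F H ∧ ¬ ArrowsT F H'

/-! ## Choice of `D` -/

/-- Row NCD: a big graph that is not cross-connected has a separating pair with both sides
containing vertices of the class; a cross-connected one satisfies `TC`. -/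
def NcdStatement : Prop :=
  ∀ (h : ℕ) (x : SG), Big h x → (¬ Cross x.2 → IsNc h x) ∧ (Cross x.2 → TC True x.2)

/-- Row SPC: `D` does not lie in a member without one edge if this member is contained in `D`. -/
def SpcStatement : Prop :=
  ∀ (k t : ℕ) (D : SimpleGraph (Fin k)) (U : SimpleGraph (Fin t)) (a b : Fin t)
    (φ : Fin k → Fin t), U.Adj a b → Sub U D → Function.Injective φ →
    (∀ u v, D.Adj u v → U.Adj (φ u) (φ v)) → ∃ u v, D.Adj u v ∧ φ u = a ∧ φ v = b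

/-- Row NBC (from SPC): a maximal `TC` member is not contained in a blob graph. -/
def NbcStatement : Prop :=
  ∀ (k : ℕ) (fam : Set SG) (D : SimpleGraph (Fin k)), TC True D → Mx fam ⟨k, D⟩ →
    ¬ Blobbed fam D

/-- Row GFL (Theorem G', paper (0)): `Cm e` = the edges of the member that contains the edge `e`,
`Pt e` = the part of this member that contains `e`, with its boundary `s e`, `t e`, its map `φ e`
and the image `e0 e` of the virtual edge `s e t e`. -/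
def GflStatement : Prop :=
  ∀ (X : Type) (E : Finset (Sym2 X)) (Cm Pt : Sym2 X → Finset (Sym2 X))
    (φ : Sym2 X → X → X) (e0 : Sym2 X → Sym2 X) (s t : Sym2 X → X),
    (∀ e ∈ E, e ∈ Pt e ∧ Pt e ⊆ Cm e ∧ Cm e ⊆ E ∧ TwoC (Cm e) ∧ ∃ f ∈ Cm e, f ∉ Pt e) →
    (∀ e ∈ E, ∀ f ∈ Cm e, Cm f = Cm e) →
    (∀ e ∈ E, s(s e, t e) ∉ Cm e) →
    (∀ e ∈ E, ∀ v, ∀ f ∈ Pt e, v ∈ f → ∀ f' ∈ Cm e, f' ∉ Pt e → v ∈ f' → v = s e ∨ v = t e) →
    (∀ e ∈ E, ∀ u v, (∃ f ∈ Pt e, u ∈ f) → (∃ f ∈ Pt e, v ∈ f) → φ e u = φ e v → u = v) →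
    (∀ e ∈ E, e.map (φ e) ∈ E ∧ e0 e ∈ Cm (e.map (φ e)) ∧ s(φ e (s e), φ e (t e)) = e0 e) →
    (∀ e ∈ E, ∀ f ∈ Pt e, f.map (φ e) ∈ Cm (e.map (φ e)) ∧ f.map (φ e) ≠ e0 e) → E = ∅

/-- Row NBN (from GFL, SPC, TWO): some maximal member is not contained in a blob graph. -/
def NbnStatement : Prop :=
  ∀ (fam : Set SG), fam.Finite → fam.Nonempty → (∀ x ∈ fam, TwoCn x.2) →
    ∃ x, Mx fam x ∧ ¬ Blobbed fam x.2

/-- Row CHO (from NCD, NBC, NBN): the choice of `D`. -/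
def ChoStatement : Prop :=
  ∀ (h : ℕ) (fam : Set SG), 1 ≤ h → fam.Finite → fam.Nonempty → (∀ x ∈ fam, Big h x) →
    (∀ x y, Mx fam x → Mx fam y → Cross x.2 → Cross y.2 → Sub x.2 y.2) →
    ∃ x : SG, Fam h fam x.2

/-- Row SYT: a symmetric B-tree is a B-tree relative to every maximal member, with perhaps more
free vertices. -/
def SytStatement : Prop :=
  ∀ (h k : ℕ) (fam : Set SG) (D : SimpleGraph (Fin k)), Mx fam ⟨k, D⟩ → ∀ T A F,
    BTree0 h fam T A F → ∃ F', F ⊆ F' ∧ BTree h fam D T A F'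

/-! ## Embeddings -/

/-- Row EXL: extension lemma with a condition `P` on the new vertices (compare exn_proof in
H43/Exn.lean). -/
def ExlStatement : Prop :=
  ∀ (V : Type) (G : SimpleGraph V) (P : V → Prop) (n : ℕ) (U : SimpleGraph (Fin n))
    (W : Finset (Fin n)) (φ : Fin n → V), Set.InjOn φ (W : Set (Fin n)) →
    (∀ i ∈ W, ∀ j ∈ W, U.Adj i j → G.Adj (φ i) (φ j)) →
    (∀ i, i ∉ W → ∀ j, j ∉ W → ¬ U.Adj i j) →
    (∀ u, u ∉ W → ∀ S : Finset V, S.card < n →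
      ∃ z, z ∉ S ∧ P z ∧ ∀ i ∈ W, U.Adj u i → G.Adj (φ i) z) →
    ∃ f : Fin n → V, Function.Injective f ∧ (∀ i ∈ W, f i = φ i) ∧ (∀ i, i ∉ W → P (f i)) ∧
      ∀ i j, U.Adj i j → G.Adj (f i) (f j)

/-- Row KHN (from EXL): `U` in `K_(h + 1, n)`, with a prescribed hub `v` in a prescribed position
`α`; the other vertices satisfy `P`. -/
def KhnStatement : Prop :=
  ∀ (n h : ℕ) (U : SimpleGraph (Fin n)) (κ : Fin n → Bool), Bi U κ h → ∀ α, κ α = true →
    ∀ (V : Type) (G : SimpleGraph V) (P : V → Prop) (R N : Finset V) (v : V), R.card = h →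
    v ∉ R → (∀ y ∈ R, P y) → n ≤ N.card → (∀ z ∈ N, P z ∧ G.Adj v z ∧ ∀ y ∈ R, G.Adj y z) →
    ∃ f : Fin n → V, Function.Injective f ∧ f α = v ∧ (∀ i, i ≠ α → P (f i)) ∧
      ∀ i j, U.Adj i j → G.Adj (f i) (f j)

/-- Row RLC (from EXL, Rule C): two different sets `R s` of `h` hubs with a common hub `y`, both
with `n` common neighbours, and one vertex `x` joined to all these hubs.  `c` goes to `y`, `d` to
`x`, the two sides of the class to `R s` (Hall). -/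
def RlcStatement : Prop :=
  ∀ (n h : ℕ) (U : SimpleGraph (Fin n)) (κ : Fin n → Bool), Bi U κ h → Nc U κ →
    ∀ (V : Type) (G : SimpleGraph V) (P : V → Prop) (R N : Bool → Finset V) (y x : V),
    (∀ s, (R s).card = h) → R true ≠ R false → (∀ s, y ∈ R s) → P x →
    (∀ s, ∀ r ∈ R s, P r ∧ G.Adj r x) → (∀ s, n ≤ (N s).card) →
    (∀ s, ∀ z ∈ N s, P z ∧ ∀ r ∈ R s, G.Adj r z) →
    ∃ f : Fin n → V, Function.Injective f ∧ (∀ i, P (f i)) ∧
      ∀ i j, U.Adj i j → G.Adj (f i) (f j)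

/-- Row LRG: no copy of `D` such that every edge has exactly one end in a set `Y` of at most `h`
vertices (the two classes of a connected bipartite graph are unique). -/
def LrgStatement : Prop :=
  ∀ (k h : ℕ) (D : SimpleGraph (Fin k)) (κ : Fin k → Bool), D.Connected → Bi D κ h →
    ∀ (X : Type) (f : Fin k → X) (Y : Finset X), Function.Injective f → Y.card ≤ h →
    ¬ ∀ i j, D.Adj i j → (f i ∈ Y ↔ f j ∉ Y)

/-! ## The world gadget -/

/-- The points of the world gadget: common hubs `y`, lows, private hubs `p m` of the hyperedge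
`m`. -/
inductive WP (h : ℕ) (I M : Type) : Type
  | y (j : Fin h) : WP h I M
  | low (i : I) : WP h I M
  | p (m : M) (j : Fin h) : WP h I M

instance {h : ℕ} {I M : Type} [Finite I] [Finite M] : Finite (WP h I M) := by
  refine Finite.of_injective (β := Fin h ⊕ (I ⊕ (M × Fin h))) (fun d => match d with
    | WP.y j => Sum.inl j
    | WP.low i => Sum.inr (Sum.inl i)
    | WP.p m j => Sum.inr (Sum.inr (m, j))) ?_
  intro d d' h
  rcases d with j | i | ⟨m, j⟩ <;> rcases d' with j' | i' | ⟨m', j'⟩ <;> simp_all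

/-- The positions in one piece of the world gadget. -/
inductive WS (h Nw : ℕ) (R Z : Type) : Type
  | y (j : Fin h) : WS h Nw R Z
  | p (j : Fin h) : WS h Nw R Z
  | s (t : Fin Nw ⊕ R) : WS h Nw R Z
  | z (ζ : Z) : WS h Nw R Z

instance {h Nw : ℕ} {R Z : Type} [Finite R] [Finite Z] : Finite (WS h Nw R Z) := by
  refine Finite.of_injective (β := (Fin h ⊕ Fin h) ⊕ ((Fin Nw ⊕ R) ⊕ Z)) (fun d => match d with
    | WS.y j => Sum.inl (Sum.inl j)
    | WS.p j => Sum.inl (Sum.inr j)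
    | WS.s t => Sum.inr (Sum.inl t)
    | WS.z ζ => Sum.inr (Sum.inr ζ)) ?_
  intro d d' h
  rcases d with j | j | t | ζ <;> rcases d' with j' | j' | t' | ζ' <;> simp_all

section World

variable {h Nw : ℕ} {I M R Z : Type} (Ga : SimpleGraph (R ⊕ Z)) (δ : M → Fin Nw ⊕ R → I)

/-- The vertex in the position `s` of the piece `m`. -/
def ws (m : M) : WS h Nw R Z → WP h I M ⊕ (M × Z)
  | .y j => .inl (.y j)
  | .p j => .inl (.p m j)
  | .s t => .inl (.low (δ m t))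
  | .z ζ => .inr (m, ζ)

/-- The edges of the world gadget, in one direction. -/
def relG : WP h I M ⊕ (M × Z) → WP h I M ⊕ (M × Z) → Prop
  | .inl (.y _), .inl (.low _) => True
  | .inl (.p m _), .inl (.low i) => ∃ w, δ m (.inl w) = i
  | .inl (.low i), .inl (.low i') => ∃ m r r', Ga.Adj (.inl r) (.inl r') ∧ δ m (.inr r) = i ∧
      δ m (.inr r') = i'
  | .inr q, .inl (.low i) => ∃ r, Ga.Adj (.inr q.2) (.inl r) ∧ δ q.1 (.inr r) = i
  | .inr q, .inr q' => q.1 = q'.1 ∧ Ga.Adj (.inr q.2) (.inr q'.2)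
  | _, _ => False

/-- The world gadget. -/
def WG : SimpleGraph (WP h I M ⊕ (M × Z)) := SimpleGraph.fromRel (relG Ga δ)

/-- The red edges of the intended colouring, in one direction. -/
def redG : WP h I M ⊕ (M × Z) → WP h I M ⊕ (M × Z) → Prop
  | .inl (.y _), .inl (.low _) => True
  | .inr _, .inr _ => True
  | _, _ => False

/-- The intended colouring (`true` = red). -/
noncomputable def cG (a b : WP h I M ⊕ (M × Z)) : Bool := by
  classical exact decide (redG a b ∨ redG b a)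

end World

/-- Row WGP (from KHN, RLC): purity, paper (1) (i)-(iii). -/
def WgpStatement : Prop :=
  ∀ (h K Nw : ℕ) (U : Bool → SG) (κ : ∀ c, Fin (U c).1 → Bool), 1 ≤ h →
    (∀ c, Bi (U c).2 (κ c) h ∧ (U c).1 ≤ K) → (∃ c, Nonempty (Nc (U c).2 (κ c))) →
    K * 2 ^ h ≤ Nw → ∀ (I M R Z : Type) (Ga : SimpleGraph (R ⊕ Z)) (δ : M → Fin Nw ⊕ R → I),
    (∀ m, Function.Injective (δ m)) →
    ∀ C : WP h I M ⊕ (M × Z) → WP h I M ⊕ (M × Z) → Bool, (∀ x y, C x y = C y x) →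
    ∀ (χ : M → Prop) (Cφ : WS h Nw R Z → WS h Nw R Z → Bool),
    (∀ m, χ m → ∀ s s', C (ws δ m s) (ws δ m s') = Cφ s s') →
    ∀ x, XS δ χ (K + 2) 1 x →
    (∃ (c : Bool) (f : Fin (U c).1 → WP h I M),
      Mono (WG Ga δ) C (U c).2 c (fun v => Sum.inl (f v))) ∨
    ∃ col : Bool, ∀ m, χ m → ∀ t j, C (Sum.inl (.y j)) (Sum.inl (.low (δ m t))) = col

/-- Row WGA (from WGP, KHN): the world gadget arrows, paper (1) (iv)-(vi). -/
def WgaStatement : Prop :=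
  ∀ (h K Nw : ℕ) (U : Bool → SG) (κ : ∀ c, Fin (U c).1 → Bool), 1 ≤ h →
    (∀ c, Bi (U c).2 (κ c) h ∧ (U c).1 ≤ K) → (∃ c, Nonempty (Nc (U c).2 (κ c))) →
    K * 2 ^ h ≤ Nw → ∀ (I M R Z : Type) (Ga : SimpleGraph (R ⊕ Z)) (δ : M → Fin Nw ⊕ R → I),
    (∀ m, Function.Injective (δ m)) → Lin δ →
    ∀ C : WP h I M ⊕ (M × Z) → WP h I M ⊕ (M × Z) → Bool, (∀ x y, C x y = C y x) →
    ∀ (χ : M → Prop) (Cφ : WS h Nw R Z → WS h Nw R Z → Bool),
    (∀ m, χ m → ∀ s s', C (ws δ m s) (ws δ m s') = Cφ s s') →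
    ∀ x, XS δ χ (K + 2) 1 x →
    (∃ (c : Bool) (f : Fin (U c).1 → WP h I M),
      Mono (WG Ga δ) C (U c).2 c (fun v => Sum.inl (f v))) ∨
    ∃ (col : Bool) (m : M), χ m ∧
      (∀ r r', Ga.Adj (Sum.inl r) (Sum.inl r') →
        C (Sum.inl (.low (δ m (Sum.inr r)))) (Sum.inl (.low (δ m (Sum.inr r')))) = !col) ∧
      ∀ ζ, (∃ g : Fin K → R, Function.Injective g ∧ ∀ j, Ga.Adj (Sum.inr ζ) (Sum.inl (g j)) ∧
          C (Sum.inr (m, ζ)) (Sum.inl (.low (δ m (Sum.inr (g j))))) = col) →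
        ∀ α, κ col α = true → ∃ f, Mono (WG Ga δ) C (U col).2 col f ∧ f α = Sum.inr (m, ζ) ∧
          ∀ v, v ≠ α → ∃ l, f v = Sum.inl l

/-- Row WGR (from LRG): the red copies of `D` in the intended colouring. -/
def WgrStatement : Prop :=
  ∀ (k h Nw : ℕ) (D : SimpleGraph (Fin k)) (κ : Fin k → Bool), TwoCn D → Bi D κ h →
    ∀ (I M R Z : Type) (Ga : SimpleGraph (R ⊕ Z)) (δ : M → Fin Nw ⊕ R → I)
      (f : Fin k → WP h I M ⊕ (M × Z)), Mono (WG Ga δ) cG D true f →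
      ∃ m, ∀ v, ∃ ζ, f v = Sum.inr (m, ζ)

/-- Row WGB (from LRG, PC2, TWO, LIN): a blue copy of `D` in the intended colouring gives a copy
in `Ga` without the edges inside `Z`. -/
def WgbStatement : Prop :=
  ∀ (k h Nw : ℕ) (D : SimpleGraph (Fin k)) (κ : Fin k → Bool), TwoCn D → Bi D κ h →
    ∀ (I M R Z : Type) (Ga : SimpleGraph (R ⊕ Z)) (δ : M → Fin Nw ⊕ R → I),
      (∀ m, Function.Injective (δ m)) → Sparse (k * k) δ →
      ∀ f : Fin k → WP h I M ⊕ (M × Z), Mono (WG Ga δ) cG D false f →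
      ∃ g : Fin k → R ⊕ Z, Function.Injective g ∧ ∀ i j, D.Adj i j → Ga.Adj (g i) (g j) ∧
        ¬ ((∃ ζ, g i = Sum.inr ζ) ∧ ∃ ζ, g j = Sum.inr ζ)

/-! ## The blob graph -/

/-- The roles: the vertices of the blobs (`U l` at the pair `x y` of vertices of the base, number
`ν`), and a separate graph on `Fin n'`. -/
abbrev RB {Λ : Type} (U : Λ → SG) (n N n' : ℕ) : Type :=
  (Σ l : Λ, Fin n × Fin n × Fin N × Fin (U l).1) ⊕ Fin n'

section Blob

variable {Λ : Type} {n N n' : ℕ} (U : Λ → SG) (a b : ∀ l, Fin (U l).1)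
  (B : SimpleGraph (Fin n)) (B' : SimpleGraph (Fin n'))

/-- The edges of the blob graph, in one direction. -/
def relB (s t : RB U n N n' ⊕ Fin n) : Prop :=
  (∃ x y, B.Adj x y ∧ s = Sum.inr x ∧ t = Sum.inr y) ∨
  (∃ u u', B'.Adj u u' ∧ s = Sum.inl (Sum.inr u) ∧ t = Sum.inl (Sum.inr u')) ∨
  (∃ l x y ν v v', B.Adj x y ∧ v ≠ a l ∧ v ≠ b l ∧ v' ≠ a l ∧ v' ≠ b l ∧ (U l).2.Adj v v' ∧
    s = Sum.inl (Sum.inl ⟨l, x, y, ν, v⟩) ∧ t = Sum.inl (Sum.inl ⟨l, x, y, ν, v'⟩)) ∨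
  (∃ l x y ν v, B.Adj x y ∧ v ≠ a l ∧ v ≠ b l ∧ (U l).2.Adj (a l) v ∧
    s = Sum.inr x ∧ t = Sum.inl (Sum.inl ⟨l, x, y, ν, v⟩)) ∨
  (∃ l x y ν v, B.Adj x y ∧ v ≠ a l ∧ v ≠ b l ∧ (U l).2.Adj (b l) v ∧
    s = Sum.inr y ∧ t = Sum.inl (Sum.inl ⟨l, x, y, ν, v⟩))

/-- The blob graph. -/
def GB : SimpleGraph (RB U n N n' ⊕ Fin n) := SimpleGraph.fromRel (relB U a b B B')

end Blob

/-- Row GAB: the blob graph without the edges of the base contains no `D`. -/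
def GabStatement : Prop :=
  ∀ (Λ : Type) (n N n' k : ℕ) (U : Λ → SG) (a b : ∀ l, Fin (U l).1) (B : SimpleGraph (Fin n))
    (B' : SimpleGraph (Fin n')) (fam : Set SG) (D : SimpleGraph (Fin k)), TwoCn D →
    (∀ l, U l ∈ fam ∧ (U l).2.Adj (a l) (b l) ∧ Bip (U l).2) → Bip B → ¬ Sub D B' →
    ¬ Blobbed fam D → ∀ g : Fin k → RB U n N n' ⊕ Fin n, Function.Injective g →
    ¬ ∀ i j, D.Adj i j → (GB U a b B B').Adj (g i) (g j) ∧
      ¬ ((∃ ζ, g i = Sum.inr ζ) ∧ ∃ ζ, g j = Sum.inr ζ)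

/-- Row BLB: if the edges between lows are not `col`, `x y` is not `col` and `x` and `y` have few
`col` edges then `N'` blobs of every kind at `x y` are not `col` at all. -/
def BlbStatement : Prop :=
  ∀ (Λ : Type) (n N n' h Nw K N' : ℕ) (U : Λ → SG) (a b : ∀ l, Fin (U l).1)
    (B : SimpleGraph (Fin n)) (B' : SimpleGraph (Fin n')) (I M : Type)
    (δ : M → Fin Nw ⊕ RB U n N n' → I)
    (C : WP h I M ⊕ (M × Fin n) → WP h I M ⊕ (M × Fin n) → Bool) (m : M) (col : Bool),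
    (∀ x y, C x y = C y x) → N' + 2 * K ≤ N → (∀ l, (U l).2.Adj (a l) (b l)) →
    (∀ m, Function.Injective (δ m)) →
    (∀ r r', (GB U a b B B').Adj (Sum.inl r) (Sum.inl r') →
      C (Sum.inl (.low (δ m (Sum.inr r)))) (Sum.inl (.low (δ m (Sum.inr r')))) = !col) →
    (∀ ζ, ¬ ∃ g : Fin K → RB U n N n', Function.Injective g ∧
      ∀ j, (GB U a b B B').Adj (Sum.inr ζ) (Sum.inl (g j)) ∧
        C (Sum.inr (m, ζ)) (Sum.inl (.low (δ m (Sum.inr (g j))))) = col) →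
    ∀ x y, B.Adj x y → C (Sum.inr (m, x)) (Sum.inr (m, y)) = (!col) → ∀ l,
    ∃ ν : Fin N' → Fin N, Function.Injective ν ∧ ∀ j,
      Mono (WG (GB U a b B B') δ) C (U l).2 (!col) (fun v =>
        if v = a l then Sum.inr (m, x) else if v = b l then Sum.inr (m, y) else
          Sum.inl (.low (δ m (Sum.inr (Sum.inl ⟨l, x, y, ν j, v⟩)))))

/-! ## Gadgets -/

/-- Row KGD (from TYP, LIN, WGA, WGR, WGB, GAB, BLB): the killer of the pair `U true`, `U false`;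
`B` appears in both colours. -/
def KgdStatement : Prop :=
  ∀ (h k : ℕ) (fam : Set SG) (D : SimpleGraph (Fin k)) (U : Bool → SG) (B : SG), 1 ≤ h →
    (∀ x ∈ fam, Big h x) → (⟨k, D⟩ : SG) ∈ fam → ¬ Blobbed fam D → (∀ c, U c ∈ fam) →
    (∃ c, IsNc h (U c)) → Bip B.2 → ¬ Sub D B.2 →
    ∃ (X : Type) (_ : Finite X) (Γ : SimpleGraph X),
      (∃ C : X → X → Bool, (∀ x y, C x y = C y x) ∧ ∀ c f, ¬ Mono Γ C D c f) ∧
      ∀ C : X → X → Bool, (∀ x y, C x y = C y x) →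
        (∃ c f, Mono Γ C (U c).2 c f) ∨ ∀ c, ∃ f, Mono Γ C B.2 c f

/-- The good colouring `C₀` (`true` = red) of a gadget with passengers: copies of `H` indexed by
`G`. -/
structure PBase {k n : ℕ} {G L : Type} (D : SimpleGraph (Fin k)) (H : SimpleGraph (Fin n))
    (S : SimpleGraph (L ⊕ (G × Fin n)))
    (C₀ : L ⊕ (G × Fin n) → L ⊕ (G × Fin n) → Bool) : Prop where
  pat : ∀ g g' q q', S.Adj (Sum.inr (g, q)) (Sum.inr (g', q')) ↔ g = g' ∧ H.Adj q q'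
  symm : ∀ x y, C₀ x y = C₀ y x
  red : ∀ q y, S.Adj (Sum.inr q) y → C₀ (Sum.inr q) y = true → ∃ q', y = Sum.inr q'
  isred : ∀ g q q', H.Adj q q' → C₀ (Sum.inr (g, q)) (Sum.inr (g, q')) = true
  only : ∀ c f, Mono S C₀ D c f → ∀ v, ∃ q, f v = Sum.inr q

/-- Some copy of `H` on passengers is monochromatic. -/
def MonoH {n : ℕ} {G L : Type} (H : SimpleGraph (Fin n))
    (C : L ⊕ (G × Fin n) → L ⊕ (G × Fin n) → Bool) : Prop :=
  ∃ g c, ∀ q q', H.Adj q q' → C (Sum.inr (g, q)) (Sum.inr (g, q')) = c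

/-- `x` has a copy in colour `c` outside the passengers. -/
def Prs {L Q : Type} (S : SimpleGraph (L ⊕ Q)) (C : L ⊕ Q → L ⊕ Q → Bool) (c : Bool) (x : SG) :
    Prop := ∃ f : Fin x.1 → L, Mono S C x.2 c (fun v => Sum.inl (f v))

/-- Row PGD (from TYP, LIN, WGA, WGR, WGB, GAB, BLB): the passenger gadget for `D` with `IsNc`.
`Ga` = `H` with `N + 2 K` blobs `D - a b` for every oriented edge `a b` of `D` at every oriented
edge of `H`. -/
def PgdStatement : Prop :=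
  ∀ (h k n N : ℕ) (fam : Set SG) (D : SimpleGraph (Fin k)) (H : SimpleGraph (Fin n)), 1 ≤ h →
    (∀ x ∈ fam, Big h x) → (⟨k, D⟩ : SG) ∈ fam → ¬ Blobbed fam D → IsNc h ⟨k, D⟩ → Bip H →
    ∃ (G L : Type) (_ : Finite G) (_ : Finite L) (S : SimpleGraph (L ⊕ (G × Fin n)))
      (C₀ : L ⊕ (G × Fin n) → L ⊕ (G × Fin n) → Bool), PBase D H S C₀ ∧
      ∀ C : L ⊕ (G × Fin n) → L ⊕ (G × Fin n) → Bool, (∀ x y, C x y = C y x) →
        MonoH H C ∨ (∃ c, Prs S C c ⟨k, D⟩) ∨ ∃ c, ∀ a b, D.Adj a b → Cop D S C c N a b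

/-- Row UNF: disjoint union of a gadget with passengers and finitely many other gadgets. -/
def UnfStatement : Prop :=
  ∀ (k n : ℕ) (D : SimpleGraph (Fin k)) (H : SimpleGraph (Fin n)), TwoCn D →
    ∀ (G L : Type) [Finite L] (S : SimpleGraph (L ⊕ (G × Fin n)))
      (C₀ : L ⊕ (G × Fin n) → L ⊕ (G × Fin n) → Bool), PBase D H S C₀ →
    ∀ (J : Type) [Finite J] (X : J → Type) [∀ j, Finite (X j)] (Γ : ∀ j, SimpleGraph (X j)),
    (∀ j, ∃ C : X j → X j → Bool, (∀ x y, C x y = C y x) ∧ ∀ c f, ¬ Mono (Γ j) C D c f) →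
    ∃ (L' : Type) (_ : Finite L') (S' : SimpleGraph (L' ⊕ (G × Fin n)))
      (C₀' : L' ⊕ (G × Fin n) → L' ⊕ (G × Fin n) → Bool) (i : L → L') (i' : ∀ j, X j → L'),
      PBase D H S' C₀' ∧ (∃ l l' : L', l ≠ l') ∧ Function.Injective i ∧
      (∀ j, Function.Injective (i' j)) ∧
      (∀ u v, S.Adj u v → S'.Adj (Sum.map i id u) (Sum.map i id v)) ∧
      ∀ j u v, (Γ j).Adj u v → S'.Adj (Sum.inl (i' j u)) (Sum.inl (i' j v))

/-- Row PPS (from PGD, KGD, UNF for `IsNc`, from `Piece2Statement` for `TC`): the passenger gadget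
with the smaller members of the family.  For `TC`: `G = Unit`, the small graphs are `K_2` (gives
the `N` neighbours) and the members contained in `D`. -/
def PpsStatement : Prop :=
  ∀ (h k n N : ℕ) (fam : Set SG) (D : SimpleGraph (Fin k)) (H : SimpleGraph (Fin n)), 1 ≤ N →
    Fam h fam D → Bip H →
    ∃ (G L : Type) (_ : Finite G) (_ : Finite L) (S : SimpleGraph (L ⊕ (G × Fin n)))
      (C₀ : L ⊕ (G × Fin n) → L ⊕ (G × Fin n) → Bool), PBase D H S C₀ ∧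
      ∀ C : L ⊕ (G × Fin n) → L ⊕ (G × Fin n) → Bool, (∀ x y, C x y = C y x) →
        MonoH H C ∨ (∃ c, Prs S C c ⟨k, D⟩) ∨
        ∃ c, (∀ a b, D.Adj a b → Cop D S C c N a b) ∧
          ∀ x ∈ fam, ¬ Sub D x.2 → Sub x.2 D → Prs S C c x

/-- Row GMC: `Γ = K_(2h, M)`. -/
def GmcStatement : Prop :=
  ∀ (h : ℕ) (Tn fam : Set SG), 1 ≤ h → Tn.Finite → fam.Finite → (∀ x ∈ Tn, Tiny h x) →
    (∀ x ∈ fam, ∃ κ, Bi x.2 κ h) →
    ∃ (X : Type) (_ : Finite X) (Γ : SimpleGraph X),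
      (∃ C : X → X → Bool, (∀ x y, C x y = C y x) ∧
        ∀ (k : ℕ) (D : SimpleGraph (Fin k)), D.Connected → (∃ κ, Bi D κ h) →
          ∀ c f, ¬ Mono Γ C D c f) ∧
      ∀ C : X → X → Bool, (∀ x y, C x y = C y x) → ∀ c,
        (∀ x ∈ Tn, ∃ f, Mono Γ C x.2 c f) ∨ ∀ x ∈ Tn ∪ fam, ∃ f, Mono Γ C x.2 (!c) f

/-- Row CAS: the case distinction of paper (4), pure logic. `P c x` = the graph `x` appears in
colour `c`. -/
def CasStatement : Prop :=
  ∀ (fam Tn : Set SG) (D : SG) (P : Bool → SG → Prop) (Cp : Bool → Prop), fam.Finite →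
    Mx fam D → (∀ c x y, Sub x.2 y.2 → P c y → P c x) →
    (∀ x y, Mx fam x → Mx fam y → ¬ (Sub x.2 D.2 ∧ Sub y.2 D.2) → P true x ∨ P false y) →
    (∀ c, (∀ x ∈ Tn, P c x) ∨ ∀ x ∈ Tn ∪ fam, P (!c) x) → (∀ c, P c D → Cp c) →
    ((∃ c, P c D) ∨ ∃ c, Cp c ∧ ∀ x ∈ fam, ¬ Sub D.2 x.2 → Sub x.2 D.2 → P c x) →
    ∃ c, Cp c ∧ ∀ x, (x ∈ Tn ∨ (x ∈ fam ∧ ¬ Sub D.2 x.2)) → P c x

/-- Row BPC (from PPS, KGD, GMC, UNF, CAS): the final gadget. -/
def BpcStatement : Prop :=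
  ∀ (h k n N : ℕ) (fam Tn : Set SG) (D : SimpleGraph (Fin k)) (H : SimpleGraph (Fin n)), 1 ≤ N →
    Fam h fam D → Bip H → Tn.Finite → (∀ x ∈ Tn, Tiny h x) →
    ∃ (G L : Type) (_ : Finite G) (_ : Finite L) (S : SimpleGraph (L ⊕ (G × Fin n)))
      (C₀ : L ⊕ (G × Fin n) → L ⊕ (G × Fin n) → Bool), PBase D H S C₀ ∧
      (∃ l l' : L, l ≠ l') ∧
      ∀ C : L ⊕ (G × Fin n) → L ⊕ (G × Fin n) → Bool, (∀ x y, C x y = C y x) →
        MonoH H C ∨ ∃ c, (∀ a b, D.Adj a b → Cop D S C c N a b) ∧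
          ∀ x, (x ∈ Tn ∨ (x ∈ fam ∧ ¬ Sub D x.2)) → Prs S C c x

/-! ## Outer gluing -/

/-- Row NFB (from PC2, TWO, LIN; compare Q22/Nfh.lean): no monochromatic `H'` in the intended
colouring of the host. -/
def NfbStatement : Prop :=
  ∀ (k n n' : ℕ) (D : SimpleGraph (Fin k)) (H : SimpleGraph (Fin n))
    (H' : SimpleGraph (Fin n')), TwoCn D → H'.Connected → Sub D H' → ¬ Sub H' H →
    ∀ (G L I M : Type) (S : SimpleGraph (L ⊕ (G × Fin n)))
      (C₀ : L ⊕ (G × Fin n) → L ⊕ (G × Fin n) → Bool) (δ : M → L → I), PBase D H S C₀ →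
      (∀ m, Function.Injective (δ m)) → Sparse (k * k + 2) δ → ¬ ArrowsT (Gl S δ) H'

/-- Row GLU (from MON, FNB, FRE; compare Q22/Bst.lean): gluing a graph that is present in colour
`c`. -/
def GluStatement : Prop :=
  ∀ (k N t : ℕ) (L Q I M : Type) (D : SimpleGraph (Fin k)) (S : SimpleGraph (L ⊕ Q))
    (δ : M → L → I) (C : I ⊕ (M × Q) → I ⊕ (M × Q) → Bool) (χ : M → Prop)
    (Cφ : L ⊕ Q → L ⊕ Q → Bool) (c : Bool), Host D N t S δ C χ Cφ c →
    ∀ (j : ℕ) (T : SimpleGraph ℕ) (A F : Set ℕ) (g : ℕ → I ⊕ (M × Q)), A.Finite →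
    A.ncard < N → (∀ u v, T.Adj u v → u ∈ A ∧ v ∈ A) → F ⊆ A →
    St S δ C χ c N (j + 1) T A F g →
    ∀ (x : SG) (f : Fin x.1 ↪ ℕ) (r : Fin x.1), Prs S Cφ c x → f r ∈ F →
      (∀ v, v ≠ r → f v ∉ A) →
      ∃ g', St S δ C χ c N j (T ⊔ x.2.map f) (A ∪ Set.range f) (F ∪ Set.range f) g'

/-- Row BTF (compare Q22/Dtf.lean): simple facts on B-trees. -/
def BtfStatement : Prop :=
  ∀ (h k : ℕ) (fam : Set SG) (D : SimpleGraph (Fin k)) (T : SimpleGraph ℕ) (A F : Set ℕ),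
    (∀ x ∈ fam, Bip x.2) → Bip D → BTree h fam D T A F →
    A.Finite ∧ (∀ u v, T.Adj u v → u ∈ A ∧ v ∈ A) ∧ F ⊆ A ∧ Bip T

/-- Row EMG (from MON, FNB, PEN, CPY, GLU, BTF; compare Q22/Emb.lean): induction on the B-tree. -/
def EmgStatement : Prop :=
  ∀ (h k : ℕ) (fam : Set SG) (D : SimpleGraph (Fin k)) (T : SimpleGraph ℕ) (A F : Set ℕ),
    (∀ x ∈ fam, Bip x.2) → Bip D → BTree h fam D T A F →
    ∃ (Tn : Set SG) (B : ℕ), Tn.Finite ∧ (∀ x ∈ Tn, Tiny h x) ∧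
      ∀ (Tn' : Set SG) (N t : ℕ), Tn ⊆ Tn' → B ≤ N → ∀ (L Q I M : Type)
      (S : SimpleGraph (L ⊕ Q)) (δ : M → L → I) (C : I ⊕ (M × Q) → I ⊕ (M × Q) → Bool)
      (χ : M → Prop) (Cφ : L ⊕ Q → L ⊕ Q → Bool) (c : Bool), Host D N t S δ C χ Cφ c →
      (∀ x, (x ∈ Tn' ∨ (x ∈ fam ∧ ¬ Sub D x.2)) → Prs S Cφ c x) →
      ∀ x j, XS δ χ N (j + B) x → ∃ g, St S δ C χ c N j T A F g

end MP3240G
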