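import Mathlib
import Pool.Agent.Lib.MP_3240be_co.H62.Defs

/-!
# MP_3240be_co, Theorem T2: row BPC, the final gadget
-/

set_option autoImplicit false

namespace MP3240G

open Finset
open MP3240Q (Mono Cop Bip SG Sub Nb)

theorem prs_mono {L Q : Type} (S : SimpleGraph (L ⊕ Q)) (C : L ⊕ Q → L ⊕ Q → Bool) (c : Bool)
    (x y : SG) (h : Sub x.2 y.2) (hy : Prs S C c y) : Prs S C c x := by
  obtain ⟨g, hg, hga⟩ := h
  obtain ⟨f, hf, hfa⟩ := hy
  refine ⟨fun v => f (g v), fun u v e => ?_, fun i j hij => hfa _ _ (hga _ _ hij)⟩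
  have e' : (Sum.inl (f (g u)) : L ⊕ Q) = Sum.inl (f (g v)) := e
  exact hg (hf e')

/-- Embedding of a gadget with passengers. -/
theorem prs_map {L L' Q : Type} (S : SimpleGraph (L ⊕ Q)) (S' : SimpleGraph (L' ⊕ Q)) (i : L → L')
    (hi : Function.Injective i)
    (hS : ∀ u v, S.Adj u v → S'.Adj (Sum.map i id u) (Sum.map i id v))
    (C : L' ⊕ Q → L' ⊕ Q → Bool) (c : Bool) (x : SG)
    (h : Prs S (fun u v => C (Sum.map i id u) (Sum.map i id v)) c x) : Prs S' C c x := by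
  obtain ⟨f, hf, hfa⟩ := h
  refine ⟨fun v => i (f v), ?_, ?_⟩
  · intro u v e
    apply hf
    have e' : i (f u) = i (f v) := Sum.inl_injective e
    exact congrArg Sum.inl (hi e')
  · intro u v huv
    obtain ⟨h1, h2⟩ := hfa u v huv
    exact ⟨hS _ _ h1, h2⟩

theorem map_inj {L L' Q : Type} (i : L → L') (hi : Function.Injective i) :
    Function.Injective (Sum.map i (id : Q → Q)) :=
  Sum.map_injective.2 ⟨hi, Function.injective_id⟩

theorem cop_map {k : ℕ} {L L' Q : Type} (D : SimpleGraph (Fin k)) (S : SimpleGraph (L ⊕ Q))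
    (S' : SimpleGraph (L' ⊕ Q)) (i : L → L') (hi : Function.Injective i)
    (hS : ∀ u v, S.Adj u v → S'.Adj (Sum.map i id u) (Sum.map i id v))
    (C : L' ⊕ Q → L' ⊕ Q → Bool) (c : Bool) (N : ℕ) (a b : Fin k)
    (h : Cop D S (fun u v => C (Sum.map i id u) (Sum.map i id v)) c N a b) :
    Cop D S' C c N a b := by
  obtain ⟨f, ⟨hf, hfa⟩, h1, h2⟩ := h
  refine ⟨fun v => Sum.map i id (f v), ⟨?_, ?_⟩, ?_, ?_⟩
  · intro u v e
    exact hf (map_inj i hi e)
  · intro u v huv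
    obtain ⟨h3, h4⟩ := hfa u v huv
    exact ⟨hS _ _ h3, h4⟩
  · intro v hva hvb
    obtain ⟨l, hl⟩ := h1 v hva hvb
    refine ⟨i l, ?_⟩
    show Sum.map i id (f v) = Sum.inl (i l)
    rw [hl]
    rfl
  · intro v q hq
    cases hfv : f v with
    | inl l =>
      have hq' : Sum.map i id (f v) = Sum.inr q := hq
      rw [hfv] at hq'
      cases hq'
    | inr q' =>
      have hq' : Sum.map i id (f v) = Sum.inr q := hq
      rw [hfv] at hq'
      have e : q' = q := Sum.inr_injective hq'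
      subst e
      obtain ⟨g, hg, hga⟩ := h2 v q' hfv
      refine ⟨fun j => i (g j), fun u v e => hg (hi e), ?_⟩
      intro j
      obtain ⟨h5, h6⟩ := hga j
      exact ⟨hS _ _ h5, h6⟩

theorem bpc_proof (hPps : PpsStatement) (hKgd : KgdStatement) (hGmc : GmcStatement)
    (hUnf : UnfStatement) (hCas : CasStatement) : BpcStatement := by
  classical
  intro h k n N fam Tn D H hN hFam hBip hTn htiny
  obtain ⟨G, L, hG, hL, S, C₀, hPB, harr⟩ := hPps h k n N fam D H hN hFam hBip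
  have hbigD : Big h ⟨k, D⟩ := hFam.big _ hFam.mx.1
  -- the gadgets of the pairs
  let J0 : Type := {p : SG × SG // Mx fam p.1 ∧ Mx fam p.2 ∧ ¬ (Sub p.1.2 D ∧ Sub p.2.2 D)}
  have hJ0 : Finite J0 := by
    have h1 : (fam ×ˢ fam).Finite := hFam.fin.prod hFam.fin
    have h2 := h1.to_subtype
    exact Finite.of_injective (β := (fam ×ˢ fam : Set (SG × SG)))
      (fun p : J0 => ⟨p.1, p.2.1.1, p.2.2.1.1⟩) (fun p q e => Subtype.ext (by
        have := congrArg (fun z => z.1) e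
        exact this))
  have hkg : ∀ p : J0, ∃ (X : Type) (_ : Finite X) (Γ : SimpleGraph X),
      (∃ C : X → X → Bool, (∀ x y, C x y = C y x) ∧ ∀ c f, ¬ Mono Γ C D c f) ∧
      ∀ C : X → X → Bool, (∀ x y, C x y = C y x) →
        (∃ f, Mono Γ C p.1.1.2 true f) ∨ ∃ f, Mono Γ C p.1.2.2 false f := by
    rintro ⟨⟨x, y⟩, hx, hy, hxy⟩
    have hx' : Mx fam x := hx
    have hy' : Mx fam y := hy
    -- a member that is not contained in `D`
    have hnot : ∀ B : SG, Mx fam B → ¬ Sub B.2 D → IsNc h B ∧ Bip B.2 ∧ ¬ Sub D B.2 := by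
      intro B hB hBD
      refine ⟨hFam.nc B hB hBD, ?_, fun hs => hBD (hFam.mx.2 B hB.1 hs)⟩
      obtain ⟨_, κ, hκ⟩ := hFam.big B hB.1
      exact ⟨κ, hκ.prop⟩
    have hU : ∀ c, (fun c : Bool => if c = true then x else y) c ∈ fam := by
      intro c
      cases c
      · exact hy'.1
      · exact hx'.1
    by_cases hxD : Sub x.2 D
    · have hyD : ¬ Sub y.2 D := fun hs => hxy ⟨hxD, hs⟩
      obtain ⟨h1, h2, h3⟩ := hnot y hy' hyD
      obtain ⟨X, hX, Γ, h4, h5⟩ := hKgd h k fam D (fun c => if c = true then x else y) y hFam.one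
        hFam.big hFam.mx.1 hFam.nob hU ⟨false, h1⟩ h2 h3
      refine ⟨X, hX, Γ, h4, fun C hC => ?_⟩
      rcases h5 C hC with ⟨c, f, hf⟩ | h6
      · cases c
        · exact Or.inr ⟨f, hf⟩
        · exact Or.inl ⟨f, hf⟩
      · exact Or.inr (h6 false)
    · obtain ⟨h1, h2, h3⟩ := hnot x hx' hxD
      obtain ⟨X, hX, Γ, h4, h5⟩ := hKgd h k fam D (fun c => if c = true then x else y) x hFam.one
        hFam.big hFam.mx.1 hFam.nob hU ⟨true, h1⟩ h2 h3
      refine ⟨X, hX, Γ, h4, fun C hC => ?_⟩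
      rcases h5 C hC with ⟨c, f, hf⟩ | h6
      · cases c
        · exact Or.inr ⟨f, hf⟩
        · exact Or.inl ⟨f, hf⟩
      · exact Or.inl (h6 true)
  choose X hX Γ hgood hpair using hkg
  obtain ⟨X', hX', Γ', ⟨Cg, hCg, hCgn⟩, htn⟩ := hGmc h Tn fam hFam.one hTn hFam.fin htiny
    (fun x hx => (hFam.big x hx).2)
  -- all gadgets
  let XX : J0 ⊕ Unit → Type := fun j => Sum.elim X (fun _ => X') j
  have hXX : ∀ j, Finite (XX j) := by
    rintro (j | j)
    · exact hX j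
    · exact hX'
  let ΓΓ : ∀ j, SimpleGraph (XX j) := fun j => match j with
    | .inl p => Γ p
    | .inr _ => Γ'
  obtain ⟨L', hL', S', C₀', i, i', hPB', htwo, hi, hi', hS, hΓ⟩ := hUnf k n D H hbigD.1 G L S C₀
    hPB (J0 ⊕ Unit) XX ΓΓ (by
      rintro (p | u)
      · exact hgood p
      · exact ⟨Cg, hCg, fun c f => hCgn k D hbigD.1.conn hbigD.2 c f⟩)
  refine ⟨G, L', hG, hL', S', C₀', hPB', htwo, ?_⟩
  intro C hC
  have hprs : ∀ (j : J0 ⊕ Unit) (c : Bool) (x : SG) (f : Fin x.1 → XX j),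
      Mono (ΓΓ j) (fun u v => C (Sum.inl (i' j u)) (Sum.inl (i' j v))) x.2 c f →
      Prs S' C c x := by
    intro j c x f hf
    refine ⟨fun v => i' j (f v), ?_, ?_⟩
    · intro u v e
      exact hf.1 (hi' j (Sum.inl_injective e))
    · intro u v huv
      obtain ⟨h1, h2⟩ := hf.2 u v huv
      exact ⟨hΓ j _ _ h1, h2⟩
  have hmain := harr (fun u v => C (Sum.map i id u) (Sum.map i id v)) (fun u v => hC _ _)
  rcases hmain with hH | hmain
  · left
    obtain ⟨g, c, hg⟩ := hH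
    exact ⟨g, c, hg⟩
  · right
    refine hCas fam Tn ⟨k, D⟩ (fun c x => Prs S' C c x)
      (fun c => ∀ a b, D.Adj a b → Cop D S' C c N a b) hFam.fin hFam.mx
      (fun c x y hs hy => prs_mono S' C c x y hs hy) ?_ ?_ ?_ ?_
    · intro x y hx hy hxy
      rcases hpair ⟨(x, y), hx, hy, hxy⟩
          (fun u v => C (Sum.inl (i' (.inl ⟨(x, y), hx, hy, hxy⟩) u))
            (Sum.inl (i' (.inl ⟨(x, y), hx, hy, hxy⟩) v))) (fun u v => hC _ _) with
        ⟨f, hf⟩ | ⟨f, hf⟩
      · exact Or.inl (hprs (.inl ⟨(x, y), hx, hy, hxy⟩) true x f hf)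
      · exact Or.inr (hprs (.inl ⟨(x, y), hx, hy, hxy⟩) false y f hf)
    · intro c
      rcases htn (fun u v => C (Sum.inl (i' (.inr ()) u)) (Sum.inl (i' (.inr ()) v)))
          (fun u v => hC _ _) c with h1 | h1
      · left
        intro x hx
        obtain ⟨f, hf⟩ := h1 x hx
        exact hprs (.inr ()) c x f hf
      · right
        intro x hx
        obtain ⟨f, hf⟩ := h1 x hx
        exact hprs (.inr ()) (!c) x f hf
    · rintro c ⟨f, hf⟩ a b hab
      refine ⟨fun v => Sum.inl (f v), hf, fun v _ _ => ⟨f v, rfl⟩, ?_⟩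
      intro v q hq
      cases hq
    · rcases hmain with ⟨c, h1⟩ | ⟨c, h1, h2⟩
      · exact Or.inl ⟨c, prs_map S S' i hi hS C c _ h1⟩
      · refine Or.inr ⟨c, fun a b hab => cop_map D S S' i hi hS C c N a b (h1 a b hab), ?_⟩
        intro x hx hx1 hx2
        exact prs_map S S' i hi hS C c x (h2 x hx hx1 hx2)

end MP3240G
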