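import Pool.Agent.Lib.MP_3240be_co.H62.Defs
import Pool.Agent.Lib.MP_3240be_co.Q22.Dtf

/-!
# MP_3240be_co, Theorem T2, row BTF: simple facts on B-trees
-/

set_option autoImplicit false

namespace MP3240G

open MP3240Q (Bip SG Sub)

theorem btf_proof : BtfStatement := by
  intro h k fam D T A F hfam hD hT
  induction hT with
  | start y =>
    refine ⟨Set.finite_singleton y, ?_, subset_rfl, ?_⟩
    · intro u v huv
      exact absurd huv (by simp)
    · exact ⟨fun _ => true, fun x y hxy => absurd hxy (by simp)⟩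
  | pendant T A F y z ht hy hz ih =>
    obtain ⟨h1, h2, h3, h4⟩ := ih
    refine ⟨h1.insert z, ?_, Set.insert_subset_insert h3, ?_⟩
    · intro u v huv
      rw [SimpleGraph.sup_adj] at huv
      rcases huv with huv | huv
      · exact ⟨Or.inr (h2 u v huv).1, Or.inr (h2 u v huv).2⟩
      · rw [SimpleGraph.edge_adj] at huv
        rcases huv.1 with ⟨rfl, rfl⟩ | ⟨rfl, rfl⟩
        · exact ⟨Or.inr hy, Or.inl rfl⟩
        · exact ⟨Or.inl rfl, Or.inr hy⟩
    · exact MP3240Q.dtf_bip_pendant T A y z hy hz h2 h4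
  | full T A F x f r ht hx hr hnew ih =>
    obtain ⟨h1, h2, h3, h4⟩ := ih
    refine ⟨h1.union (Set.finite_range f), MP3240Q.dtf_map_mem _ T A f h2,
      Set.union_subset_union_left _ h3, ?_⟩
    have hB : Bip x.2 := by
      rcases hx with ⟨κ, hκ, -⟩ | ⟨hx, -⟩
      · exact ⟨κ, hκ⟩
      · exact hfam x hx
    exact MP3240Q.dtf_bip_copy x.2 T A f r (h3 hr) hnew h2 hB h4
  | copy T A F f r a b ht hr hnew hab hra hrb ih =>
    obtain ⟨h1, h2, h3, h4⟩ := ih
    refine ⟨h1.union (Set.finite_range f), MP3240Q.dtf_map_mem D T A f h2,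
      Set.union_subset_union h3 (Set.image_subset_range _ _), ?_⟩
    exact MP3240Q.dtf_bip_copy D T A f r (h3 hr) hnew h2 hD h4

end MP3240G
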