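import Pool.Agent.Lib.MP_3240be_co.H62.Defs

set_option autoImplicit false

/-!
# Theorem T2, row EMG: the induction on the B-tree
-/

namespace MP3240G

open MP3240Q (Mono Cop Bip SG Sub em Gl Lin XS St Host)

theorem emg_xs_mono (hmon : MP3240Q.MonStatement) {L I M : Type} {δ : M → L → I} {χ : M → Prop}
    {R : ℕ} {x : I} {i j : ℕ} (hij : i ≤ j) (h : XS δ χ R j x) : XS δ χ R i x := by
  induction j, hij using Nat.le_induction with
  | base => exact h
  | succ j _ ih => exact ih (hmon L I M δ χ R j x h)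

/-- Row EMG. -/
theorem emg_proof (hmon : MP3240Q.MonStatement) (hfnb : MP3240Q.FnbStatement)
    (hpen : MP3240Q.PenStatement) (hcpy : MP3240Q.CpyStatement) (hglu : GluStatement)
    (hbtf : BtfStatement) : EmgStatement := by
  intro h k fam D T A F hfam hD ht
  induction ht with
  | start y =>
    refine ⟨∅, 1, Set.finite_empty, fun x hx => absurd hx (Set.notMem_empty x), ?_⟩
    intro Tn' N t _ _ L Q I M S δ C χ Cφ c hH _ x j hx
    obtain ⟨h', h1, h2⟩ := hfnb k N t L Q I M D S δ C χ Cφ c hH j x hx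
    refine ⟨fun _ => Sum.inl x, ?_, ?_, ?_, ?_⟩
    · intro u hu v hv _
      rw [Set.mem_singleton_iff.1 hu, Set.mem_singleton_iff.1 hv]
    · intro u v huv
      exact absurd huv (by simp)
    · intro u _
      exact ⟨x, rfl, hx⟩
    · intro u _
      exact ⟨h', h1, h2⟩
  | pendant T A F y z ht hy hz ih =>
    obtain ⟨Tn, B, hfin, htiny, hB⟩ := ih
    obtain ⟨hA, hT, hFA, -⟩ := hbtf h k fam D T A F hfam hD ht
    refine ⟨Tn, B + A.ncard + 1, hfin, htiny, ?_⟩
    intro Tn' N t hTn hN L Q I M S δ C χ Cφ c hH hPrs x j hx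
    obtain ⟨g, hg⟩ := hB Tn' N t hTn (by omega) L Q I M S δ C χ Cφ c hH hPrs x (j + 1)
      (emg_xs_mono hmon (by omega) hx)
    exact hpen k N t L Q I M D S δ C χ Cφ c hH j T A F g hA (by omega) hT hFA hg y z hy hz
  | full T A F x f r ht hx hr hnew ih =>
    obtain ⟨Tn, B, hfin, htiny, hB⟩ := ih
    obtain ⟨hA, hT, hFA, -⟩ := hbtf h k fam D T A F hfam hD ht
    rcases hx with hx | hx
    · refine ⟨insert x Tn, B + A.ncard + 1, hfin.insert x, ?_, ?_⟩
      · intro x' hx'
        rcases Set.mem_insert_iff.1 hx' with rfl | hx'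
        · exact hx
        · exact htiny x' hx'
      intro Tn' N t hTn hN L Q I M S δ C χ Cφ c hH hPrs p j hp
      obtain ⟨g, hg⟩ := hB Tn' N t (fun y hy => hTn (Set.mem_insert_of_mem _ hy)) (by omega)
        L Q I M S δ C χ Cφ c hH hPrs p (j + 1) (emg_xs_mono hmon (by omega) hp)
      exact hglu k N t L Q I M D S δ C χ Cφ c hH j T A F g hA (by omega) hT hFA hg x f r
        (hPrs x (Or.inl (hTn (Set.mem_insert _ _)))) hr hnew
    · refine ⟨Tn, B + A.ncard + 1, hfin, htiny, ?_⟩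
      intro Tn' N t hTn hN L Q I M S δ C χ Cφ c hH hPrs p j hp
      obtain ⟨g, hg⟩ := hB Tn' N t hTn (by omega) L Q I M S δ C χ Cφ c hH hPrs p (j + 1)
        (emg_xs_mono hmon (by omega) hp)
      exact hglu k N t L Q I M D S δ C χ Cφ c hH j T A F g hA (by omega) hT hFA hg x f r
        (hPrs x (Or.inr hx)) hr hnew
  | copy T A F f r a b ht hr hnew hab hra hrb ih =>
    obtain ⟨Tn, B, hfin, htiny, hB⟩ := ih
    obtain ⟨hA, hT, hFA, -⟩ := hbtf h k fam D T A F hfam hD ht
    refine ⟨Tn, B + A.ncard + 1, hfin, htiny, ?_⟩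
    intro Tn' N t hTn hN L Q I M S δ C χ Cφ c hH hPrs x j hx
    obtain ⟨g, hg⟩ := hB Tn' N t hTn (by omega) L Q I M S δ C χ Cφ c hH hPrs x (j + 1)
      (emg_xs_mono hmon (by omega) hx)
    exact hcpy k N t L Q I M D S δ C χ Cφ c hH j T A F g hA (by omega) hT hFA hg f r a b hr
      hnew hab hra hrb

end MP3240G
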