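import Pool.Agent.Lib.MP_3240be_co.H62.Defs

/-!
# MP_3240be_co, board BTT, row EXL: extension lemma with a condition on the new vertices
-/

set_option autoImplicit false

namespace MP3240G

open Finset

/-- one step by step extension: after a finite set `U` of vertices outside `W` is placed. -/
theorem exl_aux {V : Type} (G : SimpleGraph V) (P : V → Prop) {n : ℕ} (T : SimpleGraph (Fin n))
    (W : Finset (Fin n)) (φ : Fin n → V) (hinj : Set.InjOn φ (W : Set (Fin n)))
    (hmany : ∀ u, u ∉ W → ∀ S : Finset V, S.card < n →
      ∃ z, z ∉ S ∧ P z ∧ ∀ i ∈ W, T.Adj u i → G.Adj (φ i) z)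
    (U : Finset (Fin n)) : (∀ u ∈ U, u ∉ W) →
    ∃ f : Fin n → V, (∀ i ∈ W, f i = φ i) ∧ Set.InjOn f ((W ∪ U : Finset (Fin n)) : Set (Fin n)) ∧
      (∀ u ∈ U, P (f u)) ∧ (∀ u ∈ U, ∀ i ∈ W, T.Adj u i → G.Adj (φ i) (f u)) := by
  classical
  induction U using Finset.induction_on with
  | empty =>
    intro _
    refine ⟨φ, fun i _ => rfl, ?_, fun u hu => absurd hu (Finset.notMem_empty u),
      fun u hu => absurd hu (Finset.notMem_empty u)⟩
    rw [Finset.union_empty]
    exact hinj
  | insert v U hv ih =>
    intro hU
    obtain ⟨f, hf1, hf2, hf4, hf3⟩ := ih (fun u hu => hU u (Finset.mem_insert_of_mem hu))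
    have hvW : v ∉ W := hU v (Finset.mem_insert_self v U)
    have hvWU : v ∉ W ∪ U := by
      intro h
      rcases Finset.mem_union.mp h with h | h
      · exact hvW h
      · exact hv h
    have hcard : ((W ∪ U).image f).card < n := by
      refine lt_of_le_of_lt Finset.card_image_le ?_
      have h1 : (insert v (W ∪ U)).card ≤ (Finset.univ : Finset (Fin n)).card :=
        Finset.card_le_card (Finset.subset_univ _)
      rw [Finset.card_insert_of_notMem hvWU, Finset.card_univ, Fintype.card_fin] at h1
      omega
    obtain ⟨z, hzn, hzP, hz⟩ := hmany v hvW ((W ∪ U).image f) hcard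
    have hne : ∀ i ∈ W ∪ U, i ≠ v := by
      intro i hi hiv
      subst hiv
      exact hvWU hi
    have hfz : ∀ i ∈ W ∪ U, f i ≠ z := by
      intro i hi hiz
      exact hzn (Finset.mem_image.mpr ⟨i, hi, hiz⟩)
    refine ⟨Function.update f v z, ?_, ?_, ?_, ?_⟩
    · intro i hi
      rw [Function.update_of_ne (hne i (Finset.mem_union_left _ hi))]
      exact hf1 i hi
    · intro i hi j hj hij
      have hi' : i = v ∨ i ∈ W ∪ U := by
        rcases Finset.mem_union.mp (Finset.mem_coe.mp hi) with h | h
        · exact Or.inr (Finset.mem_union_left _ h)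
        · rcases Finset.mem_insert.mp h with h | h
          · exact Or.inl h
          · exact Or.inr (Finset.mem_union_right _ h)
      have hj' : j = v ∨ j ∈ W ∪ U := by
        rcases Finset.mem_union.mp (Finset.mem_coe.mp hj) with h | h
        · exact Or.inr (Finset.mem_union_left _ h)
        · rcases Finset.mem_insert.mp h with h | h
          · exact Or.inl h
          · exact Or.inr (Finset.mem_union_right _ h)
      rcases hi' with hi' | hi' <;> rcases hj' with hj' | hj'
      · rw [hi', hj']
      · rw [hi', Function.update_self, Function.update_of_ne (hne j hj')] at hij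
        exact absurd hij.symm (hfz j hj')
      · rw [hj', Function.update_self, Function.update_of_ne (hne i hi')] at hij
        exact absurd hij (hfz i hi')
      · rw [Function.update_of_ne (hne i hi'), Function.update_of_ne (hne j hj')] at hij
        exact hf2 (Finset.mem_coe.mpr hi') (Finset.mem_coe.mpr hj') hij
    · intro u hu
      rcases Finset.mem_insert.mp hu with h | h
      · subst h
        rw [Function.update_self]
        exact hzP
      · rw [Function.update_of_ne (hne u (Finset.mem_union_right _ h))]
        exact hf4 u h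
    · intro u hu i hi hadj
      rcases Finset.mem_insert.mp hu with h | h
      · subst h
        rw [Function.update_self]
        exact hz i hi hadj
      · rw [Function.update_of_ne (hne u (Finset.mem_union_right _ h))]
        exact hf3 u h i hi hadj

/-- Row EXL. -/
theorem exl_proof : ExlStatement := by
  classical
  intro V G P n T W φ hinj hW hout hmany
  obtain ⟨f, hf1, hf2, hf4, hf3⟩ := exl_aux G P T W φ hinj hmany (Finset.univ \ W)
    (fun u hu => (Finset.mem_sdiff.mp hu).2)
  have hcov : ∀ i : Fin n, i ∈ W ∪ (Finset.univ \ W) := by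
    intro i
    by_cases h : i ∈ W
    · exact Finset.mem_union_left _ h
    · exact Finset.mem_union_right _ (Finset.mem_sdiff.mpr ⟨Finset.mem_univ i, h⟩)
  refine ⟨f, ?_, hf1, ?_, ?_⟩
  · intro i j hij
    exact hf2 (Finset.mem_coe.mpr (hcov i)) (Finset.mem_coe.mpr (hcov j)) hij
  · intro i hi
    exact hf4 i (Finset.mem_sdiff.mpr ⟨Finset.mem_univ i, hi⟩)
  · intro i j hadj
    by_cases hi : i ∈ W
    · by_cases hj : j ∈ W
      · rw [hf1 i hi, hf1 j hj]
        exact hW i hi j hj hadj
      · rw [hf1 i hi]
        exact hf3 j (Finset.mem_sdiff.mpr ⟨Finset.mem_univ j, hj⟩) i hi hadj.symm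
    · by_cases hj : j ∈ W
      · rw [hf1 j hj]
        exact (hf3 i (Finset.mem_sdiff.mpr ⟨Finset.mem_univ i, hi⟩) j hj hadj).symm
      · exact absurd hadj (hout i hi j hj)

end MP3240G
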