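import Pool.Agent.Lib.MP_3240be_co.H62.Defs

/-!
# Row GAB (helper37): the blob graph without the edges of the base contains no `D`

`D` is connected, so it lies in the separate graph, or all its edges are blob edges.  In the
second case we build a blob structure with labels `(l, x, y, ν)`.
-/

set_option autoImplicit false

namespace MP3240G

open Finset
open MP3240Q (Bip SG Sub)

namespace Gab

/-- A property that spreads along edges. -/
theorem spread {V : Type} {G : SimpleGraph V} (hc : G.Connected) (P : V → Prop)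
    (hP : ∀ u v, G.Adj u v → P u → P v) (u v : V) (hu : P u) : P v := by
  obtain ⟨w⟩ := hc.preconnected u v
  induction w with
  | nil => exact hu
  | cons h _ ih => exact ih (hP _ _ h hu)

/-- The labels of the blobs. -/
abbrev Lb (Λ : Type) (n N : ℕ) : Type := Λ × Fin n × Fin n × Fin N

section

variable {Λ : Type} {n N n' : ℕ} (U : Λ → SG) (a b : ∀ l, Fin (U l).1)

/-- The vertex of a blob. -/
def inn (l : Lb Λ n N) (v : Fin (U l.1).1) : RB U n N n' ⊕ Fin n :=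
  Sum.inl (Sum.inl ⟨l.1, l.2.1, l.2.2.1, l.2.2.2, v⟩)

/-- `p` is in the position `w` of the blob `l`. -/
def Pos (l : Lb Λ n N) (p : RB U n N n' ⊕ Fin n) (w : Fin (U l.1).1) : Prop :=
  (p = inn U l w ∧ w ≠ a l.1 ∧ w ≠ b l.1) ∨ (p = Sum.inr l.2.1 ∧ w = a l.1) ∨
    (p = Sum.inr l.2.2.1 ∧ w = b l.1)

/-- `p q` is an edge of the blob `l`. -/
def Eg (B : SimpleGraph (Fin n)) (l : Lb Λ n N) (p q : RB U n N n' ⊕ Fin n) : Prop :=
  ∃ w w' : Fin (U l.1).1, B.Adj l.2.1 l.2.2.1 ∧ Pos U a b l p w ∧ Pos U a b l q w' ∧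
    (U l.1).2.Adj w w' ∧ ((∃ v, p = inn U l v) ∨ ∃ v, q = inn U l v)

theorem inn_lab {l l' : Lb Λ n N} {v : Fin (U l.1).1} {v' : Fin (U l'.1).1}
    (h : inn (n' := n') U l v = inn U l' v') : l = l' := by
  obtain ⟨l1, x, y, ν⟩ := l
  obtain ⟨l1', x', y', ν'⟩ := l'
  simp only [inn, Sum.inl.injEq, Sigma.mk.injEq] at h
  obtain ⟨h1, h2⟩ := h
  subst h1
  simp only [heq_eq_eq, Prod.mk.injEq] at h2
  obtain ⟨rfl, rfl, rfl, -⟩ := h2
  rfl

theorem inn_inj {l : Lb Λ n N} {v v' : Fin (U l.1).1}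
    (h : inn (n' := n') U l v = inn U l v') : v = v' := by
  simp only [inn, Sum.inl.injEq, Sigma.mk.injEq, heq_eq_eq, Prod.mk.injEq, true_and] at h
  exact h

theorem inn_ne {l : Lb Λ n N} {v : Fin (U l.1).1} {ζ : Fin n} :
    inn (n' := n') U l v ≠ Sum.inr ζ := Sum.inl_ne_inr

variable {U a b}

theorem pos_lab {l l' : Lb Λ n N} {p : RB U n N n' ⊕ Fin n} {w : Fin (U l.1).1}
    {v : Fin (U l'.1).1} (h : Pos U a b l p w) (hp : p = inn U l' v) : l = l' := by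
  rcases h with ⟨h, -⟩ | ⟨h, -⟩ | ⟨h, -⟩
  · exact inn_lab U (h.symm.trans hp)
  · exact absurd (hp.symm.trans h) (inn_ne U)
  · exact absurd (hp.symm.trans h) (inn_ne U)

theorem pos_unique {l : Lb Λ n N} (hl : l.2.1 ≠ l.2.2.1) {p : RB U n N n' ⊕ Fin n}
    {w w' : Fin (U l.1).1} (h : Pos U a b l p w) (h' : Pos U a b l p w') : w = w' := by
  rcases h with ⟨h, -⟩ | ⟨h, h1⟩ | ⟨h, h1⟩ <;> rcases h' with ⟨h', -⟩ | ⟨h', h2⟩ | ⟨h', h2⟩
  · exact inn_inj U (h.symm.trans h')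
  · exact absurd (h.symm.trans h') (inn_ne U)
  · exact absurd (h.symm.trans h') (inn_ne U)
  · exact absurd (h'.symm.trans h) (inn_ne U)
  · exact h1.trans h2.symm
  · exact absurd (Sum.inr_injective (h.symm.trans h')) hl
  · exact absurd (h'.symm.trans h) (inn_ne U)
  · exact absurd (Sum.inr_injective (h'.symm.trans h)) hl
  · exact h1.trans h2.symm

theorem pos_inj {l : Lb Λ n N} (hab : a l.1 ≠ b l.1) {p p' : RB U n N n' ⊕ Fin n}
    {w : Fin (U l.1).1} (h : Pos U a b l p w) (h' : Pos U a b l p' w) : p = p' := by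
  rcases h with ⟨h, h1, h2⟩ | ⟨h, h1⟩ | ⟨h, h1⟩ <;>
    rcases h' with ⟨h', h3, h4⟩ | ⟨h', h3⟩ | ⟨h', h3⟩
  · exact h.trans h'.symm
  · exact absurd h3 h1
  · exact absurd h3 h2
  · exact absurd h1 h3
  · exact h.trans h'.symm
  · exact absurd (h1.symm.trans h3) hab
  · exact absurd h1 h4
  · exact absurd (h3.symm.trans h1) hab
  · exact h.trans h'.symm

theorem eg_symm {B : SimpleGraph (Fin n)} {l : Lb Λ n N} {p q : RB U n N n' ⊕ Fin n}
    (h : Eg U a b B l p q) : Eg U a b B l q p := by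
  obtain ⟨w, w', h1, h2, h3, h4, h5⟩ := h
  exact ⟨w', w, h1, h3, h2, h4.symm, h5.symm⟩

theorem eg_unique {B : SimpleGraph (Fin n)} {l l' : Lb Λ n N} {p q : RB U n N n' ⊕ Fin n}
    (h : Eg U a b B l p q) (h' : Eg U a b B l' p q) : l = l' := by
  obtain ⟨w, w', -, h2, h3, -, -⟩ := h
  obtain ⟨v, v', -, -, -, -, h5⟩ := h'
  rcases h5 with ⟨u, h5⟩ | ⟨u, h5⟩
  · exact pos_lab h2 h5
  · exact pos_lab h3 h5

/-- The edges of the blob graph in one direction. -/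
theorem edge1 {B : SimpleGraph (Fin n)} {B' : SimpleGraph (Fin n')}
    {p q : RB U n N n' ⊕ Fin n} (h : relB U a b B B' p q)
    (hb : ¬ ((∃ ζ, p = Sum.inr ζ) ∧ ∃ ζ, q = Sum.inr ζ)) :
    (∃ u u', B'.Adj u u' ∧ p = Sum.inl (Sum.inr u) ∧ q = Sum.inl (Sum.inr u')) ∨
      ∃ l : Lb Λ n N, Eg U a b B l p q := by
  rcases h with ⟨x, y, -, hp, hq⟩ | h | ⟨l, x, y, ν, v, v', h1, h2, h3, h4, h5, h6, hp, hq⟩ |
    ⟨l, x, y, ν, v, h1, h2, h3, h4, hp, hq⟩ | ⟨l, x, y, ν, v, h1, h2, h3, h4, hp, hq⟩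
  · exact absurd ⟨⟨x, hp⟩, y, hq⟩ hb
  · exact Or.inl h
  · exact Or.inr ⟨(l, x, y, ν), v, v', h1, Or.inl ⟨hp, h2, h3⟩, Or.inl ⟨hq, h4, h5⟩, h6,
      Or.inl ⟨v, hp⟩⟩
  · exact Or.inr ⟨(l, x, y, ν), a l, v, h1, Or.inr (Or.inl ⟨hp, rfl⟩), Or.inl ⟨hq, h2, h3⟩, h4,
      Or.inr ⟨v, hq⟩⟩
  · exact Or.inr ⟨(l, x, y, ν), b l, v, h1, Or.inr (Or.inr ⟨hp, rfl⟩), Or.inl ⟨hq, h2, h3⟩, h4,
      Or.inr ⟨v, hq⟩⟩

theorem edge {B : SimpleGraph (Fin n)} {B' : SimpleGraph (Fin n')}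
    {p q : RB U n N n' ⊕ Fin n} (h : (GB U a b B B').Adj p q)
    (hb : ¬ ((∃ ζ, p = Sum.inr ζ) ∧ ∃ ζ, q = Sum.inr ζ)) :
    (∃ u u', B'.Adj u u' ∧ p = Sum.inl (Sum.inr u) ∧ q = Sum.inl (Sum.inr u')) ∨
      ∃ l : Lb Λ n N, Eg U a b B l p q := by
  rcases ((SimpleGraph.fromRel_adj _ _ _).1 h).2 with h1 | h1
  · exact edge1 h1 hb
  · rcases edge1 h1 (fun hc => hb ⟨hc.2, hc.1⟩) with ⟨u, u', h2, h3, h4⟩ | ⟨l, hl⟩
    · exact Or.inl ⟨u', u, h2.symm, h4, h3⟩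
    · exact Or.inr ⟨l, eg_symm hl⟩

/-- An end of a blob edge is not in the separate graph. -/
theorem eg_ne {B : SimpleGraph (Fin n)} {l : Lb Λ n N} {p q : RB U n N n' ⊕ Fin n}
    (h : Eg U a b B l p q) (u : Fin n') : p ≠ Sum.inl (Sum.inr u) := by
  rintro rfl
  obtain ⟨w, w', -, h2, -⟩ := h
  rcases h2 with ⟨h2, -⟩ | ⟨h2, -⟩ | ⟨h2, -⟩
  · exact absurd (Sum.inl_injective h2) Sum.inr_ne_inl
  · exact absurd h2 Sum.inl_ne_inr
  · exact absurd h2 Sum.inl_ne_inr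

variable (a) in
/-- The 2-colouring of the blob graph. -/
def colr (κB : Fin n → Bool) (κ : ∀ l, Fin (U l).1 → Bool) : RB U n N n' ⊕ Fin n → Bool
  | Sum.inr x => κB x
  | Sum.inl (Sum.inr _) => true
  | Sum.inl (Sum.inl ⟨l, x, _, _, v⟩) => xor (κ l v) (xor (κ l (a l)) (κB x))

theorem colr_pos {κB : Fin n → Bool} {κ : ∀ l, Fin (U l).1 → Bool}
    (hκ : ∀ l, κ l (a l) ≠ κ l (b l)) {l : Lb Λ n N} (hl : κB l.2.1 ≠ κB l.2.2.1)
    {p : RB U n N n' ⊕ Fin n} {w : Fin (U l.1).1} (h : Pos U a b l p w) :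
    colr a κB κ p = xor (κ l.1 w) (xor (κ l.1 (a l.1)) (κB l.2.1)) := by
  rcases h with ⟨h, -⟩ | ⟨h, h1⟩ | ⟨h, h1⟩
  · rw [h]
    rfl
  · rw [h, h1]
    show κB l.2.1 = _
    cases κ l.1 (a l.1) <;> cases κB l.2.1 <;> rfl
  · rw [h, h1]
    show κB l.2.2.1 = _
    have h2 := hκ l.1
    revert h2 hl
    cases κ l.1 (a l.1) <;> cases κ l.1 (b l.1) <;> cases κB l.2.1 <;> cases κB l.2.2.1 <;>
      simp

theorem colr_eg {B : SimpleGraph (Fin n)} {κB : Fin n → Bool} {κ : ∀ l, Fin (U l).1 → Bool}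
    (hκ : ∀ l, κ l (a l) ≠ κ l (b l)) (hκ' : ∀ l i j, (U l).2.Adj i j → κ l i ≠ κ l j)
    (hκB : ∀ x y, B.Adj x y → κB x ≠ κB y) {l : Lb Λ n N} {p q : RB U n N n' ⊕ Fin n}
    (h : Eg U a b B l p q) : colr a κB κ p ≠ colr a κB κ q := by
  obtain ⟨w, w', h1, h2, h3, h4, -⟩ := h
  have hl := hκB _ _ h1
  rw [colr_pos hκ hl h2, colr_pos hκ hl h3]
  have h5 := hκ' _ _ _ h4
  revert h5
  cases κ l.1 w <;> cases κ l.1 w' <;> cases κ l.1 (a l.1) <;> cases κB l.2.1 <;> simp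

end

end Gab

open Gab

/-- Row GAB. -/
theorem gab_proof : GabStatement := by
  intro Λ n N n' k U a b B B' fam D hD hU hB hB' hbl g hg hE
  classical
  have hab : ∀ l, a l ≠ b l := fun l => (hU l).2.1.ne
  obtain ⟨κB, hκB⟩ := hB
  choose κ hκ' using fun l => (hU l).2.2
  have hκ : ∀ l, κ l (a l) ≠ κ l (b l) := fun l => hκ' l _ _ (hU l).2.1
  have hk : 3 ≤ k := hD.three
  have hedge : ∀ i j, D.Adj i j →
      (∃ u u', B'.Adj u u' ∧ g i = Sum.inl (Sum.inr u) ∧ g j = Sum.inl (Sum.inr u')) ∨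
      ∃ l : Lb Λ n N, Eg U a b B l (g i) (g j) :=
    fun i j hij => edge (hE i j hij).1 (hE i j hij).2
  -- no vertex is in the separate graph
  have hno : ∀ i u, g i ≠ Sum.inl (Sum.inr u) := by
    intro i u hiu
    have hall : ∀ j, ∃ u, g j = Sum.inl (Sum.inr u) := by
      intro j
      refine spread hD.conn (fun j => ∃ u, g j = Sum.inl (Sum.inr u)) ?_ i j ⟨u, hiu⟩
      rintro j j' hjj ⟨u, hu⟩
      rcases hedge j j' hjj with ⟨_, u', _, _, h2⟩ | ⟨l, hl⟩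
      · exact ⟨u', h2⟩
      · exact absurd hu (eg_ne hl u)
    choose t ht using hall
    apply hB'
    refine ⟨t, ?_, ?_⟩
    · intro j j' hjj
      apply hg
      rw [ht j, ht j', hjj]
    · intro j j' hjj
      rcases hedge j j' hjj with ⟨u, u', h1, h2, h3⟩ | ⟨l, hl⟩
      · have h4 : t j = u := Sum.inr_injective (Sum.inl_injective ((ht j).symm.trans h2))
        have h5 : t j' = u' := Sum.inr_injective (Sum.inl_injective ((ht j').symm.trans h3))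
        rw [h4, h5]
        exact h1
      · exact absurd (ht j) (eg_ne hl _)
  have hlab : ∀ i j, D.Adj i j → ∃ l : Lb Λ n N, Eg U a b B l (g i) (g j) := by
    intro i j hij
    rcases hedge i j hij with ⟨u, _, _, h2, _⟩ | h
    · exact absurd h2 (hno i u)
    · exact h
  -- an edge gives a default label
  obtain ⟨l0⟩ : Nonempty (Lb Λ n N) := by
    have hne : (⟨0, by omega⟩ : Fin k) ≠ ⟨1, by omega⟩ := by
      intro h
      have := congrArg Fin.val h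
      simp at this
    have : Nontrivial (Fin k) := ⟨_, _, hne⟩
    obtain ⟨j, hj⟩ := hD.conn.preconnected.exists_adj_of_nontrivial (⟨0, by omega⟩ : Fin k)
    obtain ⟨l, -⟩ := hlab _ _ hj
    exact ⟨l⟩
  have hpt : ∀ i j, ∃ l : Lb Λ n N, D.Adj i j → Eg U a b B l (g i) (g j) := by
    intro i j
    by_cases hij : D.Adj i j
    · obtain ⟨l, hl⟩ := hlab i j hij
      exact ⟨l, fun _ => hl⟩
    · exact ⟨l0, fun h => absurd h hij⟩
  choose pt hpt using hpt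
  have hφ : ∀ (l : Lb Λ n N) (i : Fin k), ∃ w : Fin (U l.1).1, (∃ w', Pos U a b l (g i) w') →
      Pos U a b l (g i) w := by
    intro l i
    by_cases h : ∃ w', Pos U a b l (g i) w'
    · obtain ⟨w, hw⟩ := h
      exact ⟨w, fun _ => hw⟩
    · exact ⟨a l.1, fun h' => absurd h' h⟩
  choose φ hφ using hφ
  -- an end of an edge of the part `l`
  have hBIn : ∀ (l : Lb Λ n N) (i : Fin k), BIn D pt l i →
      Pos U a b l (g i) (φ l i) ∧ B.Adj l.2.1 l.2.2.1 := by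
    rintro l i ⟨j, hij, rfl⟩
    obtain ⟨w, w', h1, h2, -⟩ := hpt i j hij
    exact ⟨hφ _ i ⟨w, h2⟩, h1⟩
  apply hbl
  refine ⟨Lb Λ n N, pt, fun l => U l.1, fun l => a l.1, fun l => b l.1, φ,
    fun i => colr a κB κ (g i), ?_, ?_, ?_, ?_, ?_⟩
  · intro l
    exact ⟨(hU l.1).1, (hU l.1).2.1⟩
  · intro i j hij
    have h1 := hpt i j hij
    have h2 := hpt j i hij.symm
    refine ⟨colr_eg hκ hκ' hκB h1, eg_unique h1 (eg_symm h2), ?_⟩
    obtain ⟨w, w', h3, h4, h5, h6, -⟩ := h1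
    have h7 : φ (pt i j) i = w := pos_unique h3.ne (hφ _ i ⟨w, h4⟩) h4
    have h8 : φ (pt i j) j = w' := pos_unique h3.ne (hφ _ j ⟨w', h5⟩) h5
    rw [h7, h8]
    exact h6
  · intro l i j hi hj hij
    apply hg
    have h1 := (hBIn l i hi).1
    have h2 := (hBIn l j hj).1
    rw [hij] at h1
    exact pos_inj (hab l.1) h1 h2
  · intro l l' i hne hi hi'
    have h1 := (hBIn l i hi).1
    have h2 := (hBIn l' i hi').1
    rcases h1 with ⟨h1, -⟩ | ⟨-, h1⟩ | ⟨-, h1⟩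
    · exact absurd (pos_lab h2 h1).symm hne
    · exact Or.inl h1
    · exact Or.inr h1
  · intro l i j hi hj hia hjb
    obtain ⟨h1, h2⟩ := hBIn l i hi
    obtain ⟨h3, -⟩ := hBIn l j hj
    have h4 : g i = Sum.inr l.2.1 := by
      rcases h1 with ⟨-, h5, -⟩ | ⟨h5, -⟩ | ⟨-, h5⟩
      · exact absurd hia h5
      · exact h5
      · exact absurd (hia.symm.trans h5) (hab l.1)
    have h5 : g j = Sum.inr l.2.2.1 := by
      rcases h3 with ⟨-, -, h6⟩ | ⟨-, h6⟩ | ⟨h6, -⟩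
      · exact absurd hjb h6
      · exact absurd (h6.symm.trans hjb) (hab l.1)
      · exact h6
    refine ⟨fun hij => (hE i j hij).2 ⟨⟨_, h4⟩, _, h5⟩, ?_⟩
    show colr a κB κ (g i) ≠ colr a κB κ (g j)
    rw [h4, h5]
    exact hκB _ _ h2

end MP3240G
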