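import Pool.Agent.Lib.MP_3240be_co.H62.Defs
import Pool.Agent.Lib.MP_3240be_co.H43.G0

/-!
Row GFL of board t2_modules (Theorem G' of helper12, version of helper62).
-/

set_option autoImplicit false

namespace MP3240G

open Finset
open MP3240W (TwoC Shares map_inj_of)

section

variable {X : Type} [DecidableEq X]

/-- one step of the dynamic -/
def opG (P : Finset (Sym2 X)) (φ : X → X) (e0 : Sym2 X) (I : Finset (Sym2 X)) :
    Finset (Sym2 X) :=
  (I.filter (· ∈ P)).image (Sym2.map φ) ∪ (if I ⊆ P then ∅ else {e0})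

theorem mem_opG (P : Finset (Sym2 X)) (φ : X → X) (e0 : Sym2 X) (I : Finset (Sym2 X))
    (x : Sym2 X) : x ∈ opG P φ e0 I ↔
      (∃ e ∈ I, e ∈ P ∧ e.map φ = x) ∨ (¬ I ⊆ P ∧ x = e0) := by
  simp only [opG, Finset.mem_union, Finset.mem_image, Finset.mem_filter]
  constructor
  · rintro (⟨e, ⟨h1, h2⟩, h3⟩ | h)
    · exact Or.inl ⟨e, h1, h2, h3⟩
    · by_cases hI : I ⊆ P
      · rw [if_pos hI] at h
        exact absurd h (Finset.notMem_empty x)
      · rw [if_neg hI] at h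
        exact Or.inr ⟨hI, Finset.mem_singleton.mp h⟩
  · rintro (⟨e, h1, h2, h3⟩ | ⟨hI, h⟩)
    · exact Or.inl ⟨e, ⟨h1, h2⟩, h3⟩
    · right
      rw [if_neg hI, h]
      exact Finset.mem_singleton_self e0

theorem opG_mono (P : Finset (Sym2 X)) (φ : X → X) (e0 : Sym2 X) {I I' : Finset (Sym2 X)}
    (h : I ⊆ I') : opG P φ e0 I ⊆ opG P φ e0 I' := by
  intro x hx
  rw [mem_opG] at hx ⊢
  rcases hx with ⟨e, h1, h2, h3⟩ | ⟨hI, h4⟩
  · exact Or.inl ⟨e, h h1, h2, h3⟩
  · exact Or.inr ⟨fun h2 => hI (h.trans h2), h4⟩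

/-- the step without a split -/
theorem step_in {P I : Finset (Sym2 X)} {φ : X → X} {e0 : Sym2 X}
    (hinj : ∀ u v, (∃ f ∈ P, u ∈ f) → (∃ f ∈ P, v ∈ f) → φ u = φ v → u = v)
    (hne : ∀ f ∈ P, f.map φ ≠ e0) (hT : TwoC I) (hI : I ⊆ P) :
    TwoC (opG P φ e0 I) ∧ (opG P φ e0 I).card = I.card ∧ e0 ∉ opG P φ e0 I := by
  have hOp : opG P φ e0 I = I.image (Sym2.map φ) := by
    ext x
    rw [mem_opG, Finset.mem_image]
    constructor
    · rintro (⟨e, h1, -, h3⟩ | ⟨h1, -⟩)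
      · exact ⟨e, h1, h3⟩
      · exact absurd hI h1
    · rintro ⟨e, h1, h2⟩
      exact Or.inl ⟨e, h1, hI h1, h2⟩
  have hinj' : ∀ u v, (∃ f ∈ I, u ∈ f) → (∃ f ∈ I, v ∈ f) → φ u = φ v → u = v := by
    rintro u v ⟨f, h1, h2⟩ ⟨f', h3, h4⟩ h
    exact hinj u v ⟨f, hI h1, h2⟩ ⟨f', hI h3, h4⟩ h
  refine ⟨?_, ?_, ?_⟩
  · rw [hOp]
    exact hT.map φ hinj'
  · rw [hOp]
    apply Finset.card_image_of_injOn
    intro e h3 e' h4 h5
    exact map_inj_of φ {u | ∃ f ∈ I, u ∈ f} (fun u hu v hv h => hinj' u v hu hv h) e e'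
      (fun v hv => ⟨e, h3, hv⟩) (fun v hv => ⟨e', h4, hv⟩) h5
  · rw [hOp]
    intro h
    obtain ⟨e, h1, h2⟩ := Finset.mem_image.mp h
    exact hne e (hI h1) h2

/-- the step with a split -/
theorem step_out {C P I : Finset (Sym2 X)} {φ : X → X} {e e0 : Sym2 X} {s t : X}
    (hinj : ∀ u v, (∃ f ∈ P, u ∈ f) → (∃ f ∈ P, v ∈ f) → φ u = φ v → u = v)
    (hst : s(s, t) ∉ C) (hsh : ∀ v, ∀ f ∈ P, v ∈ f → ∀ f' ∈ C, f' ∉ P → v ∈ f' → v = s ∨ v = t)
    (hst0 : s(φ s, φ t) = e0) (hT : TwoC I) (hIC : I ⊆ C) (he : e ∈ I) (heP : e ∈ P)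
    (hI : ¬ I ⊆ P) :
    TwoC (opG P φ e0 I) ∧ (opG P φ e0 I).card < I.card ∧ e0 ∈ opG P φ e0 I := by
  classical
  set J := I.filter (· ∈ P) with hJ
  set O := I.filter (fun e => e ∉ P) with hO
  have hJO : Disjoint J O := by
    rw [Finset.disjoint_left]
    intro e h1 h2
    exact (Finset.mem_filter.mp h2).2 (Finset.mem_filter.mp h1).2
  have hI2 : ∀ e, e ∈ I ↔ e ∈ J ∨ e ∈ O := by
    intro e
    rw [hJ, hO, Finset.mem_filter, Finset.mem_filter]
    constructor
    · intro h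
      by_cases h2 : e ∈ P
      · exact Or.inl ⟨h, h2⟩
      · exact Or.inr ⟨h, h2⟩
    · rintro (h | h)
      · exact h.1
      · exact h.1
  have hOne : O.Nonempty := by
    by_contra hne
    apply hI
    intro e h
    by_contra h2
    exact hne ⟨e, Finset.mem_filter.mpr ⟨h, h2⟩⟩
  have hJne : J.Nonempty := ⟨e, Finset.mem_filter.mpr ⟨he, heP⟩⟩
  have hshJ : ∀ v, Shares J O v → v = s ∨ v = t := by
    rintro v ⟨⟨e, h1, h2⟩, ⟨e', h3, h4⟩⟩
    exact hsh v e (Finset.mem_filter.mp h1).2 h2 e' (hIC (Finset.mem_filter.mp h3).1)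
      (Finset.mem_filter.mp h3).2 h4
  have hstJ : s(s, t) ∉ J := by
    intro h
    exact hst (hIC (Finset.mem_filter.mp h).1)
  obtain ⟨u, v, huv, hu, hv⟩ := hT J O hJne hOne hJO hI2
  have hboth : Shares J O s ∧ Shares J O t ∧ s ≠ t := by
    rcases hshJ u hu with h1 | h1 <;> rcases hshJ v hv with h2 | h2
    · exact absurd (h1.trans h2.symm) huv
    · exact ⟨h1 ▸ hu, h2 ▸ hv, fun h => huv (by rw [h1, h2, h])⟩
    · exact ⟨h2 ▸ hv, h1 ▸ hu, fun h => huv (by rw [h1, h2, h])⟩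
    · exact absurd (h1.trans h2.symm) huv
  obtain ⟨hs, ht, hne⟩ := hboth
  have hO2 : 2 ≤ O.card := by
    by_contra hlt
    push Not at hlt
    have h1 : O.card = 1 := by
      have := hOne.card_pos
      omega
    obtain ⟨e, h2⟩ := Finset.card_eq_one.mp h1
    obtain ⟨-, ⟨e1, h3, h4⟩⟩ := hs
    obtain ⟨-, ⟨e2, h5, h6⟩⟩ := ht
    rw [h2, Finset.mem_singleton] at h3 h5
    rw [h3] at h4
    rw [h5] at h6
    have h7 : e = s(s, t) := (Sym2.mem_and_mem_iff hne).mp ⟨h4, h6⟩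
    have h8 : e ∈ O := by
      rw [h2]
      exact Finset.mem_singleton_self e
    rw [h7] at h8
    exact hst (hIC (Finset.mem_filter.mp h8).1)
  have hVP : ∀ w, (∃ e ∈ insert s(s, t) J, w ∈ e) → ∃ e ∈ P, w ∈ e := by
    rintro w ⟨e, h1, h2⟩
    rcases Finset.mem_insert.mp h1 with h | h
    · rw [h, Sym2.mem_iff] at h2
      rcases h2 with h3 | h3
      · obtain ⟨⟨e1, h4, h5⟩, -⟩ := hs
        exact ⟨e1, (Finset.mem_filter.mp h4).2, by rw [h3]; exact h5⟩
      · obtain ⟨⟨e1, h4, h5⟩, -⟩ := ht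
        exact ⟨e1, (Finset.mem_filter.mp h4).2, by rw [h3]; exact h5⟩
    · exact ⟨e, (Finset.mem_filter.mp h).2, h2⟩
  have hT1 := (hT.line hJO hI2 hOne hstJ hshJ).map φ
    (fun u v hu hv h => hinj u v (hVP u hu) (hVP v hv) h)
  have hOpI : opG P φ e0 I = (insert s(s, t) J).image (Sym2.map φ) := by
    ext x
    rw [mem_opG, Finset.mem_image]
    constructor
    · rintro (⟨e, h1, h2, h3⟩ | ⟨-, h⟩)
      · exact ⟨e, Finset.mem_insert_of_mem (Finset.mem_filter.mpr ⟨h1, h2⟩), h3⟩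
      · exact ⟨s(s, t), Finset.mem_insert_self _ _, by rw [Sym2.map_mk, hst0, h]⟩
    · rintro ⟨e, h1, h2⟩
      rcases Finset.mem_insert.mp h1 with h | h
      · right
        refine ⟨hI, ?_⟩
        rw [← h2, h, Sym2.map_mk, hst0]
      · exact Or.inl ⟨e, (Finset.mem_filter.mp h).1, (Finset.mem_filter.mp h).2, h2⟩
  refine ⟨by rw [hOpI]; exact hT1, ?_, ?_⟩
  · have h1 : (opG P φ e0 I).card ≤ J.card + 1 := by
      rw [hOpI]
      exact Finset.card_image_le.trans (Finset.card_insert_le _ _)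
    have h2 : J.card + O.card = I.card := by
      rw [hJ, hO]
      exact Finset.card_filter_add_card_filter_not (fun e => e ∈ P)
    omega
  · rw [mem_opG]
    exact Or.inr ⟨hI, rfl⟩

/-- the iterated step along the sequence `h` -/
def itG (Pt : Sym2 X → Finset (Sym2 X)) (φ : Sym2 X → X → X) (e0 : Sym2 X → Sym2 X)
    (h : ℕ → Sym2 X) (j : ℕ) (I : Finset (Sym2 X)) : ℕ → Finset (Sym2 X)
  | 0 => I
  | i + 1 => opG (Pt (h (j + i))) (φ (h (j + i))) (e0 (h (j + i))) (itG Pt φ e0 h j I i)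

theorem itG_mono (Pt : Sym2 X → Finset (Sym2 X)) (φ : Sym2 X → X → X) (e0 : Sym2 X → Sym2 X)
    (h : ℕ → Sym2 X) (j : ℕ) {I I' : Finset (Sym2 X)} (hI : I ⊆ I') (i : ℕ) :
    itG Pt φ e0 h j I i ⊆ itG Pt φ e0 h j I' i := by
  induction i with
  | zero => exact hI
  | succ i ih => exact opG_mono _ _ _ ih

theorem itG_add (Pt : Sym2 X → Finset (Sym2 X)) (φ : Sym2 X → X → X) (e0 : Sym2 X → Sym2 X)
    (h : ℕ → Sym2 X) (j : ℕ) (I : Finset (Sym2 X)) (i k : ℕ) :
    itG Pt φ e0 h j I (i + k) = itG Pt φ e0 h (j + i) (itG Pt φ e0 h j I i) k := by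
  induction k with
  | zero => rfl
  | succ k ih =>
    have h1 : itG Pt φ e0 h j I (i + (k + 1)) =
        opG (Pt (h (j + (i + k)))) (φ (h (j + (i + k)))) (e0 (h (j + (i + k))))
          (itG Pt φ e0 h j I (i + k)) := rfl
    have h2 : itG Pt φ e0 h (j + i) (itG Pt φ e0 h j I i) (k + 1) =
        opG (Pt (h (j + i + k))) (φ (h (j + i + k))) (e0 (h (j + i + k)))
          (itG Pt φ e0 h (j + i) (itG Pt φ e0 h j I i) k) := rfl
    rw [h1, h2, ih, ← Nat.add_assoc]

theorem itG_per (Pt : Sym2 X → Finset (Sym2 X)) (φ : Sym2 X → X → X) (e0 : Sym2 X → Sym2 X)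
    (h : ℕ → Sym2 X) (q : ℕ) (hq : ∀ i, h (i + q) = h i) (j : ℕ) (I : Finset (Sym2 X)) (i : ℕ) :
    itG Pt φ e0 h (j + q) I i = itG Pt φ e0 h j I i := by
  induction i with
  | zero => rfl
  | succ i ih =>
    have h1 : h (j + q + i) = h (j + i) := by
      rw [show j + q + i = (j + i) + q by omega, hq]
    change opG (Pt (h (j + q + i))) (φ (h (j + q + i))) (e0 (h (j + q + i)))
          (itG Pt φ e0 h (j + q) I i) = opG (Pt (h (j + i))) (φ (h (j + i))) (e0 (h (j + i)))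
          (itG Pt φ e0 h j I i)
    rw [h1, ih]

end

theorem gfl_proof : GflStatement := by
  classical
  intro X E Cm Pt φ e0 s t H1 H2 H3 H4 H5 H6 H7
  by_contra hne
  obtain ⟨e1, he1⟩ := Finset.nonempty_iff_ne_empty.mpr hne
  -- the orbit of `e1`
  let step : Sym2 X → Sym2 X := fun e => e.map (φ e)
  have hstepE : ∀ e ∈ E, step e ∈ E := fun e he => (H6 e he).1
  have horb : ∀ i, step^[i] e1 ∈ E := by
    intro i
    induction i with
    | zero => exact he1
    | succ i ih =>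
      rw [Function.iterate_succ_apply']
      exact hstepE _ ih
  obtain ⟨a, b, hab, hrep⟩ : ∃ a b, a < b ∧ step^[a] e1 = step^[b] e1 := by
    obtain ⟨x, y, hxy, hf⟩ := Finite.exists_ne_map_eq_of_infinite
      (fun i : ℕ => (⟨step^[i] e1, horb i⟩ : {e // e ∈ E}))
    have hf' : step^[x] e1 = step^[y] e1 := congrArg Subtype.val hf
    rcases Nat.lt_or_gt_of_ne hxy with h | h
    · exact ⟨x, y, h, hf'⟩
    · exact ⟨y, x, h, hf'.symm⟩
  obtain ⟨q, hq⟩ : ∃ q, b = a + (q + 1) := ⟨b - a - 1, by omega⟩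
  let h : ℕ → Sym2 X := fun i => step^[a + i] e1
  have hE : ∀ i, h i ∈ E := fun i => horb _
  have hs : ∀ i, h (i + 1) = (h i).map (φ (h i)) := by
    intro i
    change step^[a + (i + 1)] e1 = step (step^[a + i] e1)
    rw [← Nat.add_assoc, Function.iterate_succ_apply']
  have hper : ∀ i, h (i + (q + 1)) = h i := by
    intro i
    change step^[a + (i + (q + 1))] e1 = step^[a + i] e1
    rw [show a + (i + (q + 1)) = i + b by omega, show a + i = i + a by omega,
      Function.iterate_add_apply, Function.iterate_add_apply, hrep]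
  set it := itG Pt φ e0 h with hit
  have hit1 : ∀ j I i, it j I (i + 1) =
      opG (Pt (h (j + i))) (φ (h (j + i))) (e0 (h (j + i))) (it j I i) := fun j I i => rfl
  -- membership and inclusion in one step
  have hmemS : ∀ (j : ℕ) (I : Finset (Sym2 X)), h j ∈ I →
      h (j + 1) ∈ opG (Pt (h j)) (φ (h j)) (e0 (h j)) I := by
    intro j I hI
    rw [mem_opG]
    exact Or.inl ⟨h j, hI, (H1 _ (hE j)).1, (hs j).symm⟩
  have hsubS : ∀ (j : ℕ) (I : Finset (Sym2 X)),
      opG (Pt (h j)) (φ (h j)) (e0 (h j)) I ⊆ Cm (h (j + 1)) := by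
    intro j I x hx
    rw [mem_opG] at hx
    rw [hs]
    rcases hx with ⟨e, -, h2, h3⟩ | ⟨-, h4⟩
    · rw [← h3]
      exact (H7 _ (hE j) e h2).1
    · rw [h4]
      exact (H6 _ (hE j)).2.1
  -- the main induction
  have key : ∀ N : ℕ, ∀ (j : ℕ) (I : Finset (Sym2 X)), I.card = N → TwoC I → h j ∈ I →
      I ⊆ Cm (h j) → e0 (h (j + q)) ∈ I → it j I (q + 1) ⊆ I → False := by
    intro N
    induction N using Nat.strong_induction_on with
    | _ N ih =>
      intro j I hN hT hjI hIC he0 hitI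
      have claim : ∀ i, i ≤ q + 1 → TwoC (it j I i) ∧ h (j + i) ∈ it j I i ∧
          it j I i ⊆ Cm (h (j + i)) ∧ (it j I i).card = I.card ∧
          (1 ≤ i → e0 (h (j + (i - 1))) ∉ it j I i) := by
        intro i
        induction i with
        | zero =>
          intro _
          exact ⟨hT, hjI, hIC, rfl, fun h => absurd h (by omega)⟩
        | succ i ihi =>
          intro hi
          obtain ⟨c1, c2, c3, c4, -⟩ := ihi (by omega)
          have hEji := hE (j + i)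
          by_cases hsub : it j I i ⊆ Pt (h (j + i))
          · obtain ⟨d1, d2, d3⟩ := step_in (H5 _ hEji) (fun f hf => (H7 _ hEji f hf).2) c1 hsub
            refine ⟨?_, ?_, ?_, ?_, fun _ => ?_⟩
            · rw [hit1]
              exact d1
            · rw [hit1]
              exact hmemS (j + i) _ c2
            · rw [hit1]
              exact hsubS (j + i) _
            · rw [hit1, d2, c4]
            · rw [hit1, Nat.add_sub_cancel]
              exact d3
          · exfalso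
            obtain ⟨d1, d2, d3⟩ := step_out (H5 _ hEji) (H3 _ hEji) (H4 _ hEji)
              (H6 _ hEji).2.2 c1 c3 c2 (H1 _ hEji).1 hsub
            refine ih (it j I (i + 1)).card ?_ (j + i + 1) (it j I (i + 1)) rfl ?_ ?_ ?_ ?_ ?_
            · rw [hit1, ← hN, ← c4]
              exact d2
            · rw [hit1]
              exact d1
            · rw [hit1]
              exact hmemS (j + i) _ c2
            · rw [hit1]
              exact hsubS (j + i) _
            · rw [show j + i + 1 + q = (j + i) + (q + 1) by omega, hper, hit1]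
              exact d3
            · have g1 : it (j + i + 1) (it j I (i + 1)) (q + 1) = it j I ((i + 1) + (q + 1)) := by
                rw [hit, itG_add Pt φ e0 h j I (i + 1) (q + 1), Nat.add_assoc]
              have g2 : it j I ((q + 1) + (i + 1)) = it j (it j I (q + 1)) (i + 1) := by
                rw [hit, itG_add Pt φ e0 h j I (q + 1) (i + 1), itG_per Pt φ e0 h (q + 1) hper]
              rw [g1, Nat.add_comm (i + 1) (q + 1), g2]
              exact itG_mono Pt φ e0 h j hitI (i + 1)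
      obtain ⟨-, -, -, c4, c5⟩ := claim (q + 1) le_rfl
      have heq := Finset.eq_of_subset_of_card_le hitI c4.ge
      have c6 := c5 (by omega)
      rw [heq, Nat.add_sub_cancel] at c6
      exact c6 he0
  -- the start
  have hE0 := hE 0
  obtain ⟨p1, p2, p3, p4, f, p5, p6⟩ := H1 _ hE0
  obtain ⟨d1, d2, d3⟩ := step_out (H5 _ hE0) (H3 _ hE0) (H4 _ hE0) (H6 _ hE0).2.2 p4
    (Finset.Subset.refl _) (p2 p1) p1 (fun hsub => p6 (hsub p5))
  have hI1 : it 0 (Cm (h 0)) 1 = opG (Pt (h 0)) (φ (h 0)) (e0 (h 0)) (Cm (h 0)) := rfl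
  have hsub : ∀ i, it 0 (Cm (h 0)) i ⊆ Cm (h i) := by
    intro i
    cases i with
    | zero => exact Finset.Subset.refl _
    | succ i =>
      rw [hit1, Nat.zero_add]
      exact hsubS i _
  refine key _ 1 (it 0 (Cm (h 0)) 1) rfl ?_ ?_ ?_ ?_ ?_
  · rw [hI1]
    exact d1
  · rw [hI1]
    exact hmemS 0 _ (p2 p1)
  · exact hsub 1
  · rw [Nat.add_comm 1 q, ← Nat.zero_add (q + 1), hper, hI1]
    exact d3
  · have g1 : it 1 (it 0 (Cm (h 0)) 1) (q + 1) = it 0 (Cm (h 0)) (1 + (q + 1)) := by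
      rw [hit, itG_add Pt φ e0 h 0 (Cm (h 0)) 1 (q + 1), Nat.zero_add]
    have g2 : it 0 (Cm (h 0)) ((q + 1) + 1) = it 0 (it 0 (Cm (h 0)) (q + 1)) 1 := by
      rw [hit, itG_add Pt φ e0 h 0 (Cm (h 0)) (q + 1) 1, itG_per Pt φ e0 h (q + 1) hper]
    rw [g1, Nat.add_comm 1 (q + 1), g2]
    apply itG_mono Pt φ e0 h 0
    have h0 : h (q + 1) = h 0 := by
      have := hper 0
      rwa [Nat.zero_add] at this
    have h1 := hsub (q + 1)
    rwa [h0] at h1

end MP3240G
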