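import Pool.Agent.Lib.MP_3240be_co.H62.Defs

/-!
# MP_3240be_co, board BTT, row KHN: `U` in `K_(h + 1, n)` with a prescribed hub
-/

set_option autoImplicit false

namespace MP3240G

open Finset

/-- Row KHN. -/
theorem khn_proof (hE : ExlStatement) : KhnStatement := by
  classical
  intro n h U κ hB α hα V G P R N v hR hv hPR hN hz
  set W : Finset (Fin n) := univ.filter (fun x => κ x = true) with hW
  have hmW : ∀ i, i ∈ W ↔ κ i = true := by
    intro i
    rw [hW, Finset.mem_filter]
    exact ⟨fun h => h.2, fun h => ⟨Finset.mem_univ _, h⟩⟩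
  have hαW : α ∈ W := (hmW α).2 hα
  have hc : (W.erase α).card = R.card := by
    rw [Finset.card_erase_of_mem hαW, hR, hW, hB.cardA]
    rfl
  let e := Finset.equivOfCardEq hc
  let φ : Fin n → V := fun i => if hi : i ∈ W.erase α then (e ⟨i, hi⟩ : V) else v
  have hφα : φ α = v := by
    have h1 : α ∉ W.erase α := Finset.notMem_erase α W
    simp only [φ, dif_neg h1]
  have hφ : ∀ i, (hi : i ∈ W.erase α) → φ i = (e ⟨i, hi⟩ : V) := by
    intro i hi
    simp only [φ, dif_pos hi]
  have hφR : ∀ i ∈ W, i ≠ α → φ i ∈ R := by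
    intro i hi hiα
    rw [hφ i (Finset.mem_erase.2 ⟨hiα, hi⟩)]
    exact (e ⟨i, _⟩).2
  have hinj : Set.InjOn φ (W : Set (Fin n)) := by
    intro i hi j hj hij
    have hi' : i ∈ W := Finset.mem_coe.1 hi
    have hj' : j ∈ W := Finset.mem_coe.1 hj
    by_cases h1 : i = α
    · by_cases h2 : j = α
      · rw [h1, h2]
      · exfalso
        have h3 := hφR j hj' h2
        rw [← hij, h1, hφα] at h3
        exact hv h3
    · by_cases h2 : j = α
      · exfalso
        have h3 := hφR i hi' h1
        rw [hij, h2, hφα] at h3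
        exact hv h3
      · rw [hφ i (Finset.mem_erase.2 ⟨h1, hi'⟩), hφ j (Finset.mem_erase.2 ⟨h2, hj'⟩)] at hij
        have h3 := e.injective (Subtype.ext hij)
        exact congrArg Subtype.val h3
  obtain ⟨f, hf1, hf2, hf3, hf4⟩ := hE V G P n U W φ hinj
    (by
      intro i hi j hj hij
      exact absurd (((hmW i).1 hi).trans ((hmW j).1 hj).symm) (hB.prop i j hij))
    (by
      intro i hi j hj hij
      have h1 : κ i = false := by
        rw [← Bool.not_eq_true]
        exact fun h1 => hi ((hmW i).2 h1)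
      have h2 : κ j = false := by
        rw [← Bool.not_eq_true]
        exact fun h1 => hj ((hmW j).2 h1)
      exact hB.prop i j hij (h1.trans h2.symm))
    (by
      intro u _ S hS
      obtain ⟨z, hzN, hzS⟩ : ∃ z ∈ N, z ∉ S := by
        by_contra hne
        push Not at hne
        have h1 := Finset.card_le_card (show N ⊆ S from hne)
        omega
      obtain ⟨h1, h2, h3⟩ := hz z hzN
      refine ⟨z, hzS, h1, ?_⟩
      intro i hi _
      by_cases hiα : i = α
      · rw [hiα, hφα]
        exact h2
      · exact h3 _ (hφR i hi hiα))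
  refine ⟨f, hf1, ?_, ?_, hf4⟩
  · rw [hf2 α hαW, hφα]
  · intro i hi
    by_cases hiW : i ∈ W
    · rw [hf2 i hiW]
      exact hPR _ (hφR i hiW hi)
    · exact hf3 i hiW

end MP3240G
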