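import Pool.Agent.Lib.MP_3240be_co.H62.Defs

/-!
# MP_3240be_co, Theorem T2: row LRG

A copy of a connected bipartite graph such that every edge has exactly one end in a set `Y` has a
whole class in `Y`.
-/

set_option autoImplicit false

namespace MP3240G

open Finset

private lemma lrg_card {k : ℕ} {X : Type} (f : Fin k → X) (Y : Finset X)
    (hf : Function.Injective f) (p : Fin k → Prop) [DecidablePred p] (hp : ∀ i, p i → f i ∈ Y) :
    (univ.filter p).card ≤ Y.card := by
  classical
  have h1 : ((univ.filter p).image f).card = (univ.filter p).card :=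
    Finset.card_image_of_injective _ hf
  rw [← h1]
  refine Finset.card_le_card ?_
  intro x hx
  rw [Finset.mem_image] at hx
  obtain ⟨i, hi, rfl⟩ := hx
  exact hp i (Finset.mem_filter.1 hi).2

theorem lrg_proof : LrgStatement := by
  intro k h D κ hD hκ X f Y hf hY hall
  have hstep : ∀ i j, D.Adj i j → ((f i ∈ Y ↔ κ i = true) ↔ (f j ∈ Y ↔ κ j = true)) := by
    intro i j hij
    have h1 := hall i j hij
    have h2 := hκ.prop i j hij
    by_cases hi : f i ∈ Y <;> by_cases hj : f j ∈ Y <;> cases hki : κ i <;> cases hkj : κ j <;>
      simp_all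
  have hreach : ∀ i j, D.Reachable i j → ((f i ∈ Y ↔ κ i = true) ↔ (f j ∈ Y ↔ κ j = true)) := by
    intro i j hr
    obtain ⟨w⟩ := hr
    induction w with
    | nil => exact Iff.rfl
    | cons hadj _ ih => exact (hstep _ _ hadj).trans ih
  obtain ⟨i0⟩ := hD.nonempty
  by_cases h0 : f i0 ∈ Y ↔ κ i0 = true
  · have hA : (univ.filter (fun v => κ v = true)).card ≤ Y.card :=
      lrg_card f Y hf (fun v => κ v = true) fun i hi =>
        ((hreach i0 i (hD.preconnected i0 i)).1 h0).2 hi
    have := hκ.cardA
    omega
  · have hB : (univ.filter (fun v => κ v = false)).card ≤ Y.card :=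
      lrg_card f Y hf (fun v => κ v = false) fun i hi => by
        by_contra hn
        apply h0
        rw [hreach i0 i (hD.preconnected i0 i)]
        constructor
        · intro h'; exact absurd h' hn
        · intro h'; rw [hi] at h'; exact absurd h' (by simp)
    have := hκ.cardB
    omega

end MP3240G
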