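import Pool.Agent.Lib.MP_3240be_co.H62.Defs

/-!
# MP_3240be_co, Theorem T2, row NBC: a maximal `TC` member is not contained in a blob graph
-/

set_option autoImplicit false

namespace MP3240G

open MP3240Q (Bip SG Sub)
open Pool.Agent.Lib.MP_3240be_co.H82 (TC)

/-- Transport of adjacency along an equality of labels. -/
theorem nbc_adj {Λ : Type} {k : ℕ} (U : Λ → SG) (φ : ∀ l, Fin k → Fin (U l).1) {l l' : Λ}
    (e : l' = l) {u v : Fin k} (h : (U l').2.Adj (φ l' u) (φ l' v)) :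
    (U l).2.Adj (φ l u) (φ l v) := by
  subst e
  exact h

theorem nbc_proof (hS : SpcStatement) : NbcStatement := by
  intro k fam D hT hM hB
  obtain ⟨Λ, pt, U, a, b, φ, κ, h1, h2, h3, h4, h5⟩ := hB
  -- an edge
  obtain ⟨u0, v0, he⟩ : ∃ u v, D.Adj u v := by
    by_contra hno
    push Not at hno
    obtain ⟨x⟩ := hT.ne
    obtain ⟨z, hz, -⟩ := hT.third x x
    exact hz (hT.conn (fun y => y = x) ⟨x, rfl⟩ (fun y y' h => absurd h (hno y y')) z)
  set l := pt u0 v0 with hl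
  have hu0 : BIn D pt l u0 := ⟨v0, he, rfl⟩
  have hv0 : BIn D pt l v0 := ⟨u0, he.symm, by rw [← (h2 u0 v0 he).2.1]⟩
  let I : Fin k → Prop := fun x => BIn D pt l x ∧ φ l x = a l
  let J : Fin k → Prop := fun x => BIn D pt l x ∧ φ l x = b l
  have hI : ∀ x y, I x → I y → x = y := fun x y hx hy =>
    h3 l x y hx.1 hy.1 (hx.2.trans hy.2.symm)
  have hJ : ∀ x y, J x → J y → x = y := fun x y hx hy =>
    h3 l x y hx.1 hy.1 (hx.2.trans hy.2.symm)
  have hIJ : ∀ x y, I x → J y → ¬ D.Adj x y := fun x y hx hy =>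
    (h5 l x y hx.1 hy.1 hx.2 hy.2).1
  -- an edge has an end outside `I`, `J`
  have hout : ∀ x y, D.Adj x y → (¬ I x ∧ ¬ J x) ∨ (¬ I y ∧ ¬ J y) := by
    intro x y hxy
    by_cases ix : I x
    · refine Or.inr ⟨fun iy => hxy.ne (hI x y ix iy), fun jy => hIJ x y ix jy hxy⟩
    · by_cases jx : J x
      · exact Or.inr ⟨fun iy => hIJ y x iy jx hxy.symm, fun jy => hxy.ne (hJ x y jx jy)⟩
      · exact Or.inl ⟨ix, jx⟩
  -- the part of an edge at a vertex of the part outside `I`, `J`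
  have hpt : ∀ x y, ¬ I x → ¬ J x → D.Adj x y → BIn D pt l x → pt x y = l := by
    intro x y ix jx hxy hx
    by_contra hne
    rcases h4 l (pt x y) x (fun e => hne e.symm) hx ⟨y, hxy, rfl⟩ with e | e
    · exact ix ⟨hx, e⟩
    · exact jx ⟨hx, e⟩
  have hall : ∀ y, ¬ I y → ¬ J y → BIn D pt l y := by
    refine hT.sep I J hI hJ (fun _ => ⟨κ, fun x y hxy => (h2 x y hxy).1, fun x y hx hy =>
      (h5 l x y hx.1 hy.1 hx.2 hy.2).2⟩) (BIn D pt l) ?_ ?_
    · rcases hout u0 v0 he with h | h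
      · exact ⟨u0, h.1, h.2, hu0⟩
      · exact ⟨v0, h.1, h.2, hv0⟩
    · intro x y ix jx _ _ hxy hx
      exact ⟨x, hxy.symm, by rw [← (h2 x y hxy).2.1]; exact hpt x y ix jx hxy hx⟩
  have hall' : ∀ y, BIn D pt l y := by
    intro y
    by_cases iy : I y
    · exact iy.1
    · by_cases jy : J y
      · exact jy.1
      · exact hall y iy jy
  have hedge : ∀ x y, D.Adj x y → pt x y = l := by
    intro x y hxy
    rcases hout x y hxy with h | h
    · exact hpt x y h.1 h.2 hxy (hall' x)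
    · rw [(h2 x y hxy).2.1]
      exact hpt y x h.1 h.2 hxy.symm (hall' y)
  have hinj : Function.Injective (φ l) := fun x y e => h3 l x y (hall' x) (hall' y) e
  have hhom : ∀ x y, D.Adj x y → (U l).2.Adj (φ l x) (φ l y) := fun x y hxy =>
    nbc_adj U φ (hedge x y hxy) (h2 x y hxy).2.2
  have hsub : Sub (U l).2 D := hM.2 (U l) (h1 l).1 ⟨φ l, hinj, hhom⟩
  obtain ⟨u, v, huv, eu, ev⟩ := hS k (U l).1 D (U l).2 (a l) (b l) (φ l) (h1 l).2 hsub hinj hhom
  exact (h5 l u v (hall' u) (hall' v) eu ev).1 huv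

end MP3240G
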