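import Pool.Agent.Lib.MP_3240be_co.H62.Defs
import Pool.Agent.Lib.MP_3240be_co.H43.G0

/-!
Row NBN of board t2_modules: some maximal member is not contained in a blob graph.
-/

set_option autoImplicit false

namespace MP3240G

open Finset
open MP3240Q (SG Sub)
open MP3240W (TwoC Shares ed mem_ed)

theorem sub_refl' {U : Type} (A : SimpleGraph U) : Sub A A :=
  ⟨id, Function.injective_id, fun _ _ h => h⟩

theorem sub_trans' {U V W : Type} {A : SimpleGraph U} {B : SimpleGraph V} {C : SimpleGraph W}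
    (h : Sub A B) (h' : Sub B C) : Sub A C := by
  obtain ⟨f, hf, hf2⟩ := h
  obtain ⟨g, hg, hg2⟩ := h'
  exact ⟨g ∘ f, hg.comp hf, fun x y h => hg2 _ _ (hf2 _ _ h)⟩

theorem exists_mx {fam : Set SG} (hfin : fam.Finite) {x : SG} (hx : x ∈ fam) :
    ∃ y, Mx fam y ∧ Sub x.2 y.2 := by
  let inst : Preorder SG :=
    { le := fun x y => Sub x.2 y.2
      le_refl := fun x => sub_refl' x.2
      le_trans := fun x y z h h' => sub_trans' h h'
      lt := fun x y => Sub x.2 y.2 ∧ ¬ Sub y.2 x.2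
      lt_iff_le_not_ge := fun _ _ => Iff.rfl }
  obtain ⟨y, h1, h2⟩ := @Set.Finite.exists_le_maximal SG inst fam x hfin hx
  exact ⟨y, ⟨h2.1, fun z hz h => h2.2 hz h⟩, h1⟩

/-- the data of a blob graph that contains `x`, with maximal members `V l` above the blobs -/
structure BlobD (fam : Set SG) (x : SG) where
  Λ : Type
  pt : Fin x.1 → Fin x.1 → Λ
  U : Λ → SG
  V : Λ → SG
  a : ∀ l, Fin (U l).1
  b : ∀ l, Fin (U l).1
  φ : ∀ l, Fin x.1 → Fin (U l).1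
  ι : ∀ l, Fin (U l).1 → Fin (V l).1
  hU : ∀ l, U l ∈ fam ∧ (U l).2.Adj (a l) (b l)
  hV : ∀ l, Mx fam (V l)
  hι : ∀ l, Function.Injective (ι l) ∧ ∀ u v, (U l).2.Adj u v → (V l).2.Adj (ι l u) (ι l v)
  hpt : ∀ u v, x.2.Adj u v → pt u v = pt v u ∧
    (U (pt u v)).2.Adj (φ (pt u v) u) (φ (pt u v) v)
  hinj : ∀ l u v, BIn x.2 pt l u → BIn x.2 pt l v → φ l u = φ l v → u = v
  hsh : ∀ l l' v, l ≠ l' → BIn x.2 pt l v → BIn x.2 pt l' v → φ l v = a l ∨ φ l v = b l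
  hnon : ∀ l u v, BIn x.2 pt l u → BIn x.2 pt l v → φ l u = a l → φ l v = b l →
    ¬ x.2.Adj u v

theorem exists_blobD {fam : Set SG} (hfin : fam.Finite) {x : SG} (hb : Blobbed fam x.2) :
    Nonempty (BlobD fam x) := by
  obtain ⟨Λ, pt, U, a, b, φ, κ, h1, h2, h3, h4, h5⟩ := hb
  choose V hV hUV using fun l => exists_mx hfin (h1 l).1
  choose ι hι hι2 using hUV
  exact ⟨⟨Λ, pt, U, V, a, b, φ, ι, h1, hV, fun l => ⟨hι l, hι2 l⟩,
    fun u v h => ⟨(h2 u v h).2.1, (h2 u v h).2.2⟩, h3, h4,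
    fun l u v hu hv e1 e2 => (h5 l u v hu hv e1 e2).1⟩⟩

theorem nbn_proof (hG : GflStatement) (hS : SpcStatement) (hT : MP3240W.TwoStatement) :
    NbnStatement := by
  classical
  intro fam hfin hne htwo
  by_contra hcon
  push Not at hcon
  have hbd : ∀ x : {x : SG // Mx fam x}, Nonempty (BlobD fam x.1) :=
    fun x => exists_blobD hfin (hcon x.1 x.2)
  let bd : ∀ x : {x : SG // Mx fam x}, BlobD fam x.1 := fun x => (hbd x).some
  -- every vertex of a member has an edge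
  have hdeg : ∀ x : {x : SG // Mx fam x}, ∀ u : Fin x.1.1, ∃ v, x.1.2.Adj u v := by
    intro x u
    have h2 := htwo x.1 x.2.1
    obtain ⟨w, hw⟩ : ∃ w : Fin x.1.1, w ≠ u := by
      have : Nontrivial (Fin x.1.1) := Fin.nontrivial_iff_two_le.mpr (by have := h2.three; omega)
      exact exists_ne u
    obtain ⟨p⟩ := h2.conn.preconnected u w
    cases p with
    | nil => exact absurd rfl hw
    | cons h _ => exact ⟨_, h⟩
  -- the parts
  let Idx : Type := Σ x : {x : SG // Mx fam x}, (bd x).Λ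
  let X : Type := Σ x : SG, Fin x.1
  let PtI : Idx → Finset (Sym2 X) := fun k =>
    (univ.filter (fun p : Fin k.1.1.1 × Fin k.1.1.1 => k.1.1.2.Adj p.1 p.2 ∧
      (bd k.1).pt p.1 p.2 = k.2)).image (fun p => s(⟨k.1.1, p.1⟩, ⟨k.1.1, p.2⟩))
  have memP : ∀ (k : Idx) (e : Sym2 X), e ∈ PtI k ↔ ∃ u v : Fin k.1.1.1, k.1.1.2.Adj u v ∧
      (bd k.1).pt u v = k.2 ∧ e = s(⟨k.1.1, u⟩, ⟨k.1.1, v⟩) := by
    intro k e
    simp only [PtI, Finset.mem_image, Finset.mem_filter, Finset.mem_univ, true_and, Prod.exists]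
    constructor
    · rintro ⟨u, v, ⟨h1, h2⟩, h3⟩
      exact ⟨u, v, h1, h2, h3.symm⟩
    · rintro ⟨u, v, h1, h2, h3⟩
      exact ⟨u, v, ⟨h1, h2⟩, h3.symm⟩
  let CmI : SG → Finset (Sym2 X) := fun x => (ed x.2).image (Sym2.map (fun v => (⟨x, v⟩ : X)))
  have memC : ∀ (x : SG) (e : Sym2 X), e ∈ CmI x ↔ ∃ u v : Fin x.1, x.2.Adj u v ∧
      e = s(⟨x, u⟩, ⟨x, v⟩) := by
    intro x e
    simp only [CmI, Finset.mem_image]
    constructor
    · rintro ⟨f, h1, h2⟩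
      induction f using Sym2.ind with
      | _ u v => exact ⟨u, v, mem_ed.mp h1, by rw [← h2, Sym2.map_mk]⟩
    · rintro ⟨u, v, h1, h2⟩
      exact ⟨s(u, v), mem_ed.mpr h1, by rw [h2, Sym2.map_mk]⟩
  have sameC : ∀ (x y : SG) (e : Sym2 X), e ∈ CmI x → e ∈ CmI y → x = y := by
    intro x y e h1 h2
    obtain ⟨u, v, -, h3⟩ := (memC x e).mp h1
    obtain ⟨u', v', -, h4⟩ := (memC y e).mp h2
    rw [h3, Sym2.eq_iff] at h4
    rcases h4 with ⟨h5, -⟩ | ⟨h5, -⟩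
    · exact congrArg Sigma.fst h5
    · exact congrArg Sigma.fst h5
  have PsubC : ∀ k : Idx, PtI k ⊆ CmI k.1.1 := by
    intro k e he
    obtain ⟨u, v, h1, -, h3⟩ := (memP k e).mp he
    exact (memC _ _).mpr ⟨u, v, h1, h3⟩
  -- an edge lies in the part `k` iff ..
  have adjP : ∀ (k : Idx) (u v : Fin k.1.1.1), k.1.1.2.Adj u v →
      ((s((⟨k.1.1, u⟩ : X), ⟨k.1.1, v⟩) ∈ PtI k) ↔ (bd k.1).pt u v = k.2) := by
    intro k u v huv
    rw [memP]
    constructor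
    · rintro ⟨u', v', h1, h2, h3⟩
      rw [Sym2.eq_iff] at h3
      rcases h3 with ⟨h4, h5⟩ | ⟨h4, h5⟩
      · rw [eq_of_heq (Sigma.mk.inj h4).2, eq_of_heq (Sigma.mk.inj h5).2]
        exact h2
      · rw [((bd k.1).hpt u v huv).1, eq_of_heq (Sigma.mk.inj h4).2,
          eq_of_heq (Sigma.mk.inj h5).2]
        exact h2
    · intro h
      exact ⟨u, v, huv, h, rfl⟩
  -- the vertices of the part
  have vtxP : ∀ (k : Idx) (w : X), (∃ f ∈ PtI k, w ∈ f) ↔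
      ∃ u : Fin k.1.1.1, w = ⟨k.1.1, u⟩ ∧ BIn k.1.1.2 (bd k.1).pt k.2 u := by
    intro k w
    constructor
    · rintro ⟨f, h1, h2⟩
      obtain ⟨u, v, h3, h4, h5⟩ := (memP k f).mp h1
      rw [h5, Sym2.mem_iff] at h2
      rcases h2 with h6 | h6
      · exact ⟨u, h6, v, h3, h4⟩
      · exact ⟨v, h6, u, h3.symm, by rw [← ((bd k.1).hpt u v h3).1]; exact h4⟩
    · rintro ⟨u, h1, v, h2, h3⟩
      refine ⟨s(⟨k.1.1, u⟩, ⟨k.1.1, v⟩), (memP k _).mpr ⟨u, v, h2, h3, rfl⟩, ?_⟩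
      rw [h1]
      exact Sym2.mem_mk_left _ _
  -- 2-connectedness of the members
  have twoC : ∀ x : {x : SG // Mx fam x}, TwoC (CmI x.1) := by
    intro x
    have h2 := htwo x.1 x.2.1
    refine (hT x.1.1 x.1.2 h2.three h2.conn h2.cut).map (fun v => (⟨x.1, v⟩ : X)) ?_
    intro u v _ _ h
    exact eq_of_heq (Sigma.mk.inj h).2
  -- the part is not everything
  have notAll : ∀ k : Idx, ∃ f ∈ CmI k.1.1, f ∉ PtI k := by
    intro k
    by_contra hall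
    push Not at hall
    have hbin : ∀ u, BIn k.1.1.2 (bd k.1).pt k.2 u := by
      intro u
      obtain ⟨v, hv⟩ := hdeg k.1 u
      exact ⟨v, hv, (adjP k u v hv).mp (hall _ ((memC _ _).mpr ⟨u, v, hv, rfl⟩))⟩
    have hinj : Function.Injective ((bd k.1).φ k.2) :=
      fun u v h => (bd k.1).hinj k.2 u v (hbin u) (hbin v) h
    have hhom : ∀ u v, k.1.1.2.Adj u v →
        ((bd k.1).U k.2).2.Adj ((bd k.1).φ k.2 u) ((bd k.1).φ k.2 v) := by
      intro u v huv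
      have h1 := (adjP k u v huv).mp (hall _ ((memC _ _).mpr ⟨u, v, huv, rfl⟩))
      have h2 := ((bd k.1).hpt u v huv).2
      rw [h1] at h2
      exact h2
    have hsub : Sub ((bd k.1).U k.2).2 k.1.1.2 :=
      k.1.2.2 _ ((bd k.1).hU k.2).1 ⟨(bd k.1).φ k.2, hinj, hhom⟩
    obtain ⟨u, v, h1, h2, h3⟩ := hS _ _ k.1.1.2 ((bd k.1).U k.2).2 ((bd k.1).a k.2)
      ((bd k.1).b k.2) ((bd k.1).φ k.2) ((bd k.1).hU k.2).2 hsub hinj hhom
    exact (bd k.1).hnon k.2 u v (hbin u) (hbin v) h2 h3 h1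
  -- the boundary of a part
  have hbdry : ∀ k : Idx, ∃ s t : Fin k.1.1.1, (PtI k).Nonempty →
      BIn k.1.1.2 (bd k.1).pt k.2 s ∧ BIn k.1.1.2 (bd k.1).pt k.2 t ∧
      (bd k.1).φ k.2 s = (bd k.1).a k.2 ∧ (bd k.1).φ k.2 t = (bd k.1).b k.2 := by
    intro k
    by_cases hP : (PtI k).Nonempty
    · obtain ⟨f, hf1, hf2⟩ := notAll k
      obtain ⟨u, v, huv, hu, hv⟩ := twoC k.1 (PtI k) ((CmI k.1.1).filter (fun e => e ∉ PtI k)) hP
        ⟨f, Finset.mem_filter.mpr ⟨hf1, hf2⟩⟩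
        (by
          rw [Finset.disjoint_left]
          intro e h1 h2
          exact (Finset.mem_filter.mp h2).2 h1)
        (by
          intro e
          rw [Finset.mem_filter]
          constructor
          · intro h
            by_cases h2 : e ∈ PtI k
            · exact Or.inl h2
            · exact Or.inr ⟨h, h2⟩
          · rintro (h | h)
            · exact PsubC k h
            · exact h.1)
      have hone : ∀ w : X, Shares (PtI k) ((CmI k.1.1).filter (fun e => e ∉ PtI k)) w →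
          ∃ w' : Fin k.1.1.1, w = ⟨k.1.1, w'⟩ ∧ BIn k.1.1.2 (bd k.1).pt k.2 w' ∧
            ((bd k.1).φ k.2 w' = (bd k.1).a k.2 ∨ (bd k.1).φ k.2 w' = (bd k.1).b k.2) := by
        rintro w ⟨hw1, e, he, hw2⟩
        obtain ⟨w', h1, h2⟩ := (vtxP k w).mp hw1
        refine ⟨w', h1, h2, ?_⟩
        obtain ⟨he1, he2⟩ := Finset.mem_filter.mp he
        obtain ⟨u', v', h3, h4⟩ := (memC _ _).mp he1
        have h5 : ∀ v', k.1.1.2.Adj w' v' → (bd k.1).pt w' v' ≠ k.2 →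
            ((bd k.1).φ k.2 w' = (bd k.1).a k.2 ∨ (bd k.1).φ k.2 w' = (bd k.1).b k.2) := by
          intro v' hv' hne
          exact (bd k.1).hsh k.2 _ w' hne.symm h2 ⟨v', hv', rfl⟩
        rw [h4, Sym2.mem_iff, h1] at hw2
        rcases hw2 with h6 | h6
        · have h7 : w' = u' := eq_of_heq (Sigma.mk.inj h6).2
          rw [h4, ← h7] at he2
          rw [← h7] at h3
          exact h5 v' h3 (fun h => he2 ((adjP k w' v' h3).mpr h))
        · have h7 : w' = v' := eq_of_heq (Sigma.mk.inj h6).2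
          rw [h4, ← h7, Sym2.eq_swap] at he2
          rw [← h7] at h3
          exact h5 u' h3.symm (fun h => he2 ((adjP k w' u' h3.symm).mpr h))
      obtain ⟨u', hu1, hu2, hu3⟩ := hone u hu
      obtain ⟨v', hv1, hv2, hv3⟩ := hone v hv
      have huv' : u' ≠ v' := by
        intro h
        apply huv
        rw [hu1, hv1, h]
      rcases hu3 with hu3 | hu3 <;> rcases hv3 with hv3 | hv3
      · exact absurd ((bd k.1).hinj k.2 _ _ hu2 hv2 (hu3.trans hv3.symm)) huv'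
      · exact ⟨u', v', fun _ => ⟨hu2, hv2, hu3, hv3⟩⟩
      · exact ⟨v', u', fun _ => ⟨hv2, hu2, hv3, hu3⟩⟩
      · exact absurd ((bd k.1).hinj k.2 _ _ hu2 hv2 (hu3.trans hv3.symm)) huv'
    · have h3 := (htwo k.1.1 k.1.2.1).three
      exact ⟨⟨0, by omega⟩, ⟨0, by omega⟩, fun h => absurd h hP⟩
  choose sv tv hst using hbdry
  -- the maps
  let phI : Idx → X → X := fun k w =>
    if h : w.1 = k.1.1 then ⟨(bd k.1).V k.2, (bd k.1).ι k.2 ((bd k.1).φ k.2 (h ▸ w.2))⟩ else w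
  have phI_eq : ∀ (k : Idx) (u : Fin k.1.1.1), phI k ⟨k.1.1, u⟩ =
      ⟨(bd k.1).V k.2, (bd k.1).ι k.2 ((bd k.1).φ k.2 u)⟩ := by
    intro k u
    simp only [phI, dite_true]
  let e0I : Idx → Sym2 X := fun k =>
    s(⟨(bd k.1).V k.2, (bd k.1).ι k.2 ((bd k.1).a k.2)⟩,
      ⟨(bd k.1).V k.2, (bd k.1).ι k.2 ((bd k.1).b k.2)⟩)
  -- the edges
  have hMfin : {x : SG | Mx fam x}.Finite := hfin.subset (fun x hx => hx.1)
  let E : Finset (Sym2 X) := hMfin.toFinset.biUnion CmI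
  have memE : ∀ e : Sym2 X, e ∈ E ↔ ∃ x : {x : SG // Mx fam x}, e ∈ CmI x.1 := by
    intro e
    simp only [E, Finset.mem_biUnion, Set.Finite.mem_toFinset, Set.mem_setOf_eq]
    constructor
    · rintro ⟨x, h1, h2⟩
      exact ⟨⟨x, h1⟩, h2⟩
    · rintro ⟨x, h2⟩
      exact ⟨x.1, x.2, h2⟩
  have hidx : ∀ e ∈ E, ∃ k : Idx, e ∈ PtI k := by
    intro e he
    obtain ⟨x, hx⟩ := (memE e).mp he
    obtain ⟨u, v, h1, h2⟩ := (memC _ _).mp hx
    refine ⟨⟨x, (bd x).pt u v⟩, (memP _ _).mpr ⟨u, v, h1, rfl, h2⟩⟩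
  obtain ⟨x0, hx0⟩ : ∃ x0, Mx fam x0 := by
    obtain ⟨x, hx⟩ := hne
    obtain ⟨y, hy, -⟩ := exists_mx hfin hx
    exact ⟨y, hy⟩
  obtain ⟨e1, he1⟩ : ∃ e, e ∈ E := by
    have h3 := (htwo x0 hx0.1).three
    obtain ⟨v, hv⟩ := hdeg ⟨x0, hx0⟩ ⟨0, by change 0 < x0.1; omega⟩
    exact ⟨_, (memE _).mpr ⟨⟨x0, hx0⟩, (memC _ _).mpr ⟨_, v, hv, rfl⟩⟩⟩
  have : Nonempty Idx := ⟨(hidx e1 he1).choose⟩
  let K : Sym2 X → Idx := fun e => Classical.epsilon (fun k => e ∈ PtI k)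
  have hK : ∀ e ∈ E, e ∈ PtI (K e) := fun e he =>
    Classical.epsilon_spec (p := fun k => e ∈ PtI k) (hidx e he)
  have hKC : ∀ e ∈ E, e ∈ CmI (K e).1.1 := fun e he => PsubC _ (hK e he)
  have hmapP : ∀ k : Idx, ∀ f ∈ PtI k, f.map (phI k) ∈ CmI ((bd k.1).V k.2) ∧
      f.map (phI k) ≠ e0I k := by
    intro k f hf
    obtain ⟨u, v, h1, h2, h3⟩ := (memP _ _).mp hf
    have h4 := ((bd k.1).hpt u v h1).2
    rw [h2] at h4
    have hu : BIn k.1.1.2 (bd k.1).pt k.2 u := ⟨v, h1, h2⟩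
    have hv : BIn k.1.1.2 (bd k.1).pt k.2 v :=
      ⟨u, h1.symm, by rw [← ((bd k.1).hpt u v h1).1]; exact h2⟩
    rw [h3, Sym2.map_mk, phI_eq, phI_eq]
    refine ⟨(memC _ _).mpr ⟨_, _, ((bd k.1).hι k.2).2 _ _ h4, rfl⟩, ?_⟩
    intro h5
    simp only [e0I] at h5
    rw [Sym2.eq_iff] at h5
    rcases h5 with ⟨h6, h7⟩ | ⟨h6, h7⟩
    · exact (bd k.1).hnon k.2 u v hu hv
        (((bd k.1).hι k.2).1 (eq_of_heq (Sigma.mk.inj h6).2))
        (((bd k.1).hι k.2).1 (eq_of_heq (Sigma.mk.inj h7).2)) h1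
    · exact (bd k.1).hnon k.2 v u hv hu
        (((bd k.1).hι k.2).1 (eq_of_heq (Sigma.mk.inj h7).2))
        (((bd k.1).hι k.2).1 (eq_of_heq (Sigma.mk.inj h6).2)) h1.symm
  have hmapE : ∀ k : Idx, ∀ f ∈ PtI k, f.map (phI k) ∈ E := fun k f hf =>
    (memE _).mpr ⟨⟨(bd k.1).V k.2, (bd k.1).hV k.2⟩, (hmapP k f hf).1⟩
  have hKmap : ∀ e ∈ E, (K (e.map (phI (K e)))).1.1 = (bd (K e).1).V (K e).2 := by
    intro e he
    exact sameC _ _ _ (hKC _ (hmapE _ _ (hK e he))) (hmapP _ _ (hK e he)).1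
  have hstE : ∀ e ∈ E, (PtI (K e)).Nonempty := fun e he => ⟨e, hK e he⟩
  have hfinal := hG X E (fun e => CmI (K e).1.1) (fun e => PtI (K e)) (fun e => phI (K e))
    (fun e => e0I (K e)) (fun e => ⟨(K e).1.1, sv (K e)⟩) (fun e => ⟨(K e).1.1, tv (K e)⟩)
    ?_ ?_ ?_ ?_ ?_ ?_ ?_
  · rw [hfinal] at he1
    exact absurd he1 (Finset.notMem_empty e1)
  · intro e he
    refine ⟨hK e he, PsubC _, ?_, twoC _, notAll _⟩
    intro f hf
    exact (memE f).mpr ⟨(K e).1, hf⟩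
  · intro e he f hf
    have hfE : f ∈ E := (memE f).mpr ⟨(K e).1, hf⟩
    have h1 := sameC _ _ _ (hKC f hfE) hf
    change CmI (K f).1.1 = CmI (K e).1.1
    rw [h1]
  · intro e he hmem
    obtain ⟨h1, h2, h3, h4⟩ := hst (K e) (hstE e he)
    obtain ⟨u, v, h5, h6⟩ := (memC _ _).mp hmem
    rw [Sym2.eq_iff] at h6
    rcases h6 with ⟨h7, h8⟩ | ⟨h7, h8⟩
    · have h9 : sv (K e) = u := eq_of_heq (Sigma.mk.inj h7).2
      have h10 : tv (K e) = v := eq_of_heq (Sigma.mk.inj h8).2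
      rw [← h9, ← h10] at h5
      exact (bd (K e).1).hnon _ _ _ h1 h2 h3 h4 h5
    · have h9 : sv (K e) = v := eq_of_heq (Sigma.mk.inj h7).2
      have h10 : tv (K e) = u := eq_of_heq (Sigma.mk.inj h8).2
      rw [← h9, ← h10] at h5
      exact (bd (K e).1).hnon _ _ _ h1 h2 h3 h4 h5.symm
  · intro e he v f hf hvf f' hf' hnf' hvf'
    obtain ⟨h1, h2, h3, h4⟩ := hst (K e) (hstE e he)
    obtain ⟨w, hw1, hw2⟩ := (vtxP (K e) v).mp ⟨f, hf, hvf⟩
    obtain ⟨u', v', h5, h6⟩ := (memC _ _).mp hf'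
    have hboth : (bd (K e).1).φ (K e).2 w = (bd (K e).1).a (K e).2 ∨
        (bd (K e).1).φ (K e).2 w = (bd (K e).1).b (K e).2 := by
      rw [h6, Sym2.mem_iff, hw1] at hvf'
      rcases hvf' with h7 | h7
      · have h8 : w = u' := eq_of_heq (Sigma.mk.inj h7).2
        rw [h6, ← h8] at hnf'
        rw [← h8] at h5
        exact (bd (K e).1).hsh _ _ w (fun h => hnf' ((adjP _ w v' h5).mpr h.symm)) hw2
          ⟨v', h5, rfl⟩
      · have h8 : w = v' := eq_of_heq (Sigma.mk.inj h7).2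
        rw [h6, ← h8, Sym2.eq_swap] at hnf'
        rw [← h8] at h5
        exact (bd (K e).1).hsh _ _ w (fun h => hnf' ((adjP _ w u' h5.symm).mpr h.symm)) hw2
          ⟨u', h5.symm, rfl⟩
    rcases hboth with h7 | h7
    · left
      rw [hw1, (bd (K e).1).hinj _ _ _ hw2 h1 (h7.trans h3.symm)]
    · right
      rw [hw1, (bd (K e).1).hinj _ _ _ hw2 h2 (h7.trans h4.symm)]
  · intro e he u v hu hv huv
    obtain ⟨u', h1, h2⟩ := (vtxP _ u).mp hu
    obtain ⟨v', h3, h4⟩ := (vtxP _ v).mp hv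
    change phI (K e) u = phI (K e) v at huv
    rw [h1, h3, phI_eq, phI_eq] at huv
    have h5 := ((bd (K e).1).hι (K e).2).1 (eq_of_heq (Sigma.mk.inj huv).2)
    rw [h1, h3, (bd (K e).1).hinj _ _ _ h2 h4 h5]
  · intro e he
    obtain ⟨h1, h2, h3, h4⟩ := hst (K e) (hstE e he)
    refine ⟨hmapE _ _ (hK e he), ?_, ?_⟩
    · change e0I (K e) ∈ CmI (K (e.map (phI (K e)))).1.1
      rw [hKmap e he]
      exact (memC _ _).mpr ⟨_, _, ((bd (K e).1).hι (K e).2).2 _ _ ((bd (K e).1).hU (K e).2).2,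
        rfl⟩
    · change s(phI (K e) ⟨(K e).1.1, sv (K e)⟩, phI (K e) ⟨(K e).1.1, tv (K e)⟩) = e0I (K e)
      rw [phI_eq, phI_eq, h3, h4]
  · intro e he f hf
    change f.map (phI (K e)) ∈ CmI (K (e.map (phI (K e)))).1.1 ∧ _
    rw [hKmap e he]
    exact hmapP _ f hf

end MP3240G
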