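import Mathlib
import Pool.Agent.Lib.MP_3240be_co.H62.Defs
import Pool.Agent.Lib.MP_3240be_co.Q22.Gmb

/-!
# MP_3240be_co, Theorem T2: row GMC

The graph `K_(2h, m)`.
-/

set_option autoImplicit false

namespace MP3240G

open Finset
open MP3240Q (Mono SG)
open MP3240Q.GmbAux

theorem natCard_filter {k : ℕ} (κ : Fin k → Bool) (c : Bool) :
    Nat.card {v // κ v = c} = (univ.filter (fun v => κ v = c)).card := by
  classical
  rw [Nat.card_eq_fintype_card, Fintype.card_subtype]

/-- In a connected graph two proper 2-colourings agree or are complementary. -/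
theorem two_colourings {k : ℕ} (D : SimpleGraph (Fin k)) (hD : D.Connected)
    (κ κ' : Fin k → Bool) (hκ : ∀ x y, D.Adj x y → κ x ≠ κ y)
    (hκ' : ∀ x y, D.Adj x y → κ' x ≠ κ' y) :
    (∀ v, κ' v = κ v) ∨ ∀ v, κ' v = !κ v := by
  obtain ⟨v0⟩ := hD.nonempty
  have key : ∀ u v : Fin k, D.Walk u v → (κ u == κ' u) = (κ v == κ' v) := by
    intro u v p
    induction p with
    | nil => rfl
    | cons hadj _ ih =>
      rw [← ih]
      have e1 := hκ _ _ hadj
      have e2 := hκ' _ _ hadj
      revert e1 e2
      generalize κ _ = a1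
      generalize κ' _ = a2
      generalize κ _ = a3
      generalize κ' _ = a4
      cases a1 <;> cases a2 <;> cases a3 <;> cases a4 <;> decide
  have hall : ∀ v, (κ v0 == κ' v0) = (κ v == κ' v) := by
    intro v
    obtain ⟨p⟩ := hD.preconnected v0 v
    exact key _ _ p
  cases hb : (κ v0 == κ' v0) with
  | true =>
    left
    intro v
    have h := hall v
    rw [hb] at h
    exact (beq_iff_eq.1 h.symm).symm
  | false =>
    right
    intro v
    have h := hall v
    rw [hb] at h
    revert h
    cases κ v <;> cases κ' v <;> decide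

theorem gmc_proof : GmcStatement := by
  classical
  intro h Tn fam hh hTn hfam htiny hbi
  obtain ⟨T1, hT1⟩ : ∃ T, ∀ x ∈ Tn, x.1 ≤ T := by
    obtain ⟨T, hT⟩ := (hTn.image (fun x : SG => x.1)).bddAbove
    exact ⟨T, fun x hx => hT ⟨x, hx, rfl⟩⟩
  obtain ⟨T2, hT2⟩ : ∃ T, ∀ x ∈ fam, x.1 ≤ T := by
    obtain ⟨T, hT⟩ := (hfam.image (fun x : SG => x.1)).bddAbove
    exact ⟨T, fun x hx => hT ⟨x, hx, rfl⟩⟩
  set T' := max T1 T2 with hT'
  set m := Fintype.card (Fin (2 * h) → Bool) * T' with hm
  refine ⟨Fin (2 * h) ⊕ Fin m, inferInstance, Kg (2 * h) m, ?_, ?_⟩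
  · refine ⟨good h m, good_symm h m, ?_⟩
    intro k D hD hκ c f
    obtain ⟨κ, hκ⟩ := hκ
    refine good_none D ?_ c f
    intro κ' hκ'
    rw [natCard_filter]
    rcases two_colourings D hD κ κ' hκ.prop hκ' with h1 | h1
    · have e : (univ.filter (fun v => κ' v = true)) = univ.filter (fun v => κ v = true) := by
        refine Finset.filter_congr (fun v _ => ?_)
        rw [h1 v]
      rw [e, hκ.cardA]
      exact Nat.lt_succ_self h
    · have e : (univ.filter (fun v => κ' v = true)) = univ.filter (fun v => κ v = false) := by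
        refine Finset.filter_congr (fun v _ => ?_)
        rw [h1 v]
        cases κ v <;> simp
      rw [e]
      exact hκ.cardB
  · intro C hC c
    let pat : Fin m → Fin (2 * h) → Bool := fun j i => C (Sum.inl i) (Sum.inr j)
    obtain ⟨π, hπ⟩ := Fintype.exists_le_card_fiber_of_mul_le_card pat (n := T')
      (by rw [Fintype.card_fin])
    obtain ⟨e⟩ : Nonempty (Fin T' ↪ {j // pat j = π}) := by
      apply Function.Embedding.nonempty_of_card_le
      rw [Fintype.card_fin, Fintype.card_subtype]
      exact hπ
    have hg : Function.Injective (fun j => (e j).1) :=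
      fun i j hij => e.injective (Subtype.ext hij)
    have hpat : ∀ i j, C (Sum.inl i) (Sum.inr (e j).1) = π i := fun i j =>
      congrFun (e j).2 i
    have hti : ∀ c, h ≤ Nat.card {i // π i = c} →
        ∀ x ∈ Tn, ∃ g, Mono (Kg (2 * h) m) C x.2 c g := by
      intro c hc x hx
      obtain ⟨κ, h1, h2⟩ := htiny x hx
      refine embed x.2 κ h1 C hC π c ?_ ((hT1 x hx).trans (le_max_left T1 T2)) _ hg hpat
      rw [natCard_filter]
      exact h2.trans hc
    have hadd := card_add π
    by_cases hcase : h ≤ Nat.card {i // π i = c}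
    · exact Or.inl (hti c hcase)
    · right
      have hc' : h + 1 ≤ Nat.card {i // π i = (!c)} := by
        push Not at hcase
        cases c
        · show h + 1 ≤ Nat.card {i // π i = true}
          omega
        · show h + 1 ≤ Nat.card {i // π i = false}
          omega
      rintro x (hx | hx)
      · exact hti (!c) (by omega) x hx
      · obtain ⟨κ, hκ⟩ := hbi x hx
        refine embed x.2 κ hκ.prop C hC π (!c) ?_ ((hT2 x hx).trans (le_max_right T1 T2)) _ hg
          hpat
        rw [natCard_filter, hκ.cardA]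
        exact hc'

end MP3240G
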