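import Mathlib
import Pool.Agent.Lib.MP_3240be_co.H62.Defs
import Pool.Agent.Lib.MP_3240be_co.H62.Gmc
import Pool.Agent.Lib.MP_3240be_co.H43.Cross

/-!
# MP_3240be_co, Theorem T2: row NCD
-/

set_option autoImplicit false

namespace MP3240G

open Finset
open MP3240Q (Mono SG)
open Pool.Agent.Lib.MP_3240be_co.H82 (TC)

/-- Every vertex has a neighbour other than `c`. -/
theorem TwoCn.nbr {n : ℕ} {U : SimpleGraph (Fin n)} (hU : TwoCn U) (c v : Fin n) (hv : v ≠ c) :
    ∃ y, U.Adj v y ∧ y ≠ c := by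
  obtain ⟨w, hwc, hwv⟩ := MP3240WC.third hU.three c v
  obtain ⟨p⟩ := (hU.cut c).preconnected ⟨v, hv⟩ ⟨w, hwc⟩
  cases p with
  | nil => exact absurd rfl hwv
  | cons h _ =>
    rename_i y _
    exact ⟨y.1, h, y.2⟩

theorem nc_of_not_conn {n h : ℕ} (U : SimpleGraph (Fin n)) (hU : TwoCn U) (κ : Fin n → Bool)
    (hκ : Bi U κ h) (c d : Fin n) (hc : κ c = true) (hd : κ d = false)
    (hn : ¬ (U.induce {x | x ≠ c ∧ x ≠ d}).Connected) : Nonempty (Nc U κ) := by
  classical
  have hne : Nonempty {x | x ≠ c ∧ x ≠ d} := by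
    obtain ⟨z, h1, h2⟩ := MP3240WC.third hU.three c d
    exact ⟨⟨z, h1, h2⟩⟩
  have hnp : ¬ (U.induce {x | x ≠ c ∧ x ≠ d}).Preconnected := by
    intro hp
    exact hn { preconnected := hp, nonempty := hne }
  unfold SimpleGraph.Preconnected at hnp
  push Not at hnp
  obtain ⟨x0, y0, hxy⟩ := hnp
  let σ : Fin n → Bool := fun x =>
    decide (∃ hx : x ≠ c ∧ x ≠ d, (U.induce {x | x ≠ c ∧ x ≠ d}).Reachable x0 ⟨x, hx⟩)
  have hσ : ∀ x, σ x = true ↔
      ∃ hx : x ≠ c ∧ x ≠ d, (U.induce {x | x ≠ c ∧ x ≠ d}).Reachable x0 ⟨x, hx⟩ := by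
    intro x
    simp [σ]
  have hstep : ∀ x y, x ≠ c → x ≠ d → y ≠ c → y ≠ d → U.Adj x y → σ x = true → σ y = true := by
    intro x y hxc hxd hyc hyd hadj hx
    obtain ⟨h1, h2⟩ := (hσ x).1 hx
    refine (hσ y).2 ⟨⟨hyc, hyd⟩, h2.trans ?_⟩
    exact SimpleGraph.Adj.reachable (show (U.induce {x | x ≠ c ∧ x ≠ d}).Adj ⟨x, h1⟩ ⟨y, ⟨hyc, hyd⟩⟩
      from hadj)
  have hsep : ∀ x y, x ≠ c → x ≠ d → y ≠ c → y ≠ d → U.Adj x y → σ x = σ y := by
    intro x y hxc hxd hyc hyd hadj
    cases hx : σ x with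
    | true => exact (hstep x y hxc hxd hyc hyd hadj hx).symm
    | false =>
      cases hy : σ y with
      | false => rfl
      | true =>
        have := hstep y x hyc hyd hxc hxd hadj.symm hy
        rw [hx] at this
        exact absurd this (by decide)
  -- from any vertex to a vertex of the class of `c`
  have hgo : ∀ x, x ≠ c → x ≠ d → ∃ y, κ y = true ∧ y ≠ c ∧ σ y = σ x := by
    intro x hxc hxd
    cases hx : κ x with
    | true => exact ⟨x, hx, hxc, rfl⟩
    | false =>
      obtain ⟨y, hxy, hyc⟩ := hU.nbr c x hxc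
      have hy : κ y = true := by
        have := hκ.prop x y hxy
        rw [hx] at this
        cases hk : κ y with
        | true => rfl
        | false => rw [hk] at this; exact absurd rfl this
      have hyd : y ≠ d := by
        intro e
        rw [e, hd] at hy
        exact absurd hy (by decide)
      exact ⟨y, hy, hyc, (hsep x y hxc hxd hyc hyd hxy).symm⟩
  refine ⟨{ c := c, d := d, σ := σ, hc := hc, hd := hd, sep := hsep, side := ?_ }⟩
  intro s
  cases s with
  | true =>
    obtain ⟨y, h1, h2, h3⟩ := hgo x0.1 x0.2.1 x0.2.2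
    refine ⟨y, h1, h2, h3.trans ((hσ x0.1).2 ⟨x0.2, SimpleGraph.Reachable.refl _⟩)⟩
  | false =>
    obtain ⟨y, h1, h2, h3⟩ := hgo y0.1 y0.2.1 y0.2.2
    refine ⟨y, h1, h2, h3.trans ?_⟩
    cases hy : σ y0.1 with
    | false => rfl
    | true =>
      obtain ⟨h4, h5⟩ := (hσ y0.1).1 hy
      exact absurd h5 hxy

theorem ncd_proof : NcdStatement := by
  classical
  intro h x hx
  obtain ⟨hU, κ, hκ⟩ := hx
  refine ⟨?_, ?_⟩
  · intro hnc
    unfold Cross at hnc
    push Not at hnc
    obtain ⟨κ', hκ', a, b, hab, hn⟩ := hnc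
    have hne : κ a ≠ κ b := by
      rcases two_colourings x.2 hU.conn κ κ' hκ.prop hκ' with h1 | h1
      · rw [h1 a, h1 b] at hab
        exact hab
      · rw [h1 a, h1 b] at hab
        intro e
        rw [e] at hab
        exact hab rfl
    refine ⟨κ, hκ, ?_⟩
    cases ha : κ a with
    | true =>
      have hb : κ b = false := by
        cases hb : κ b with
        | false => rfl
        | true => rw [ha, hb] at hne; exact absurd rfl hne
      exact nc_of_not_conn x.2 hU κ hκ a b ha hb hn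
    | false =>
      have hb : κ b = true := by
        cases hb : κ b with
        | true => rfl
        | false => rw [ha, hb] at hne; exact absurd rfl hne
      refine nc_of_not_conn x.2 hU κ hκ b a hb ha ?_
      have e : {x : Fin _ | x ≠ b ∧ x ≠ a} = {x | x ≠ a ∧ x ≠ b} := by
        ext z
        exact and_comm
      rw [e]
      exact hn
  · intro hc
    refine MP3240WC.tc_of_cross ⟨hU.three, κ, hκ.prop, ?_, ?_⟩
    · intro a
      have e : {x : Fin _ | x ≠ a ∧ x ≠ a} = {x | x ≠ a} := by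
        ext z
        exact and_self_iff
      unfold MP3240WC.StaysConnected
      rw [e]
      exact hU.cut a
    · intro a b hab
      exact hc κ hκ.prop a b hab

end MP3240G
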