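import Mathlib
import Pool.Agent.Lib.MP_3240be_co.H62.Defs
import Pool.Agent.Lib.MP_3240be_co.Q22.Nfh

set_option autoImplicit false

/-!
# Theorem T2, row NFB: no monochromatic `H'` in the intended colouring of the host
-/

namespace MP3240G

open MP3240Q (Mono Cop Bip SG Sub em Gl Lin XS St Host LinStatement em_inj' em_shared)
open Pool.Agent.Lib.MP_3240be_co.H82 (TC Good exists_colouring)
open Pool.Agent.Lib.MP_3240be_co.H36.Chrom (Sparse ArrowsT Leaf)

theorem TwoCn.ne' {k : ℕ} {D : SimpleGraph (Fin k)} (hD : TwoCn D) : Nonempty (Fin k) :=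
  ⟨⟨0, by have := hD.three; omega⟩⟩

/-- Closed sets in a connected graph. -/
theorem nfb_closed {V : Type} {G : SimpleGraph V} (h : G.Connected) (A : V → Prop)
    (hA : ∃ x, A x) (hcl : ∀ x y, G.Adj x y → A x → A y) : ∀ y, A y := by
  intro y
  obtain ⟨x, hx⟩ := hA
  obtain ⟨w⟩ := h.preconnected x y
  induction w with
  | nil => exact hx
  | cons hadj w ih => exact ih (hcl _ _ hadj hx)

theorem TwoCn.sep1' {k : ℕ} {D : SimpleGraph (Fin k)} (hD : TwoCn D) (I : Fin k → Prop)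
    (hI : ∀ x y, I x → I y → x = y) (A : Fin k → Prop) (hA : ∃ x, ¬ I x ∧ A x)
    (hcl : ∀ x y, ¬ I x → ¬ I y → D.Adj x y → A x → A y) : ∀ y, ¬ I y → A y := by
  intro y hy
  by_cases h : ∃ a, I a
  · obtain ⟨a, ha⟩ := h
    have hn : ∀ x, x ≠ a → ¬ I x := fun x hx hIx => hx (hI _ _ hIx ha)
    have hya : y ≠ a := fun e => hy (e ▸ ha)
    obtain ⟨x, hx, hAx⟩ := hA
    have hxa : x ≠ a := fun e => hx (e ▸ ha)
    exact nfb_closed (hD.cut a) (fun z => A z.1) ⟨⟨x, hxa⟩, hAx⟩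
      (fun u v huv hu => hcl u.1 v.1 (hn _ u.2) (hn _ v.2) huv hu) ⟨y, hya⟩
  · have hn : ∀ x, ¬ I x := fun x hx => h ⟨x, hx⟩
    obtain ⟨x, _, hAx⟩ := hA
    exact nfb_closed hD.conn A ⟨x, hAx⟩ (fun u v huv hu => hcl u v (hn _) (hn _) huv hu) y

theorem TwoCn.nbr' {k : ℕ} {D : SimpleGraph (Fin k)} (hD : TwoCn D) (x : Fin k) :
    ∃ y, D.Adj x y := by
  by_contra hcon
  push Not at hcon
  have h3 := hD.three
  have hall := nfb_closed hD.conn (fun y => y = x) ⟨x, rfl⟩ (by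
    intro u v huv hu
    exact absurd (hu ▸ huv) (hcon v))
  have h1 := hall ⟨0, by omega⟩
  have h2 := hall ⟨1, by omega⟩
  have h4 := congrArg Fin.val (h1.trans h2.symm)
  simp at h4

/-- A copy of the 2-connected graph `D` in a union of pieces glued at single vertices along a
sparse family lies in one piece. -/
theorem one_two {k : ℕ} {D : SimpleGraph (Fin k)} (hD : TwoCn D) (M : Type)
    (mm : Fin k → Fin k → M) (In : M → Fin k → Prop)
    (hIn : ∀ i j, D.Adj i j → In (mm i j) i ∧ In (mm i j) j)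
    (hleaf : ∀ S : Finset M, 2 ≤ S.card → S.card ≤ k * k → ∃ m ∈ S, ∀ i j, In m i → In m j →
      (∃ m' ∈ S, m' ≠ m ∧ In m' i) → (∃ m' ∈ S, m' ≠ m ∧ In m' j) → i = j) :
    ∃ m, ∀ i j, D.Adj i j → mm i j = m := by
  classical
  obtain ⟨x0⟩ := hD.ne'
  obtain ⟨y0, hxy0⟩ := hD.nbr' x0
  let S : Finset M := ((Finset.univ : Finset (Fin k × Fin k)).filter
    (fun p => D.Adj p.1 p.2)).image (fun p => mm p.1 p.2)
  have hS : ∀ i j, D.Adj i j → mm i j ∈ S := fun i j hij =>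
    Finset.mem_image.2 ⟨(i, j), Finset.mem_filter.2 ⟨Finset.mem_univ _, hij⟩, rfl⟩
  have hScard : S.card ≤ k * k := by
    refine Finset.card_image_le.trans ((Finset.card_filter_le _ _).trans ?_)
    rw [Finset.card_univ, Fintype.card_prod, Fintype.card_fin]
  by_cases hS2 : 2 ≤ S.card
  · exfalso
    obtain ⟨m, hm, hI1⟩ := hleaf S hS2 hScard
    obtain ⟨⟨p1, q1⟩, hpq1, hpqm⟩ := Finset.mem_image.1 hm
    have hadj1 : D.Adj p1 q1 := (Finset.mem_filter.1 hpq1).2
    simp only at hpqm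
    have hin1 := hIn p1 q1 hadj1
    rw [hpqm] at hin1
    have hI : ∀ i j, (In m i ∧ ∃ m' ∈ S, m' ≠ m ∧ In m' i) →
        (In m j ∧ ∃ m' ∈ S, m' ≠ m ∧ In m' j) → i = j := fun i j hi hj =>
      hI1 i j hi.1 hj.1 hi.2 hj.2
    have hall := hD.sep1' (fun i => In m i ∧ ∃ m' ∈ S, m' ≠ m ∧ In m' i) hI (fun i => In m i) (by
      by_cases h1 : In m p1 ∧ ∃ m' ∈ S, m' ≠ m ∧ In m' p1
      · exact ⟨q1, fun h2 => hadj1.ne (hI _ _ h1 h2), hin1.2⟩
      · exact ⟨p1, h1, hin1.1⟩) (by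
      intro i j hi _ hij hmi
      by_cases h1 : mm i j = m
      · have := (hIn i j hij).2
        rwa [h1] at this
      · exact absurd ⟨hmi, mm i j, hS i j hij, h1, (hIn i j hij).1⟩ hi)
    -- another piece
    obtain ⟨m', hm', hne'⟩ : ∃ m' ∈ S, m' ≠ m := by
      by_contra hcon
      push Not at hcon
      have : S ⊆ {m} := fun l hl => Finset.mem_singleton.2 (hcon l hl)
      have := Finset.card_le_card this
      rw [Finset.card_singleton] at this
      omega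
    obtain ⟨⟨p2, q2⟩, hpq2, hpqm2⟩ := Finset.mem_image.1 hm'
    have hadj2 : D.Adj p2 q2 := (Finset.mem_filter.1 hpq2).2
    simp only at hpqm2
    have hin2 := hIn p2 q2 hadj2
    rw [hpqm2] at hin2
    have hI2 : ∀ i, In m' i → In m i ∧ ∃ m' ∈ S, m' ≠ m ∧ In m' i := by
      intro i hi
      by_contra hc
      exact hc ⟨hall i hc, m', hm', hne', hi⟩
    exact hadj2.ne (hI _ _ (hI2 _ hin2.1) (hI2 _ hin2.2))
  · refine ⟨mm x0 y0, fun i j hij => ?_⟩
    by_contra hne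
    apply hS2
    exact Finset.one_lt_card.2 ⟨_, hS i j hij, _, hS x0 y0 hxy0, hne⟩

/-- Row NFB. -/
theorem nfb_proof (hLin : LinStatement) : NfbStatement := by
  classical
  intro k n n' D H H' hD hconn hyes hno G L I M S C₀ δ hS hδ hsp harr
  have hlin : Lin δ := hLin L I M δ (k * k + 2) (by omega) hsp
  have hei : ∀ m, Function.Injective (em δ m : L ⊕ (G × Fin n) → I ⊕ (M × (G × Fin n))) :=
    em_inj' hδ
  -- the colouring of the host
  obtain ⟨C, hC1, hC2⟩ := exists_colouring (J := M) (U := fun _ => L ⊕ (G × Fin n)) (fun _ => S)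
    (fun m => em δ m) (fun _ => C₀) (fun _ => hS.symm) (by
      intro m m' u v u' v' huv hu'v' h1 h2
      by_cases hm : m = m'
      · subst hm
        rw [hei m h1, hei m h2]
      · exfalso
        obtain ⟨l, l', rfl, _, e1⟩ := em_shared hm h1
        obtain ⟨s, s', rfl, _, e2⟩ := em_shared hm h2
        have e3 := hδ m (hlin m m' l l' s s' hm e1 e2)
        rw [e3] at huv
        exact huv.ne rfl)
  obtain ⟨b, f', hf', hmono⟩ := harr C hC1
  obtain ⟨j, hj1, hj2⟩ := hyes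
  -- the copy of `D`
  have hfi : Function.Injective (fun v => f' (j v)) := hf'.comp hj1
  have hedge : ∀ x y, D.Adj x y → ∃ m u v, S.Adj u v ∧ em δ m u = f' (j x) ∧
      em δ m v = f' (j y) := by
    intro x y hxy
    exact (hmono _ _ (hj2 x y hxy)).1.2
  let mm : Fin k → Fin k → M := fun x y => if h : D.Adj x y then (hedge x y h).choose else
    (hedge (hD.ne'.some) (hD.nbr' hD.ne'.some).choose (hD.nbr' hD.ne'.some).choose_spec).choose
  have hmm : ∀ x y, D.Adj x y → ∃ u v, S.Adj u v ∧ em δ (mm x y) u = f' (j x) ∧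
      em δ (mm x y) v = f' (j y) := by
    intro x y hxy
    have : mm x y = (hedge x y hxy).choose := dif_pos hxy
    rw [this]
    exact (hedge x y hxy).choose_spec
  obtain ⟨m, hm⟩ := one_two hD M mm (fun m v => ∃ u, em δ m u = f' (j v))
    (fun x y hxy => by
      obtain ⟨u, v, _, h1, h2⟩ := hmm x y hxy
      exact ⟨⟨u, h1⟩, ⟨v, h2⟩⟩)
    (by
      intro T hT1 hT2
      obtain ⟨m, hmT, _, _, _, hleaf, _⟩ := hsp T hT1 (by omega)
      refine ⟨m, hmT, ?_⟩
      rintro x y ⟨u, hu⟩ ⟨v, hv⟩ ⟨m', hm'T, hm', u', hu'⟩ ⟨m'', hm''T, hm'', v', hv'⟩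
      obtain ⟨l, l', rfl, _, e1⟩ := em_shared (Ne.symm hm') (hu.trans hu'.symm)
      obtain ⟨s, s', rfl, _, e2⟩ := em_shared (Ne.symm hm'') (hv.trans hv'.symm)
      have e3 := hδ m (hleaf m' hm'T m'' hm''T hm' hm'' l l' s s' e1 e2)
      apply hfi
      show f' (j x) = f' (j y)
      rw [← hu, ← hv, e3])
  have hin : ∀ v, ∃ u, em δ m u = f' (j v) := by
    intro v
    obtain ⟨w, hw⟩ := hD.nbr' v
    obtain ⟨u, u', _, h1, _⟩ := hmm v w hw
    rw [hm v w hw] at h1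
    exact ⟨u, h1⟩
  choose g hg using hin
  have hgi : Function.Injective g := by
    intro x y hxy
    apply hfi
    show f' (j x) = f' (j y)
    rw [← hg, ← hg, hxy]
  have hgm : Mono S C₀ D b g := by
    refine ⟨hgi, ?_⟩
    intro x y hxy
    obtain ⟨u, u', huu, h1, h2⟩ := hmm x y hxy
    rw [hm x y hxy] at h1 h2
    have e1 : u = g x := hei m (h1.trans (hg x).symm)
    have e2 : u' = g y := hei m (h2.trans (hg y).symm)
    rw [e1, e2] at huu
    refine ⟨huu, ?_⟩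
    have h3 := hC2 m (g x) (g y) huu
    rw [hg, hg] at h3
    rw [← h3]
    exact (hmono _ _ (hj2 x y hxy)).2
  have hpass := hS.only b g hgm
  -- the colour is red
  obtain ⟨⟨g₀, q₀⟩, hq₀⟩ := hpass hD.ne'.some
  have hb : b = true := by
    obtain ⟨y, hxy⟩ := hD.nbr' hD.ne'.some
    obtain ⟨⟨g₁, q'⟩, hq'⟩ := hpass y
    obtain ⟨h1, h2⟩ := hgm.2 _ _ hxy
    rw [hq₀, hq'] at h1 h2
    obtain ⟨rfl, h3⟩ := (hS.pat g₀ g₁ q₀ q').1 h1
    rw [← h2]
    exact hS.isred g₀ q₀ q' h3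
  subst hb
  -- one step in the red graph
  have hstep : ∀ q y, (Gl S δ).Adj (Sum.inr (m, (g₀, q))) y →
      C (Sum.inr (m, (g₀, q))) y = true → ∃ q', y = Sum.inr (m, (g₀, q')) ∧ H.Adj q q' := by
    rintro q y ⟨_, m', u, v, huv, h1, h2⟩ hc
    have e : m' = m ∧ u = Sum.inr (g₀, q) := by
      rcases u with l | q₁
      · cases h1
      · have h3 := Prod.ext_iff.1 (Sum.inr_injective h1)
        exact ⟨h3.1, congrArg Sum.inr h3.2⟩
    obtain ⟨rfl, rfl⟩ := e
    have h3 := hC2 m' (Sum.inr (g₀, q)) v huv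
    rw [h2] at h3
    have h4 : C₀ (Sum.inr (g₀, q)) v = true := by
      rw [← h3]
      exact hc
    obtain ⟨⟨g₁, q'⟩, rfl⟩ := hS.red (g₀, q) v huv h4
    obtain ⟨rfl, h5⟩ := (hS.pat g₀ g₁ q q').1 huv
    exact ⟨q', h2.symm, h5⟩
  have hall : ∀ x, ∃ q, f' x = Sum.inr (m, (g₀, q)) := by
    intro x
    obtain ⟨w⟩ := hconn.preconnected (j hD.ne'.some) x
    have main : ∀ (u v : Fin n') (w : H'.Walk u v), (∃ q, f' u = Sum.inr (m, (g₀, q))) →
        ∃ q, f' v = Sum.inr (m, (g₀, q)) := by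
      intro u v w
      induction w with
      | nil => exact fun h => h
      | cons hadj w ih =>
        rintro ⟨q, hq⟩
        apply ih
        obtain ⟨h1, h2⟩ := hmono _ _ hadj
        rw [hq] at h1 h2
        obtain ⟨q', h3, _⟩ := hstep q _ h1 h2
        exact ⟨q', h3⟩
    refine main _ _ w ⟨q₀, ?_⟩
    rw [← hg, hq₀]
    rfl
  choose r hr using hall
  apply hno
  refine ⟨r, ?_, ?_⟩
  · intro x y hxy
    exact hf' (by rw [hr, hr, hxy])
  · intro x y hxy
    obtain ⟨h1, h2⟩ := hmono _ _ hxy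
    rw [hr x] at h1 h2
    obtain ⟨q', h3, h4⟩ := hstep _ _ h1 h2
    rw [hr y] at h3
    have h5 := (Prod.ext_iff.1 (Prod.ext_iff.1 (Sum.inr_injective h3)).2).2
    simp only at h5
    rw [h5]
    exact h4

end MP3240G
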