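import Pool.Agent.Lib.MP_3240be_co.H62.Defs

/-! Row PGD of the board btt_modules (helper70). -/

set_option autoImplicit false

namespace MP3240G

open MP3240Q (Mono Cop Bip SG Sub XS Nb TypStatement LinStatement Lin)
open Pool.Agent.Lib.MP_3240be_co.H36.Chrom (Sparse)

/-- A vertex of a 2-connected graph has a neighbour different from a given vertex. -/
theorem pgd_nbr {k : ℕ} {D : SimpleGraph (Fin k)} (hD : TwoCn D) {a b : Fin k} (hab : a ≠ b) :
    ∃ w, w ≠ a ∧ w ≠ b ∧ D.Adj a w := by
  classical
  have hc := hD.cut b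
  obtain ⟨w, hwa, hwb⟩ : ∃ w : Fin k, w ≠ a ∧ w ≠ b := by
    by_contra hcon
    push Not at hcon
    have h1 : (Finset.univ : Finset (Fin k)) ⊆ {a, b} := by
      intro w _
      by_cases hwa : w = a
      · simp [hwa]
      · simp [hcon w hwa]
    have h2 := Finset.card_le_card h1
    have h3 : ({a, b} : Finset (Fin k)).card ≤ 2 := Finset.card_le_two
    have h4 := hD.three
    simp only [Finset.card_univ, Fintype.card_fin] at h2
    omega
  have hne : (⟨a, hab⟩ : {x : Fin k | x ≠ b}) ≠ ⟨w, hwb⟩ := by
    intro h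
    exact hwa (Subtype.ext_iff.1 h).symm
  have hr : (D.induce {x | x ≠ b}).Reachable ⟨a, hab⟩ ⟨w, hwb⟩ := hc.preconnected _ _
  obtain ⟨p⟩ := hr
  cases p with
  | nil => exact absurd rfl hne
  | @cons _ v _ h p =>
    have h' : D.Adj a v.1 := h
    exact ⟨v.1, h'.ne', v.2, h'⟩

/-- The base of the blob graph. -/
theorem pgd_base {Λ : Type} {n N n' : ℕ} (U : Λ → SG) (a b : ∀ l, Fin (U l).1)
    (B : SimpleGraph (Fin n)) (B' : SimpleGraph (Fin n')) (x y : Fin n) :
    (GB U a b B B' : SimpleGraph (RB U n N n' ⊕ Fin n)).Adj (Sum.inr x) (Sum.inr y) ↔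
      B.Adj x y := by
  unfold GB
  rw [SimpleGraph.fromRel_adj]
  constructor
  · rintro ⟨-, h | h⟩
    · rcases h with ⟨x', y', h1, h2, h3⟩ | ⟨_, _, _, h2, _⟩ | ⟨_, _, _, _, _, _, _, _, _, _, _, _, h2, _⟩ |
        ⟨_, _, _, _, _, _, _, _, _, _, h3⟩ | ⟨_, _, _, _, _, _, _, _, _, _, h3⟩
      · rw [Sum.inr_injective h2, Sum.inr_injective h3]
        exact h1
      · exact absurd h2 (by simp)
      · exact absurd h2 (by simp)
      · exact absurd h3 (by simp)
      · exact absurd h3 (by simp)
    · rcases h with ⟨x', y', h1, h2, h3⟩ | ⟨_, _, _, h2, _⟩ | ⟨_, _, _, _, _, _, _, _, _, _, _, _, h2, _⟩ |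
        ⟨_, _, _, _, _, _, _, _, _, _, h3⟩ | ⟨_, _, _, _, _, _, _, _, _, _, h3⟩
      · rw [Sum.inr_injective h2, Sum.inr_injective h3]
        exact h1.symm
      · exact absurd h2 (by simp)
      · exact absurd h2 (by simp)
      · exact absurd h3 (by simp)
      · exact absurd h3 (by simp)
  · intro h
    exact ⟨fun e => h.ne (Sum.inr_injective e), Or.inl (Or.inl ⟨x, y, h, rfl, rfl⟩)⟩

section

variable {h Nw : ℕ} {I M R Z : Type} (Ga : SimpleGraph (R ⊕ Z)) (δ : M → Fin Nw ⊕ R → I)

theorem pgd_zz (m m' : M) (z z' : Z) :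
    (WG Ga δ : SimpleGraph (WP h I M ⊕ (M × Z))).Adj (Sum.inr (m, z)) (Sum.inr (m', z')) ↔
      m = m' ∧ Ga.Adj (Sum.inr z) (Sum.inr z') := by
  unfold WG
  rw [SimpleGraph.fromRel_adj]
  constructor
  · rintro ⟨-, h | h⟩
    · exact h
    · exact ⟨h.1.symm, h.2.symm⟩
  · rintro ⟨rfl, h⟩
    refine ⟨?_, Or.inl ⟨rfl, h⟩⟩
    intro e
    have h1 := Sum.inr_injective e
    have h2 : z = z' := (Prod.mk.inj h1).2
    subst h2
    exact (SimpleGraph.irrefl _ h)

theorem pgd_zr (m : M) (z : Z) (r : R) (hr : Ga.Adj (Sum.inr z) (Sum.inl r)) :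
    (WG Ga δ : SimpleGraph (WP h I M ⊕ (M × Z))).Adj (Sum.inr (m, z))
      (Sum.inl (.low (δ m (Sum.inr r)))) := by
  unfold WG
  rw [SimpleGraph.fromRel_adj]
  exact ⟨by simp, Or.inl ⟨r, hr, rfl⟩⟩

theorem pgd_symm (x y : WP h I M ⊕ (M × Z)) : cG x y = cG y x := by
  classical
  unfold cG
  exact Bool.eq_iff_iff.2 (by
    rw [decide_eq_true_iff, decide_eq_true_iff]
    exact or_comm)

end

/-- Row PGD. -/
theorem pgd_proof (htyp : TypStatement) (hlin : LinStatement) (hwga : WgaStatement)
    (hwgr : WgrStatement) (hwgb : WgbStatement) (hgab : GabStatement) (hblb : BlbStatement) :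
    PgdStatement := by
  classical
  intro h k n N fam D H h1 hfam hDfam hnob hNc hH
  have hbig : Big h ⟨k, D⟩ := hfam _ hDfam
  have htwo : TwoCn D := hbig.1
  obtain ⟨κ, hκ, hnc⟩ := hNc
  have hBipD : Bip D := ⟨κ, hκ.prop⟩
  -- the parameters
  let Λ : Type := {p : Fin k × Fin k // D.Adj p.1 p.2}
  let U : Λ → SG := fun _ => ⟨k, D⟩
  let a : ∀ l : Λ, Fin (U l).1 := fun l => l.1.1
  let b : ∀ l : Λ, Fin (U l).1 := fun l => l.1.2
  let K : ℕ := k + N
  let N2 : ℕ := (N + 1) + 2 * K
  let Nw : ℕ := K * 2 ^ h
  let R : Type := RB U n N2 0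
  let Ga : SimpleGraph (R ⊕ Fin n) := GB U a b H (⊥ : SimpleGraph (Fin 0))
  have hk3 : 3 ≤ k := htwo.three
  have hNw : 2 ≤ Nw := by
    have h2 : 1 ≤ 2 ^ h := Nat.one_le_two_pow
    have h3 : K * 1 ≤ K * 2 ^ h := Nat.mul_le_mul_left K h2
    have h4 : 3 ≤ K := le_trans hk3 (Nat.le_add_right k N)
    show 2 ≤ K * 2 ^ h
    omega
  let l0 : Fin Nw ⊕ R := Sum.inl ⟨0, by omega⟩
  let l1 : Fin Nw ⊕ R := Sum.inl ⟨1, by omega⟩
  have hl01 : l0 ≠ l1 := by
    intro e
    have := Fin.mk.inj (Sum.inl_injective e)
    omega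
  have hfR : Finite R := by
    show Finite ((Σ _ : Λ, Fin n × Fin n × Fin N2 × Fin k) ⊕ Fin 0)
    infer_instance
  obtain ⟨I, M, hfI, hfM, δ, hδi, hδs, hδt⟩ := htyp (max (k * k) 2) (K + 2) 1 (Fin Nw ⊕ R)
    (WS h Nw R (Fin n) → WS h Nw R (Fin n) → Bool) l0 l1 hl01
  have hδs' : Sparse (k * k) δ := by
    intro S hS1 hS2
    exact hδs S hS1 (le_trans hS2 (le_max_left _ _))
  have hδl : Lin δ := hlin _ _ _ δ (max (k * k) 2) (le_max_right _ _) hδs
  refine ⟨M, WP h I M, inferInstance, inferInstance, WG Ga δ, cG, ?_, ?_⟩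
  · refine ⟨?_, ?_, ?_, ?_, ?_⟩
    · intro g g' q q'
      rw [pgd_zz]
      exact and_congr_right fun _ => pgd_base U a b H ⊥ q q'
    · exact pgd_symm
    · intro q y hy hc
      rcases y with y | y
      · exfalso
        unfold cG at hc
        rw [decide_eq_true_iff] at hc
        rcases y with y | y | ⟨y, y'⟩ <;> rcases hc with hc | hc <;> exact hc
      · exact ⟨y, rfl⟩
    · intro g q q' _
      unfold cG
      rw [decide_eq_true_iff]
      exact Or.inl trivial
    · intro c f hf v
      cases c
      · exfalso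
        obtain ⟨g, hg1, hg2⟩ := hwgb k h Nw D κ htwo hκ I M R (Fin n) Ga δ hδi hδs' f hf
        refine hgab Λ n N2 0 k U a b H ⊥ fam D htwo ?_ hH ?_ hnob g hg1 hg2
        · intro l
          exact ⟨hDfam, l.2, hBipD⟩
        · rintro ⟨g, -, -⟩
          exact (g ⟨0, by omega⟩).elim0
      · obtain ⟨m, hm⟩ := hwgr k h Nw D κ htwo hκ I M R (Fin n) Ga δ f hf
        obtain ⟨ζ, hζ⟩ := hm v
        exact ⟨_, hζ⟩
  · intro C hC
    obtain ⟨φ, x, hx⟩ := hδt (fun m s s' => C (ws δ m s) (ws δ m s'))
    have key := hwga h K Nw (fun _ => ⟨k, D⟩) (fun _ => κ) h1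
      (fun _ => ⟨hκ, Nat.le_add_right k N⟩) ⟨true, hnc⟩ le_rfl I M R (Fin n) Ga δ hδi hδl C hC
      (fun m => (fun s s' => C (ws δ m s) (ws δ m s')) = φ) φ
      (fun m hm s s' => congrFun (congrFun hm s) s') x hx
    rcases key with ⟨c, f, hf⟩ | ⟨col, m, -, hroles, hz⟩
    · right; left
      exact ⟨c, f, hf⟩
    · by_cases hex : ∃ ζ, ∃ g : Fin K → R, Function.Injective g ∧
          ∀ j, Ga.Adj (Sum.inr ζ) (Sum.inl (g j)) ∧
            C (Sum.inr (m, ζ)) (Sum.inl (.low (δ m (Sum.inr (g j))))) = col
      · obtain ⟨ζ, hg⟩ := hex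
        have h2 := hz ζ hg
        obtain ⟨g, hg1, hg2⟩ := hg
        right; right
        refine ⟨col, ?_⟩
        intro a' b' hab
        obtain ⟨α, hα, hαab⟩ : ∃ α, κ α = true ∧ (α = a' ∨ α = b') := by
          have h3 := hκ.prop a' b' hab
          cases ha : κ a'
          · cases hb : κ b'
            · exact absurd (ha.trans hb.symm) h3
            · exact ⟨b', hb, Or.inr rfl⟩
          · exact ⟨a', ha, Or.inl rfl⟩
        obtain ⟨f, hf1, hf2, hf3⟩ := h2 α hα
        refine ⟨f, hf1, ?_, ?_⟩
        · intro v hva hvb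
          refine hf3 v ?_
          rintro rfl
          rcases hαab with e | e
          · exact hva e
          · exact hvb e
        · intro v q hvq
          have hv : v = α := by
            by_contra hne
            obtain ⟨l, hl⟩ := hf3 v hne
            rw [hl] at hvq
            exact absurd hvq (by simp)
          subst hv
          rw [hf2] at hvq
          have hq : (m, ζ) = q := Sum.inr_injective hvq
          subst hq
          refine ⟨fun j => .low (δ m (Sum.inr (g (Fin.castLE (Nat.le_add_left N k) j)))), ?_, ?_⟩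
          · intro j j' hjj
            have e1 := WP.low.inj hjj
            have e2 := hg1 (Sum.inr_injective (hδi m e1))
            exact Fin.castLE_injective _ e2
          · intro j
            exact ⟨pgd_zr Ga δ m ζ _ (hg2 _).1, (hg2 _).2⟩
      · push Not at hex
        have hex' : ∀ ζ, ¬ ∃ g : Fin K → R, Function.Injective g ∧
          ∀ j, Ga.Adj (Sum.inr ζ) (Sum.inl (g j)) ∧
            C (Sum.inr (m, ζ)) (Sum.inl (.low (δ m (Sum.inr (g j))))) = col := by
          rintro ζ ⟨g, hg1, hg2⟩
          obtain ⟨j, hj⟩ := hex ζ g hg1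
          exact hj (hg2 j).1 (hg2 j).2
        by_cases hmono : ∀ q q', H.Adj q q' → C (Sum.inr (m, q)) (Sum.inr (m, q')) = col
        · left
          exact ⟨m, col, hmono⟩
        · push Not at hmono
          obtain ⟨x, y, hxy, hcxy⟩ := hmono
          have hcxy' : C (Sum.inr (m, x)) (Sum.inr (m, y)) = !col := by
            cases col <;> simpa using hcxy
          have hB := hblb Λ n N2 0 h Nw K (N + 1) U a b H ⊥ I M δ C m col hC le_rfl
            (fun l => l.2) hδi hroles hex' x y hxy hcxy'
          right; right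
          refine ⟨!col, ?_⟩
          intro a' b' hab
          obtain ⟨ν, hν1, hν2⟩ := hB ⟨(a', b'), hab⟩
          refine ⟨_, hν2 0, ?_, ?_⟩
          · intro v hva hvb
            refine ⟨.low (δ m (Sum.inr (Sum.inl ⟨⟨(a', b'), hab⟩, x, y, ν 0, v⟩))), ?_⟩
            show (if v = a' then _ else if v = b' then _ else _) = _
            rw [if_neg hva, if_neg hvb]
          · intro v q hvq
            obtain ⟨wa, hwa1, hwa2, hwa3⟩ := pgd_nbr htwo hab.ne
            obtain ⟨wb, hwb1, hwb2, hwb3⟩ := pgd_nbr htwo hab.ne'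
            have hva : v = a' ∨ v = b' := by
              by_contra hcon
              push Not at hcon
              have e : (if v = a' then (Sum.inr (m, x) : WP h I M ⊕ (M × Fin n)) else
                if v = b' then Sum.inr (m, y) else
                Sum.inl (.low (δ m (Sum.inr (Sum.inl ⟨⟨(a', b'), hab⟩, x, y, ν 0, v⟩))))) =
                  Sum.inr q := hvq
              rw [if_neg hcon.1, if_neg hcon.2] at e
              exact absurd e (by simp)
            rcases hva with rfl | rfl
            · have e : (if v = v then (Sum.inr (m, x) : WP h I M ⊕ (M × Fin n)) else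
                if v = b' then Sum.inr (m, y) else
                Sum.inl (.low (δ m (Sum.inr (Sum.inl ⟨⟨(v, b'), hab⟩, x, y, ν 0, v⟩))))) =
                  Sum.inr q := hvq
              rw [if_pos rfl] at e
              have hq : (m, x) = q := Sum.inr_injective e
              subst hq
              refine ⟨fun j => .low (δ m (Sum.inr (Sum.inl ⟨⟨(v, b'), hab⟩, x, y,
                ν (Fin.castSucc j), wa⟩))), ?_, ?_⟩
              · intro j j' hjj
                have e1 := Sum.inl_injective (Sum.inr_injective (hδi m (WP.low.inj hjj)))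
                have e2 : ν (Fin.castSucc j) = ν (Fin.castSucc j') := by
                  have e3 := eq_of_heq (Sigma.mk.inj e1).2
                  exact (Prod.mk.inj (Prod.mk.inj (Prod.mk.inj e3).2).2).1
                exact Fin.castSucc_injective _ (hν1 e2)
              · intro j
                have e4 := (hν2 (Fin.castSucc j)).2 v wa hwa3
                have e5 : (fun v' : Fin k => if v' = v then
                    (Sum.inr (m, x) : WP h I M ⊕ (M × Fin n)) else
                  if v' = b' then Sum.inr (m, y) else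
                  Sum.inl (.low (δ m (Sum.inr (Sum.inl ⟨⟨(v, b'), hab⟩, x, y,
                    ν (Fin.castSucc j), v'⟩))))) v = Sum.inr (m, x) := if_pos rfl
                have e6 : (fun v' : Fin k => if v' = v then
                    (Sum.inr (m, x) : WP h I M ⊕ (M × Fin n)) else
                  if v' = b' then Sum.inr (m, y) else
                  Sum.inl (.low (δ m (Sum.inr (Sum.inl ⟨⟨(v, b'), hab⟩, x, y,
                    ν (Fin.castSucc j), v'⟩))))) wa =
                    Sum.inl (.low (δ m (Sum.inr (Sum.inl ⟨⟨(v, b'), hab⟩, x, y,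
                    ν (Fin.castSucc j), wa⟩)))) := by
                  show (if wa = v then _ else if wa = b' then _ else _) = _
                  rw [if_neg hwa1, if_neg hwa2]
                rw [← e5, ← e6]
                exact e4
            · have e : (if v = a' then (Sum.inr (m, x) : WP h I M ⊕ (M × Fin n)) else
                if v = v then Sum.inr (m, y) else
                Sum.inl (.low (δ m (Sum.inr (Sum.inl ⟨⟨(a', v), hab⟩, x, y, ν 0, v⟩))))) =
                  Sum.inr q := hvq
              rw [if_neg hab.ne', if_pos rfl] at e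
              have hq : (m, y) = q := Sum.inr_injective e
              subst hq
              refine ⟨fun j => .low (δ m (Sum.inr (Sum.inl ⟨⟨(a', v), hab⟩, x, y,
                ν (Fin.castSucc j), wb⟩))), ?_, ?_⟩
              · intro j j' hjj
                have e1 := Sum.inl_injective (Sum.inr_injective (hδi m (WP.low.inj hjj)))
                have e2 : ν (Fin.castSucc j) = ν (Fin.castSucc j') := by
                  have e3 := eq_of_heq (Sigma.mk.inj e1).2
                  exact (Prod.mk.inj (Prod.mk.inj (Prod.mk.inj e3).2).2).1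
                exact Fin.castSucc_injective _ (hν1 e2)
              · intro j
                have e4 := (hν2 (Fin.castSucc j)).2 v wb hwb3
                have e5 : (fun v' : Fin k => if v' = a' then
                    (Sum.inr (m, x) : WP h I M ⊕ (M × Fin n)) else
                  if v' = v then Sum.inr (m, y) else
                  Sum.inl (.low (δ m (Sum.inr (Sum.inl ⟨⟨(a', v), hab⟩, x, y,
                    ν (Fin.castSucc j), v'⟩))))) v = Sum.inr (m, y) := by
                  show (if v = a' then _ else if v = v then _ else _) = _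
                  rw [if_neg hab.ne', if_pos rfl]
                have e6 : (fun v' : Fin k => if v' = a' then
                    (Sum.inr (m, x) : WP h I M ⊕ (M × Fin n)) else
                  if v' = v then Sum.inr (m, y) else
                  Sum.inl (.low (δ m (Sum.inr (Sum.inl ⟨⟨(a', v), hab⟩, x, y,
                    ν (Fin.castSucc j), v'⟩))))) wb =
                    Sum.inl (.low (δ m (Sum.inr (Sum.inl ⟨⟨(a', v), hab⟩, x, y,
                    ν (Fin.castSucc j), wb⟩)))) := by
                  show (if wb = a' then _ else if wb = v then _ else _) = _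
                  rw [if_neg hwb2, if_neg hwb1]
                rw [← e5, ← e6]
                exact e4

end MP3240G
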