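import Pool.Agent.Lib.MP_3240be_co.H62.Defs

/-!
# MP_3240be_co, Theorem T2, rows REL, MAIN, CHO, CAS
-/

set_option autoImplicit false

namespace MP3240G

open Finset
open MP3240Q (Mono Cop Bip SG Sub em Gl Lin XS St Host Rich TypStatement LinStatement)
open Pool.Agent.Lib.MP_3240be_co.H82 (TC)
open Pool.Agent.Lib.MP_3240be_co.H36.Chrom (Sparse ArrowsT)

theorem Big.bip {h : ℕ} {x : SG} (hx : Big h x) : Bip x.2 := by
  obtain ⟨_, κ, hκ⟩ := hx
  exact ⟨κ, hκ.prop⟩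

theorem xs_succ {L I M : Type} {δ : M → L → I} {χ : M → Prop} {R : ℕ} : ∀ (j : ℕ) (x : I),
    XS δ χ R (j + 1) x → XS δ χ R j x
  | 0, _, _ => trivial
  | j + 1, x, h => by
    intro l
    obtain ⟨g, hg, hg'⟩ := h l
    exact ⟨g, hg, fun i => ⟨(hg' i).1, (hg' i).2.1, fun l' => xs_succ j _ ((hg' i).2.2 l')⟩⟩

theorem xs_le {L I M : Type} {δ : M → L → I} {χ : M → Prop} {R : ℕ} {x : I} {i j : ℕ}
    (hij : i ≤ j) (h : XS δ χ R j x) : XS δ χ R i x := by
  induction j, hij using Nat.le_induction with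
  | base => exact h
  | succ j _ ih => exact ih (xs_succ j x h)

/-- The edge `K_2`. -/
def K2 : SG := ⟨2, ⊤⟩

theorem tiny_aux : ∃ κ : Fin 2 → Bool, (∀ i j, (⊤ : SimpleGraph (Fin 2)).Adj i j → κ i ≠ κ j) ∧
    (univ.filter (fun v => κ v = true)).card ≤ 1 :=
  ⟨fun i => decide (i = 0), by decide, by decide⟩

theorem tiny_K2 {h : ℕ} (h1 : 1 ≤ h) : Tiny h K2 := by
  obtain ⟨κ, h2, h3⟩ := tiny_aux
  exact ⟨κ, h2, le_trans h3 h1⟩

theorem rel_proof (hP : BpcStatement) (hT : TypStatement) (hE : EmgStatement)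
    (hN : NfbStatement) (hL : LinStatement) (hF : BtfStatement) : RelStatement := by
  classical
  intro h k n n' fam D H H' hfam hDH hHT hconn hHH' hno
  obtain ⟨T, A, F, hBT, j, hj1, hj2, hj3⟩ := hHT
  have hbfam : ∀ x ∈ fam, Bip x.2 := fun x hx => (hfam.big x hx).bip
  have hbD : Bip D := hbfam ⟨k, D⟩ hfam.mx.1
  obtain ⟨-, -, -, hbT⟩ := hF h k fam D T A F hbfam hbD hBT
  have hbH : Bip H := by
    obtain ⟨κ, hκ⟩ := hbT
    exact ⟨fun x => κ (j x), fun x y hxy => hκ _ _ (hj3 x y hxy)⟩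
  obtain ⟨Tn, B, hTn, hTn', hB⟩ := hE h k fam D T A F hbfam hbD hBT
  obtain ⟨G, L, hGf, hLf, S, C₀, hS, ⟨l0, l1, hl⟩, harr⟩ :=
    hP h k n (B + 1) fam (insert K2 Tn) D H (by omega) hfam hbH (hTn.insert _) (by
      intro x hx
      rcases Set.mem_insert_iff.1 hx with rfl | hx
      · exact tiny_K2 hfam.one
      · exact hTn' x hx)
  obtain ⟨I, M, hI, hM, δ, hδ, hsp, hty⟩ :=
    hT (k * k + 2) (B + 1) (B + 1) L
      (L ⊕ (G × Fin n) → L ⊕ (G × Fin n) → Bool) l0 l1 hl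
  have hlin : Lin δ := hL L I M δ (k * k + 2) (by omega) hsp
  refine ⟨I ⊕ (M × (G × Fin n)), inferInstance, Gl S δ, ?_, ?_⟩
  · intro C hC
    obtain ⟨φ, x, hx⟩ := hty (fun m s s' => C (em δ m s) (em δ m s'))
    -- one hyperedge of this type
    obtain ⟨g0, hg0, hg1⟩ := hx l0
    obtain ⟨hm, -, -⟩ := hg1 0
    have hφs : ∀ s s', φ s s' = φ s' s := by
      intro s s'
      have h1 : C (em δ (g0 0) s) (em δ (g0 0) s') = φ s s' := congrFun (congrFun hm s) s'
      have h2 : C (em δ (g0 0) s') (em δ (g0 0) s) = φ s' s := congrFun (congrFun hm s') s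
      rw [← h1, ← h2, hC]
    rcases harr φ hφs with ⟨g, c, hc⟩ | ⟨c, hcop, hprs⟩
    · -- the passengers of this gadget
      refine ⟨c, fun q => Sum.inr (g0 0, (g, q)), ?_, ?_⟩
      · intro q q' h
        have h2 := congrArg Prod.snd (Sum.inr_injective h)
        exact congrArg Prod.snd h2
      · intro q q' hqq
        refine ⟨⟨?_, g0 0, Sum.inr (g, q), Sum.inr (g, q'), (hS.pat g g q q').2 ⟨rfl, hqq⟩, rfl,
          rfl⟩, ?_⟩
        · intro h
          have h2 := congrArg Prod.snd (Sum.inr_injective h)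
          exact hqq.ne (congrArg Prod.snd h2)
        · rw [← hc q q' hqq, ← hm]
          rfl
    · have hedge : ∃ l l' : L, S.Adj (Sum.inl l) (Sum.inl l') ∧
          φ (Sum.inl l) (Sum.inl l') = c := by
        obtain ⟨f, -, hf⟩ := hprs K2 (Or.inl (Set.mem_insert _ _))
        have h01 : (⊤ : SimpleGraph (Fin 2)).Adj 0 1 := by simp
        exact ⟨f (0 : Fin 2), f (1 : Fin 2), hf (0 : Fin 2) (1 : Fin 2) h01⟩
      have hH : Host D (B + 1) 0 S δ C
          (fun m => (fun s s' => C (em δ m s) (em δ m s')) = φ) φ c :=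
        ⟨hδ, hlin, hC, fun m hm s s' => congrFun (congrFun hm s) s', hedge, hcop,
          fun hn => absurd hbD hn⟩
      obtain ⟨g, hg⟩ := hB (insert K2 Tn) (B + 1) 0 (Set.subset_insert _ _) (by omega) L
        (G × Fin n) I M S δ C _ φ c hH hprs x 0 (xs_le (by omega) hx)
      refine ⟨c, fun i => g (j i), ?_, fun x y hxy => hg.adj _ _ (hj3 x y hxy)⟩
      intro i i' h
      exact hj1 (hg.inj (hj2 i) (hj2 i') h)
  · obtain ⟨f, hf1, hf2⟩ := hDH
    obtain ⟨f', hf1', hf2'⟩ := hHH'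
    exact hN k n n' D H H' (hfam.big _ hfam.mx.1).1 hconn
      ⟨fun x => f' (f x), hf1'.comp hf1, fun x y hxy => hf2' _ _ (hf2 x y hxy)⟩ hno G L I M S C₀
      δ hS hδ hsp

end MP3240G
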