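import Pool.Agent.Lib.MP_3240be_co.H62.Defs

/-!
# MP_3240be_co, board BTT, row RLC (helper72): Rule C
-/

set_option autoImplicit false

namespace MP3240G

open Finset

/-- Hall's condition for the two sides of the class. -/
theorem rlc_hall {n h : ℕ} {κ σ : Fin n → Bool} {c : Fin n} {V : Type} {R : Bool → Finset V}
    {y : V} (hA : (univ.filter (fun v => κ v = true)).card = h + 1) (hc : κ c = true)
    (hside : ∀ s : Bool, ∃ x, κ x = true ∧ x ≠ c ∧ σ x = s) (hR : ∀ s, (R s).card = h)
    (hne : R true ≠ R false) (hy : ∀ s, y ∈ R s) :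
    ∃ g : Fin n → V, (∀ v, κ v = true → v ≠ c → g v ∈ R (σ v) ∧ g v ≠ y) ∧
      ∀ v w, κ v = true → v ≠ c → κ w = true → w ≠ c → g v = g w → v = w := by
  classical
  let As : Bool → Finset (Fin n) := fun s =>
    univ.filter (fun v => κ v = true ∧ v ≠ c ∧ σ v = s)
  have hmem : ∀ s v, v ∈ As s ↔ κ v = true ∧ v ≠ c ∧ σ v = s := by
    intro s v
    simp [As]
  have hpos : ∀ s, 1 ≤ (As s).card := by
    intro s
    obtain ⟨x, h1, h2, h3⟩ := hside s
    exact card_pos.2 ⟨x, (hmem s x).2 ⟨h1, h2, h3⟩⟩
  have hsum : (As true).card + (As false).card = h := by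
    have h1 : As true ∪ As false = (univ.filter (fun v => κ v = true)).erase c := by
      ext v
      rw [mem_union, hmem, hmem, mem_erase, mem_filter]
      constructor
      · rintro (⟨a, b, -⟩ | ⟨a, b, -⟩) <;> exact ⟨b, mem_univ _, a⟩
      · rintro ⟨a, -, b⟩
        cases hs : σ v with
        | true => exact Or.inl ⟨b, a, rfl⟩
        | false => exact Or.inr ⟨b, a, rfl⟩
    have h2 : Disjoint (As true) (As false) := by
      rw [disjoint_left]
      intro v h3 h4
      have h5 := ((hmem _ _).1 h3).2.2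
      rw [((hmem _ _).1 h4).2.2] at h5
      exact absurd h5 (by decide)
    have h3 : c ∈ univ.filter (fun v => κ v = true) := mem_filter.2 ⟨mem_univ _, hc⟩
    rw [← card_union_of_disjoint h2, h1, card_erase_of_mem h3, hA]
    omega
  -- an element of `R true` outside `R false`
  obtain ⟨e, he1, he2⟩ : ∃ e ∈ R true, e ∉ R false := by
    by_contra hcon
    push Not at hcon
    exact hne (eq_of_subset_of_card_le hcon (by rw [hR, hR]))
  have hey : e ≠ y := fun h' => he2 (h' ▸ hy false)
  have hpt := hpos true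
  have hpf := hpos false
  have hRe : ∀ s, ((R s).erase y).card = h - 1 := by
    intro s
    rw [card_erase_of_mem (hy s), hR]
  obtain ⟨T1, hT1a, hT1b, hT1c⟩ := exists_subsuperset_card_eq
    (s := {e}) (t := (R true).erase y) (n := (As true).card)
    (singleton_subset_iff.2 (mem_erase.2 ⟨hey, he1⟩))
    (by rw [card_singleton]; exact hpt) (by rw [hRe]; omega)
  have heT : e ∈ T1 := singleton_subset_iff.1 hT1a
  have hint : (T1 ∩ (R false).erase y).card + 1 ≤ (As true).card := by
    rw [← hT1c]
    refine card_lt_card ⟨inter_subset_left, fun h' => ?_⟩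
    exact he2 (mem_of_mem_erase (mem_inter.1 (h' heT)).2)
  have hrest : (As false).card ≤ ((R false).erase y \ T1).card := by
    have h1 := card_sdiff_add_card_inter ((R false).erase y) T1
    rw [inter_comm, hRe] at h1
    omega
  obtain ⟨T2, hT2a, hT2b⟩ := exists_subset_card_eq hrest
  have e1 : (As true) ≃ T1 := Fintype.equivOfCardEq (by
    rw [Fintype.card_coe, Fintype.card_coe, hT1c])
  have e2 : (As false) ≃ T2 := Fintype.equivOfCardEq (by
    rw [Fintype.card_coe, Fintype.card_coe, hT2b])
  let g : Fin n → V := fun v =>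
    if h1 : v ∈ As true then (e1 ⟨v, h1⟩ : V)
    else if h2 : v ∈ As false then (e2 ⟨v, h2⟩ : V) else y
  have g1 : ∀ v (h1 : v ∈ As true), g v = (e1 ⟨v, h1⟩ : V) := fun v h1 => dif_pos h1
  have hdis : ∀ v, v ∈ As false → v ∉ As true := by
    intro v h1 h2
    have h5 := ((hmem _ _).1 h2).2.2
    rw [((hmem _ _).1 h1).2.2] at h5
    exact absurd h5 (by decide)
  have g2 : ∀ v (h2 : v ∈ As false), g v = (e2 ⟨v, h2⟩ : V) := fun v h2 => by
    have h3 : g v = if h2 : v ∈ As false then (e2 ⟨v, h2⟩ : V) else y := dif_neg (hdis v h2)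
    rw [h3, dif_pos h2]
  have m1 : ∀ v, v ∈ As true → g v ∈ T1 := fun v h1 => by
    rw [g1 v h1]
    exact (e1 ⟨v, h1⟩).2
  have m2 : ∀ v, v ∈ As false → g v ∈ T2 := fun v h1 => by
    rw [g2 v h1]
    exact (e2 ⟨v, h1⟩).2
  have m2' : ∀ v, v ∈ As false → g v ∉ T1 := fun v h1 => (mem_sdiff.1 (hT2a (m2 v h1))).2
  refine ⟨g, ?_, ?_⟩
  · intro v hv hvc
    cases hs : σ v with
    | true =>
      have h1 := mem_erase.1 (hT1b (m1 v ((hmem _ _).2 ⟨hv, hvc, hs⟩)))
      exact ⟨h1.2, h1.1⟩
    | false =>
      have h1 := mem_erase.1 (mem_sdiff.1 (hT2a (m2 v ((hmem _ _).2 ⟨hv, hvc, hs⟩)))).1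
      exact ⟨h1.2, h1.1⟩
  · intro v w hv hvc hw hwc hvw
    cases hs : σ v with
    | true =>
      have h1 : v ∈ As true := (hmem _ _).2 ⟨hv, hvc, hs⟩
      cases hs' : σ w with
      | true =>
        have h2 : w ∈ As true := (hmem _ _).2 ⟨hw, hwc, hs'⟩
        rw [g1 v h1, g1 w h2] at hvw
        exact congrArg Subtype.val (e1.injective (Subtype.ext hvw))
      | false =>
        have h2 : w ∈ As false := (hmem _ _).2 ⟨hw, hwc, hs'⟩
        exact absurd (hvw ▸ m1 v h1) (m2' w h2)
    | false =>
      have h1 : v ∈ As false := (hmem _ _).2 ⟨hv, hvc, hs⟩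
      cases hs' : σ w with
      | true =>
        have h2 : w ∈ As true := (hmem _ _).2 ⟨hw, hwc, hs'⟩
        exact absurd (hvw.symm ▸ m1 w h2) (m2' v h1)
      | false =>
        have h2 : w ∈ As false := (hmem _ _).2 ⟨hw, hwc, hs'⟩
        rw [g2 v h1, g2 w h2] at hvw
        exact congrArg Subtype.val (e2.injective (Subtype.ext hvw))

/-- (RLC) -/
theorem rlc_proof (hExl : ExlStatement) : RlcStatement := by
  classical
  intro n h U κ hBi D V G P R N y x hR hne hy hPx hRx hN hNz
  obtain ⟨g, hg1, hg2⟩ := rlc_hall hBi.cardA D.hc D.side hR hne hy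
  let W : Finset (Fin n) := univ.filter (fun v => κ v = true ∨ v = D.d)
  have hW : ∀ v, v ∈ W ↔ κ v = true ∨ v = D.d := by
    intro v
    simp [W]
  let φ : Fin n → V := fun v => if κ v = true then (if v = D.c then y else g v) else x
  have φc : φ D.c = y := by
    change (if κ D.c = true then (if D.c = D.c then y else g D.c) else x) = y
    rw [if_pos D.hc, if_pos rfl]
  have φg : ∀ v, κ v = true → v ≠ D.c → φ v = g v := by
    intro v h1 h2
    change (if κ v = true then (if v = D.c then y else g v) else x) = g v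
    rw [if_pos h1, if_neg h2]
  have φx : ∀ v, κ v ≠ true → φ v = x := by
    intro v h1
    change (if κ v = true then (if v = D.c then y else g v) else x) = x
    rw [if_neg h1]
  have hd : κ D.d ≠ true := by
    rw [D.hd]
    decide
  -- the class goes to the hubs
  have φR : ∀ v, κ v = true → ∃ s, φ v ∈ R s := by
    intro v h1
    by_cases h2 : v = D.c
    · exact ⟨true, by rw [h2, φc]; exact hy true⟩
    · exact ⟨D.σ v, by rw [φg v h1 h2]; exact (hg1 v h1 h2).1⟩
  have hxR : ∀ s, x ∉ R s := fun s h1 => G.loopless.irrefl x (hRx s x h1).2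
  have hinj : Set.InjOn φ (W : Set (Fin n)) := by
    intro i hi j hj hij
    by_cases h1 : κ i = true
    · by_cases h2 : κ j = true
      · by_cases h3 : i = D.c
        · by_cases h4 : j = D.c
          · rw [h3, h4]
          · rw [h3, φc, φg j h2 h4] at hij
            exact absurd hij.symm (hg1 j h2 h4).2
        · by_cases h4 : j = D.c
          · rw [h4, φc, φg i h1 h3] at hij
            exact absurd hij (hg1 i h1 h3).2
          · rw [φg i h1 h3, φg j h2 h4] at hij
            exact hg2 i j h1 h3 h2 h4 hij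
      · obtain ⟨s, hs⟩ := φR i h1
        rw [hij, φx j h2] at hs
        exact absurd hs (hxR s)
    · by_cases h2 : κ j = true
      · obtain ⟨s, hs⟩ := φR j h2
        rw [← hij, φx i h1] at hs
        exact absurd hs (hxR s)
      · rw [((hW i).1 hi).resolve_left h1, ((hW j).1 hj).resolve_left h2]
  have hkey : ∀ u i, U.Adj u i → κ u ≠ true → κ i = true := by
    intro u i h1 h2
    by_contra h3
    exact hBi.prop u i h1 ((Bool.eq_false_iff.2 h2).trans (Bool.eq_false_iff.2 h3).symm)
  obtain ⟨f, hf1, hf2, hf3, hf4⟩ := hExl V G P n U W φ hinj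
    (by
      intro i hi j hj hij
      by_cases h1 : κ i = true
      · have h2 : κ j ≠ true := fun h => hBi.prop i j hij (h1.trans h.symm)
        obtain ⟨s, hs⟩ := φR i h1
        rw [φx j h2]
        exact (hRx s _ hs).2
      · have h2 : κ j = true := hkey i j hij h1
        obtain ⟨s, hs⟩ := φR j h2
        rw [φx i h1]
        exact (hRx s _ hs).2.symm)
    (by
      intro i hi j hj hij
      exact hj ((hW j).2 (Or.inl (hkey i j hij fun h => hi ((hW i).2 (Or.inl h))))))
    (by
      intro u hu S hS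
      have h1 : κ u ≠ true := fun h => hu ((hW u).2 (Or.inl h))
      have h2 : u ≠ D.d := fun h => hu ((hW u).2 (Or.inr h))
      have h3 : u ≠ D.c := fun h => h1 (by rw [h]; exact D.hc)
      obtain ⟨z, hz1, hz2⟩ := exists_mem_notMem_of_card_lt_card (hS.trans_le (hN (D.σ u)))
      refine ⟨z, hz2, (hNz _ z hz1).1, ?_⟩
      intro i hi hui
      have h4 : κ i = true := hkey u i hui h1
      by_cases h5 : i = D.c
      · rw [h5, φc]
        exact (hNz _ z hz1).2 y (hy _)
      · have h6 : i ≠ D.d := fun h => hd (by rw [← h]; exact h4)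
        rw [φg i h4 h5]
        refine (hNz _ z hz1).2 _ ?_
        rw [D.sep u i h3 h2 h5 h6 hui]
        exact (hg1 i h4 h5).1)
  refine ⟨f, hf1, ?_, hf4⟩
  intro i
  by_cases h1 : i ∈ W
  · rw [hf2 i h1]
    by_cases h2 : κ i = true
    · obtain ⟨s, hs⟩ := φR i h2
      exact (hRx s _ hs).1
    · rw [φx i h2]
      exact hPx
  · exact hf3 i h1

end MP3240G
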