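import Pool.Agent.Lib.MP_3240be_co.H62.Defs
import Pool.Agent.Lib.MP_3240be_co.H36.Chrom.Main

/-!
# MP_3240be_co, Theorem T2: row SYT

A symmetric B-tree is a B-tree relative to every maximal member of the family.
-/

set_option autoImplicit false

namespace MP3240G

open MP3240Q (SG Sub)
open Pool.Agent.Lib.MP_3240be_co.H36.Chrom (iso_of_le)

private lemma syt_map {k n : ℕ} {D : SimpleGraph (Fin k)} {U : SimpleGraph (Fin n)} (e : D ≃g U)
    (f : Fin n ↪ ℕ) : U.map f = D.map (e.toEquiv.toEmbedding.trans f) := by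
  ext x y
  simp only [SimpleGraph.map_adj]
  constructor
  · rintro ⟨u, v, huv, rfl, rfl⟩
    refine ⟨e.symm u, e.symm v, e.symm.map_adj_iff.2 huv, ?_, ?_⟩
    · change f (e (e.symm u)) = f u
      rw [e.apply_symm_apply]
    · change f (e (e.symm v)) = f v
      rw [e.apply_symm_apply]
  · rintro ⟨u, v, huv, rfl, rfl⟩
    exact ⟨e u, e v, e.map_adj_iff.2 huv, rfl, rfl⟩

private lemma syt_range {k n : ℕ} {D : SimpleGraph (Fin k)} {U : SimpleGraph (Fin n)}
    (e : D ≃g U) (f : Fin n ↪ ℕ) :
    Set.range (e.toEquiv.toEmbedding.trans f) = Set.range f := by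
  ext x
  constructor
  · rintro ⟨u, rfl⟩
    exact ⟨e u, rfl⟩
  · rintro ⟨u, rfl⟩
    refine ⟨e.symm u, ?_⟩
    change f (e (e.symm u)) = f u
    rw [e.apply_symm_apply]

theorem syt_proof : SytStatement := by
  intro h k fam D hD T A F ht
  induction ht with
  | start y => exact ⟨{y}, subset_rfl, BTree.start y⟩
  | pendant T A F y z ht hy hz ih =>
    obtain ⟨F', hF, hB⟩ := ih
    exact ⟨insert z F', Set.insert_subset_insert hF, BTree.pendant T A F' y z hB hy hz⟩
  | tiny T A F x f r ht hx hr hnew ih =>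
    obtain ⟨F', hF, hB⟩ := ih
    exact ⟨F' ∪ Set.range f, Set.union_subset_union_left _ hF,
      BTree.full T A F' x f r hB (Or.inl hx) (hF hr) hnew⟩
  | big T A F x f r a b ht hx hr hnew hab hra hrb ih =>
    obtain ⟨F', hF, hB⟩ := ih
    by_cases hs : Sub D x.2
    · obtain ⟨e⟩ := iso_of_le D x.2 hs (hD.2 x hx hs)
      refine ⟨F' ∪ (e.toEquiv.toEmbedding.trans f) '' {v | v ≠ e.symm a ∧ v ≠ e.symm b}, ?_, ?_⟩
      · refine Set.union_subset_union hF ?_
        rintro _ ⟨v, ⟨hva, hvb⟩, rfl⟩
        refine ⟨e.symm v, ⟨fun hh => hva (e.symm.injective hh), fun hh => hvb (e.symm.injective hh)⟩,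
          ?_⟩
        change f (e (e.symm v)) = f v
        rw [e.apply_symm_apply]
      · rw [syt_map e f, ← syt_range e f]
        refine BTree.copy T A F' (e.toEquiv.toEmbedding.trans f) (e.symm r) (e.symm a) (e.symm b)
          hB ?_ ?_ ?_ ?_ ?_
        · change f (e (e.symm r)) ∈ F'
          rw [e.apply_symm_apply]
          exact hF hr
        · intro v hv
          exact hnew (e v) fun hh => hv (by rw [← hh, e.symm_apply_apply])
        · exact e.symm.map_adj_iff.2 hab
        · exact fun hh => hra (e.symm.injective hh)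
        · exact fun hh => hrb (e.symm.injective hh)
    · exact ⟨F' ∪ Set.range f, Set.union_subset_union hF (Set.image_subset_range _ _),
        BTree.full T A F' x f r hB (Or.inr ⟨hx, hs⟩) (hF hr) hnew⟩

end MP3240G
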