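import Pool.Agent.Lib.MP_3240be_co.H62.Defs

/-!
# Board T2 (btt_modules), row WGA: the world gadget arrows (helper26)
-/

set_option autoImplicit false

namespace MP3240G

open Finset
open MP3240Q (Mono SG XS Lin)
open MP3240T (cls)

namespace Wga

variable {h Nw : ℕ} {I M R Z : Type}

/-- The common hubs. -/
noncomputable def hub (h : ℕ) (I M Z : Type) : Finset (WP h I M ⊕ (M × Z)) := by
  classical exact univ.image (fun j : Fin h => (Sum.inl (.y j) : WP h I M ⊕ (M × Z)))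

theorem hub_card : (hub h I M Z).card = h := by
  classical
  unfold hub
  rw [Finset.card_image_of_injective, Finset.card_univ, Fintype.card_fin]
  intro j j' hjj
  simpa using hjj

theorem mem_hub {z : WP h I M ⊕ (M × Z)} (hz : z ∈ hub h I M Z) :
    ∃ j, z = Sum.inl (.y j) := by
  classical
  unfold hub at hz
  obtain ⟨j, -, rfl⟩ := Finset.mem_image.1 hz
  exact ⟨j, rfl⟩

/-- The common hubs together with one more hub `v`. -/
theorem copy (h2 : KhnStatement) {n K : ℕ} {U : SimpleGraph (Fin n)} {κ : Fin n → Bool}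
    (hBi : Bi U κ h) (hn : n ≤ K) (Ga : SimpleGraph (R ⊕ Z)) (δ : M → Fin Nw ⊕ R → I)
    (C : WP h I M ⊕ (M × Z) → WP h I M ⊕ (M × Z) → Bool) (hC : ∀ x y, C x y = C y x) (col : Bool)
    (v : WP h I M ⊕ (M × Z)) (hv : ∀ j, v ≠ Sum.inl (.y j)) (N : Finset (WP h I M ⊕ (M × Z)))
    (hN : K ≤ N.card) (hlow : ∀ z ∈ N, ∃ i, z = Sum.inl (.low i) ∧
      ∀ j, C (Sum.inl (.y j)) (Sum.inl (.low i)) = col)
    (hadj : ∀ z ∈ N, (WG Ga δ).Adj v z ∧ C v z = col) (α : Fin n) (hα : κ α = true) :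
    ∃ f, Mono (WG Ga δ) C U col f ∧ f α = v ∧ ∀ w, w ≠ α → ∃ l, f w = Sum.inl l := by
  obtain ⟨f, hf, hfα, hfP, hfe⟩ := h2 n h U κ hBi α hα _ (cls (WG Ga δ) C col)
    (fun z => ∃ l, z = Sum.inl l) (hub h I M Z) N v hub_card
    (fun hm => by
      obtain ⟨j, hj⟩ := mem_hub hm
      exact hv j hj)
    (fun y hy => by
      obtain ⟨j, hj⟩ := mem_hub hy
      exact ⟨_, hj⟩)
    (hn.trans hN)
    (fun z hz => by
      obtain ⟨i, rfl, hi⟩ := hlow z hz
      refine ⟨⟨_, rfl⟩, ⟨(hadj _ hz).1, (hadj _ hz).2, ?_⟩, fun y hy => ?_⟩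
      · rw [hC]
        exact (hadj _ hz).2
      · obtain ⟨j, rfl⟩ := mem_hub hy
        refine ⟨?_, hi j, ?_⟩
        · rw [WG, SimpleGraph.fromRel_adj]
          exact ⟨by simp, Or.inl trivial⟩
        · rw [hC]
          exact hi j)
  exact ⟨f, ⟨hf, fun i j hij => ⟨(hfe i j hij).1, (hfe i j hij).2.1⟩⟩, hfα, hfP⟩

end Wga

open Wga in
/-- Row WGA. -/
theorem wga_proof (h1 : WgpStatement) (h2 : KhnStatement) : WgaStatement := by
  classical
  intro h K Nw U κ hh hU hNc hKN I M R Z Ga δ hinj hlin C hC χ Cφ hχ x hx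
  rcases h1 h K Nw U κ hh hU hNc hKN I M R Z Ga δ hinj C hC χ Cφ hχ x hx with hl | ⟨col, hcol⟩
  · exact Or.inl hl
  by_cases hno : ∃ (c : Bool) (f : Fin (U c).1 → WP h I M),
      Mono (WG Ga δ) C (U c).2 c (fun v => Sum.inl (f v))
  · exact Or.inl hno
  refine Or.inr ⟨col, ?_⟩
  have hx' : ∀ l, ∃ g : Fin (K + 2) → M, Function.Injective g ∧
      ∀ i, χ (g i) ∧ δ (g i) l = x := fun l => by
    obtain ⟨g, hg, hg'⟩ := hx l
    exact ⟨g, hg, fun i => ⟨(hg' i).1, (hg' i).2.1⟩⟩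
  -- a vertex of the class `true`
  obtain ⟨hBi, hUK⟩ := hU col
  obtain ⟨α0, hα0⟩ : ∃ α, κ col α = true := by
    have h3 : 0 < (univ.filter (fun v => κ col v = true)).card := by
      rw [hBi.cardA]
      exact Nat.succ_pos _
    obtain ⟨α, hα⟩ := Finset.card_pos.1 h3
    exact ⟨α, (Finset.mem_filter.1 hα).2⟩
  have hKpos : 0 < K := lt_of_lt_of_le (Fin.pos α0) hUK
  have hNw : 0 < Nw := lt_of_lt_of_le (Nat.mul_pos hKpos (Nat.two_pow_pos h)) hKN
  obtain ⟨g0, -, hg0'⟩ := hx' (Sum.inl ⟨0, hNw⟩)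
  have hm : χ (g0 0) := (hg0' 0).1
  refine ⟨g0 0, hm, fun r r' hrr => ?_, fun ζ hζ α hα => ?_⟩
  · by_contra hne
    have hc : C (Sum.inl (.low (δ (g0 0) (Sum.inr r)))) (Sum.inl (.low (δ (g0 0) (Sum.inr r')))) =
        col := by
      revert hne
      cases C (Sum.inl (.low (δ (g0 0) (Sum.inr r)))) (Sum.inl (.low (δ (g0 0) (Sum.inr r')))) <;>
        cases col <;> simp
    have hφ : Cφ (.s (Sum.inr r)) (.s (Sum.inr r')) = col := by
      rw [← hχ (g0 0) hm]
      exact hc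
    obtain ⟨g, hg, hg'⟩ := hx' (Sum.inr r)
    have hrne : r ≠ r' := fun e => by
      subst e
      exact Ga.loopless.irrefl _ hrr
    have hinjN : Function.Injective (fun i : Fin (K + 2) =>
        (Sum.inl (.low (δ (g i) (Sum.inr r'))) : WP h I M ⊕ (M × Z))) := by
      intro i j hij
      have e1 : δ (g i) (Sum.inr r') = δ (g j) (Sum.inr r') := by simpa using hij
      by_contra hne'
      have e2 := hlin (g i) (g j) (Sum.inr r) (Sum.inr r) (Sum.inr r') (Sum.inr r')
        (fun e => hne' (hg e)) ((hg' i).2.trans (hg' j).2.symm) e1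
      have e3 := hinj (g i) e2
      exact hrne (Sum.inr.inj e3)
    obtain ⟨f, hf, hfα, hfP⟩ := copy h2 hBi hUK Ga δ C hC col (Sum.inl (.low x))
      (fun j e => by simp at e)
      (univ.image (fun i : Fin (K + 2) =>
        (Sum.inl (.low (δ (g i) (Sum.inr r'))) : WP h I M ⊕ (M × Z))))
      (by
        rw [Finset.card_image_of_injective _ hinjN, Finset.card_univ, Fintype.card_fin]
        omega)
      (fun z hz => by
        obtain ⟨i, -, rfl⟩ := Finset.mem_image.1 hz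
        exact ⟨_, rfl, fun j => hcol (g i) (hg' i).1 _ j⟩)
      (fun z hz => by
        obtain ⟨i, -, rfl⟩ := Finset.mem_image.1 hz
        refine ⟨?_, ?_⟩
        · rw [WG, SimpleGraph.fromRel_adj]
          refine ⟨fun e => ?_, Or.inl ⟨g i, r, r', hrr, (hg' i).2, rfl⟩⟩
          have e1 : x = δ (g i) (Sum.inr r') := by simpa using e
          rw [← (hg' i).2] at e1
          exact hrne (Sum.inr.inj (hinj (g i) e1))
        · have e1 : C (Sum.inl (.low (δ (g i) (Sum.inr r))))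
              (Sum.inl (.low (δ (g i) (Sum.inr r')))) = Cφ (.s (Sum.inr r)) (.s (Sum.inr r')) :=
            hχ (g i) (hg' i).1 (.s (Sum.inr r)) (.s (Sum.inr r'))
          rw [(hg' i).2] at e1
          exact e1.trans hφ)
      α0 hα0
    have hfP' : ∀ v, ∃ l, f v = Sum.inl l := by
      intro v
      by_cases hv : v = α0
      · exact ⟨_, by rw [hv, hfα]⟩
      · exact hfP v hv
    choose fl hfl using hfP'
    refine hno ⟨col, fl, ?_⟩
    have e4 : (fun v => Sum.inl (fl v)) = f := funext fun v => (hfl v).symm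
    rw [e4]
    exact hf
  · obtain ⟨g, hg, hg'⟩ := hζ
    refine copy h2 hBi hUK Ga δ C hC col (Sum.inr (g0 0, ζ)) (fun j e => by simp at e)
      (univ.image (fun j : Fin K =>
        (Sum.inl (.low (δ (g0 0) (Sum.inr (g j)))) : WP h I M ⊕ (M × Z)))) ?_
      (fun z hz => by
        obtain ⟨i, -, rfl⟩ := Finset.mem_image.1 hz
        exact ⟨_, rfl, fun j => hcol (g0 0) hm _ j⟩)
      (fun z hz => by
        obtain ⟨i, -, rfl⟩ := Finset.mem_image.1 hz
        refine ⟨?_, (hg' i).2⟩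
        rw [WG, SimpleGraph.fromRel_adj]
        exact ⟨by simp, Or.inl ⟨g i, (hg' i).1, rfl⟩⟩)
      α hα
    rw [Finset.card_image_of_injective, Finset.card_univ, Fintype.card_fin]
    intro j j' hjj
    have e1 : δ (g0 0) (Sum.inr (g j)) = δ (g0 0) (Sum.inr (g j')) := by simpa using hjj
    exact hg (Sum.inr.inj (hinj (g0 0) e1))

end MP3240G
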