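import Mathlib
import Pool.Agent.Lib.MP_3240be_co.H62.Defs

set_option autoImplicit false

/-!
# Row WGB: the blue copies of `D` in the intended colouring of the world gadget
-/

namespace MP3240G

open Finset
open MP3240Q (Mono Cop Bip SG Sub em Gl Lin XS St Host)
open MP3240W (TwoC ed)
open Pool.Agent.Lib.MP_3240be_co.H82 (TC)
open Pool.Agent.Lib.MP_3240be_co.H36.Chrom (Sparse ArrowsT)

namespace Wgb

variable {h Nw : ℕ} {I M R Z : Type} (Ga : SimpleGraph (R ⊕ Z)) (δ : M → Fin Nw ⊕ R → I)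

/-- The blue edges of the intended colouring, in one direction. -/
def BE (a b : WP h I M ⊕ (M × Z)) : Prop :=
  (∃ m j w, a = Sum.inl (.p m j) ∧ b = Sum.inl (.low (δ m (.inl w)))) ∨
  (∃ m r r', Ga.Adj (.inl r) (.inl r') ∧ a = Sum.inl (.low (δ m (.inr r))) ∧
    b = Sum.inl (.low (δ m (.inr r')))) ∨
  (∃ m ζ r, Ga.Adj (.inr ζ) (.inl r) ∧ a = Sum.inr (m, ζ) ∧ b = Sum.inl (.low (δ m (.inr r))))

theorem be_of_rel (a b : WP h I M ⊕ (M × Z)) (hr : relG Ga δ a b) (hn : ¬ redG a b) :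
    BE Ga δ a b := by
  rcases a with (j | i | ⟨m, j⟩) | q <;> rcases b with (j' | i' | ⟨m', j'⟩) | q'
  all_goals first
    | exact absurd hr (fun h => h)
    | skip
  · exact absurd trivial hn
  · obtain ⟨m, r, r', h1, h2, h3⟩ := hr
    exact Or.inr (Or.inl ⟨m, r, r', h1, by rw [h2], by rw [h3]⟩)
  · obtain ⟨w, hw⟩ := hr
    exact Or.inl ⟨m, j, w, rfl, by rw [hw]⟩
  · obtain ⟨r, h1, h2⟩ := hr
    exact Or.inr (Or.inr ⟨q.1, q.2, r, h1, rfl, by rw [h2]⟩)
  · exact absurd trivial hn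

theorem blue (a b : WP h I M ⊕ (M × Z)) (hab : (WG Ga δ).Adj a b) (hc : cG a b = false) :
    BE Ga δ a b ∨ BE Ga δ b a := by
  classical
  have hn : ¬ (redG a b ∨ redG b a) := of_decide_eq_false hc
  rw [WG, SimpleGraph.fromRel_adj] at hab
  rcases hab.2 with h1 | h1
  · exact Or.inl (be_of_rel Ga δ a b h1 (fun h2 => hn (Or.inl h2)))
  · exact Or.inr (be_of_rel Ga δ b a h1 (fun h2 => hn (Or.inr h2)))

/-- The piece `m`. -/
def pc (m : M) : Set (WP h I M ⊕ (M × Z)) :=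
  {x | (∃ j, x = Sum.inl (.p m j)) ∨ (∃ t, x = Sum.inl (.low (δ m t))) ∨ ∃ ζ, x = Sum.inr (m, ζ)}

theorem be_pc {a b : WP h I M ⊕ (M × Z)} (hb : BE Ga δ a b) : ∃ m, a ∈ pc δ m ∧ b ∈ pc δ m := by
  rcases hb with ⟨m, j, w, h1, h2⟩ | ⟨m, r, r', _, h1, h2⟩ | ⟨m, ζ, r, _, h1, h2⟩
  · exact ⟨m, Or.inl ⟨j, h1⟩, Or.inr (Or.inl ⟨_, h2⟩)⟩
  · exact ⟨m, Or.inr (Or.inl ⟨_, h1⟩), Or.inr (Or.inl ⟨_, h2⟩)⟩
  · exact ⟨m, Or.inr (Or.inr ⟨ζ, h1⟩), Or.inr (Or.inl ⟨_, h2⟩)⟩

/-- The world side of the piece `m`. -/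
def ws1 (m : M) (x : WP h I M ⊕ (M × Z)) : Prop :=
  (∃ j, x = Sum.inl (.p m j)) ∨ ∃ w, x = Sum.inl (.low (δ m (.inl w)))

/-- The other side of the piece `m`. -/
def emb (m : M) : R ⊕ Z → WP h I M ⊕ (M × Z)
  | .inl r => Sum.inl (.low (δ m (.inr r)))
  | .inr ζ => Sum.inr (m, ζ)

theorem pc_cases {m : M} {x : WP h I M ⊕ (M × Z)} (hx : x ∈ pc δ m) :
    ws1 δ m x ∨ ∃ s, x = emb δ m s := by
  rcases hx with ⟨j, h1⟩ | ⟨t, h1⟩ | ⟨ζ, h1⟩
  · exact Or.inl (Or.inl ⟨j, h1⟩)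
  · rcases t with w | r
    · exact Or.inl (Or.inr ⟨w, h1⟩)
    · exact Or.inr ⟨.inl r, h1⟩
  · exact Or.inr ⟨.inr ζ, h1⟩

theorem low_inj {i i' : I} (h1 : (Sum.inl (.low i) : WP h I M ⊕ (M × Z)) = Sum.inl (.low i')) :
    i = i' := WP.low.inj (Sum.inl_injective h1)

/-- Blue edges inside the piece `m`. -/
theorem inside (hδ : ∀ m, Function.Injective (δ m)) (hL : Lin δ) {m : M}
    {a b : WP h I M ⊕ (M × Z)} (ha : a ∈ pc δ m) (hb : b ∈ pc δ m) (hne : a ≠ b)
    (hab : BE Ga δ a b) :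
    (∃ j w, a = Sum.inl (.p m j) ∧ b = Sum.inl (.low (δ m (.inl w)))) ∨
    ∃ s s', Ga.Adj s s' ∧ a = emb δ m s ∧ b = emb δ m s' ∧
      ¬ ((∃ ζ, s = Sum.inr ζ) ∧ ∃ ζ, s' = Sum.inr ζ) := by
  rcases hab with ⟨m', j, w, h1, h2⟩ | ⟨m', r, r', h0, h1, h2⟩ | ⟨m', ζ, r, h0, h1, h2⟩
  · have hm : m' = m := by
      rcases ha with ⟨j', h3⟩ | ⟨t, h3⟩ | ⟨ζ, h3⟩
      · rw [h1] at h3
        exact (WP.p.inj (Sum.inl_injective h3)).1
      · rw [h1] at h3
        exact absurd (Sum.inl_injective h3) (by simp)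
      · rw [h1] at h3
        exact absurd h3 (by simp)
    subst hm
    exact Or.inl ⟨j, w, h1, h2⟩
  · have hm : m' = m := by
      by_contra hmm
      rcases ha with ⟨j', h3⟩ | ⟨t, h3⟩ | ⟨ζ, h3⟩
      · rw [h1] at h3
        exact absurd (Sum.inl_injective h3) (by simp)
      · rcases hb with ⟨j', h4⟩ | ⟨t', h4⟩ | ⟨ζ, h4⟩
        · rw [h2] at h4
          exact absurd (Sum.inl_injective h4) (by simp)
        · have h5 := low_inj (h1.symm.trans h3)
          have h6 := low_inj (h2.symm.trans h4)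
          have h7 := hL m' m (.inr r) t (.inr r') t' hmm h5 h6
          exact hne (by rw [h1, h2, h7])
        · rw [h2] at h4
          exact absurd h4 (by simp)
      · rw [h1] at h3
        exact absurd h3 (by simp)
    subst hm
    refine Or.inr ⟨.inl r, .inl r', h0, h1, h2, ?_⟩
    rintro ⟨⟨ζ, h3⟩, _⟩
    exact absurd h3 (by simp)
  · have hm : m' = m := by
      rcases ha with ⟨j', h3⟩ | ⟨t, h3⟩ | ⟨ζ, h3⟩
      · rw [h1] at h3
        exact absurd h3 (by simp)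
      · rw [h1] at h3
        exact absurd h3 (by simp)
      · rw [h1] at h3
        exact (Prod.mk.inj (Sum.inr_injective h3)).1
    subst hm
    refine Or.inr ⟨.inr ζ, .inl r, h0, h1, h2, ?_⟩
    rintro ⟨_, ⟨ζ, h3⟩⟩
    exact absurd h3 (by simp)

theorem ws1_emb (hδ : ∀ m, Function.Injective (δ m)) {m : M} {x : WP h I M ⊕ (M × Z)}
    (h1 : ws1 δ m x) (s : R ⊕ Z) : x ≠ emb δ m s := by
  intro h2
  rcases s with r | ζ
  · rcases h1 with ⟨j, h3⟩ | ⟨w, h3⟩
    · rw [h3] at h2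
      exact absurd (Sum.inl_injective h2) (by simp)
    · have h4 := low_inj (h3.symm.trans h2)
      have h5 := hδ m h4
      simp at h5
  · rcases h1 with ⟨j, h3⟩ | ⟨w, h3⟩
    · rw [h3] at h2
      exact absurd h2 (by simp [emb])
    · rw [h3] at h2
      exact absurd h2 (by simp [emb])

end Wgb

open Wgb in
theorem wgb_proof (hLrg : LrgStatement) (hPc : MP3240W.Pc2Statement)
    (hTwo : MP3240W.TwoStatement) (hLin : MP3240Q.LinStatement) : WgbStatement := by
  classical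
  intro k h Nw D κ hD hBi I M R Z Ga δ hδ hsp f hf
  obtain ⟨hinj, hE⟩ := hf
  have hk : 3 ≤ k := hD.three
  have hL : Lin δ := hLin (Fin Nw ⊕ R) I M δ (k * k) (by nlinarith) hsp
  have hnbr : ∀ u, ∃ v, D.Adj u v := by
    intro u
    have : Nontrivial (Fin k) := Fin.nontrivial_iff_two_le.2 (by omega)
    obtain ⟨v, hv⟩ := exists_ne u
    obtain ⟨w⟩ := hD.conn.preconnected u v
    cases w with
    | nil => exact absurd rfl hv
    | cons hadj _ => exact ⟨_, hadj⟩
  have hblue : ∀ i j, D.Adj i j → BE Ga δ (f i) (f j) ∨ BE Ga δ (f j) (f i) :=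
    fun i j hij => blue Ga δ (f i) (f j) (hE i j hij).1 (hE i j hij).2
  have hmem : ∀ u v, D.Adj u v → ∃ m, f u ∈ pc δ m ∧ f v ∈ pc δ m := by
    intro u v huv
    rcases hblue u v huv with h1 | h1
    · exact be_pc Ga δ h1
    · obtain ⟨m, h2, h3⟩ := be_pc Ga δ h1
      exact ⟨m, h3, h2⟩
  rcases hPc k D (WP h I M ⊕ (M × Z)) I I M (Fin Nw ⊕ R) δ id f (fun _ => ∅) (fun m => pc δ m)
      (fun m t => Sum.inl (.low (δ m t))) (by omega) (hTwo k D hk hD.conn hD.cut) hnbr hinj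
      Function.injective_id hδ hsp (fun u v huv => Or.inr (hmem u v huv))
      (fun _ _ _ hx => absurd hx (Set.notMem_empty _)) (by
        intro m m' x hmm hx hx'
        rcases hx with ⟨j, h1⟩ | ⟨t, h1⟩ | ⟨ζ, h1⟩
        · rcases hx' with ⟨j', h2⟩ | ⟨t', h2⟩ | ⟨ζ', h2⟩
          · rw [h1] at h2
            exact absurd (WP.p.inj (Sum.inl_injective h2)).1 hmm
          · rw [h1] at h2
            exact absurd (Sum.inl_injective h2) (by simp)
          · rw [h1] at h2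
            exact absurd h2 (by simp)
        · rcases hx' with ⟨j', h2⟩ | ⟨t', h2⟩ | ⟨ζ', h2⟩
          · rw [h1] at h2
            exact absurd (Sum.inl_injective h2) (by simp)
          · exact ⟨t, t', h1, low_inj (h1.symm.trans h2)⟩
          · rw [h1] at h2
            exact absurd h2 (by simp)
        · rcases hx' with ⟨j', h2⟩ | ⟨t', h2⟩ | ⟨ζ', h2⟩
          · rw [h1] at h2
            exact absurd h2 (by simp)
          · rw [h1] at h2
            exact absurd h2 (by simp)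
          · rw [h1] at h2
            exact absurd (Prod.mk.inj (Sum.inr_injective h2)).1 hmm)
      (fun _ _ _ hx => absurd hx (Set.notMem_empty _)) with ⟨_, h1⟩ | ⟨m, hm⟩
  · exact absurd (h1 ⟨0, by omega⟩) (Set.notMem_empty _)
  · have hm' : ∀ v, f v ∈ pc δ m := hm
    have hin : ∀ i j, D.Adj i j →
        ((ws1 δ m (f i) ∧ ws1 δ m (f j)) ∧
          ((∃ l, f i = Sum.inl (.p m l)) ↔ ¬ ∃ l, f j = Sum.inl (.p m l))) ∨
        ∃ s s', Ga.Adj s s' ∧ f i = emb δ m s ∧ f j = emb δ m s' ∧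
          ¬ ((∃ ζ, s = Sum.inr ζ) ∧ ∃ ζ, s' = Sum.inr ζ) := by
      intro i j hij
      have hne : f i ≠ f j := fun h1 => hij.ne (hinj h1)
      rcases hblue i j hij with h1 | h1
      · rcases inside Ga δ hδ hL (hm' i) (hm' j) hne h1 with ⟨l, w, h2, h3⟩ | h2
        · refine Or.inl ⟨⟨Or.inl ⟨l, h2⟩, Or.inr ⟨w, h3⟩⟩, ?_⟩
          refine ⟨fun _ => ?_, fun _ => ⟨l, h2⟩⟩
          rintro ⟨l', h4⟩
          rw [h3] at h4
          exact absurd (Sum.inl_injective h4) (by simp)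
        · exact Or.inr h2
      · rcases inside Ga δ hδ hL (hm' j) (hm' i) hne.symm h1 with
          ⟨l, w, h2, h3⟩ | ⟨s, s', h2, h3, h4, h5⟩
        · refine Or.inl ⟨⟨Or.inr ⟨w, h3⟩, Or.inl ⟨l, h2⟩⟩, ?_⟩
          refine ⟨?_, fun h4 => absurd ⟨l, h2⟩ h4⟩
          rintro ⟨l', h4⟩
          rw [h3] at h4
          exact absurd (Sum.inl_injective h4) (by simp)
        · exact Or.inr ⟨s', s, h2.symm, h4, h3, fun h6 => h5 ⟨h6.2, h6.1⟩⟩
    have hk0 : 0 < k := by omega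
    -- the world side is closed
    have hclosed : ∀ i j, D.Adj i j → ws1 δ m (f i) → ws1 δ m (f j) := by
      intro i j hij hi
      rcases hin i j hij with h1 | ⟨s, s', _, h2, _, _⟩
      · exact h1.1.2
      · exact absurd h2 (ws1_emb δ hδ hi s)
    by_cases hw : ∃ i, ws1 δ m (f i)
    · exfalso
      obtain ⟨i₀, hi₀⟩ := hw
      have hall : ∀ j, ws1 δ m (f j) := by
        intro j
        obtain ⟨w⟩ := hD.conn.preconnected i₀ j
        have : ∀ (a b : Fin k) (_ : D.Walk a b), ws1 δ m (f a) → ws1 δ m (f b) := by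
          intro a b w
          induction w with
          | nil => exact fun h => h
          | cons hadj _ ih => exact fun h => ih (hclosed _ _ hadj h)
        exact this _ _ w hi₀
      let Y : Finset (WP h I M ⊕ (M × Z)) := univ.image (fun j : Fin h => Sum.inl (.p m j))
      have hY : ∀ x, x ∈ Y ↔ ∃ l, x = Sum.inl (.p m l) := by
        intro x
        simp only [Y, mem_image, mem_univ, true_and]
        exact ⟨fun ⟨l, hl⟩ => ⟨l, hl.symm⟩, fun ⟨l, hl⟩ => ⟨l, hl.symm⟩⟩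
      have hYc : Y.card ≤ h := by
        refine le_trans card_image_le ?_
        simp
      refine hLrg k h D κ hD.conn hBi _ f Y hinj hYc (fun i j hij => ?_)
      rw [hY, hY]
      rcases hin i j hij with h1 | ⟨s, s', _, h2, _, _⟩
      · exact h1.2
      · exact absurd h2 (ws1_emb δ hδ (hall i) s)
    · have hs : ∀ i, ∃ s, f i = emb δ m s := by
        intro i
        rcases pc_cases δ (hm' i) with h1 | h1
        · exact absurd ⟨i, h1⟩ hw
        · exact h1
      choose g hg using hs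
      have hemb : Function.Injective (emb δ m : R ⊕ Z → WP h I M ⊕ (M × Z)) := by
        rintro (r | ζ) (r' | ζ') h1
        · have h2 := hδ m (low_inj h1)
          rw [Sum.inr_injective h2]
        · exact absurd h1 (by simp [emb])
        · exact absurd h1 (by simp [emb])
        · have h2 := (Prod.mk.inj (Sum.inr_injective h1)).2
          rw [h2]
      refine ⟨g, fun i j hij => hinj (by rw [hg, hg, hij]), fun i j hij => ?_⟩
      rcases hin i j hij with h1 | ⟨s, s', h1, h2, h3, h4⟩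
      · exact absurd ⟨i, h1.1.1⟩ hw
      · have e1 : g i = s := hemb (by rw [← hg, h2])
        have e2 : g j = s' := hemb (by rw [← hg, h3])
        rw [e1, e2]
        exact ⟨h1, h4⟩

end MP3240G
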