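import Pool.Agent.Lib.MP_3240be_co.H62.Defs

/-!
# Board T2 (btt_modules), row WGP: purity of the common hubs of the world gadget (helper94)
-/

set_option autoImplicit false

namespace MP3240G

open Finset
open MP3240Q (Mono SG XS)
open MP3240T (cls)

namespace Wgp

variable {h Nw : ℕ} {I M R Z : Type}

/-- A copy of `U` on points in the colour class gives the first alternative. -/
theorem mono_of {n : ℕ} {U : SimpleGraph (Fin n)} {S : SimpleGraph (WP h I M ⊕ (M × Z))}
    {C : WP h I M ⊕ (M × Z) → WP h I M ⊕ (M × Z) → Bool} {c : Bool}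
    {f : Fin n → WP h I M ⊕ (M × Z)} (hf : Function.Injective f)
    (hP : ∀ i, ∃ l, f i = Sum.inl l) (he : ∀ i j, U.Adj i j → (cls S C c).Adj (f i) (f j)) :
    ∃ f : Fin n → WP h I M, Mono S C U c (fun v => Sum.inl (f v)) := by
  choose g hg using hP
  have hfg : (fun v => Sum.inl (g v)) = f := funext fun v => (hg v).symm
  refine ⟨g, ?_⟩
  rw [hfg]
  exact ⟨hf, fun i j hij => ⟨(he i j hij).1, (he i j hij).2.1⟩⟩

end Wgp

open Wgp in
/-- Row WGP. -/
theorem wgp_proof (h1 : KhnStatement) (h2 : RlcStatement) : WgpStatement := by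
  classical
  intro h K Nw U κ hh hU hNc hKN I M R Z Ga δ hinj C hC χ Cφ hχ x hx
  have hx' : ∀ l, ∃ g : Fin (K + 2) → M, Function.Injective g ∧
      ∀ i, χ (g i) ∧ δ (g i) l = x := fun l => by
    obtain ⟨g, hg, hg'⟩ := hx l
    exact ⟨g, hg, fun i => ⟨(hg' i).1, (hg' i).2.1⟩⟩
  -- the colours of the common hubs do not depend on the low
  let ρ : Fin h → Bool := fun j => C (Sum.inl (.y j)) (Sum.inl (.low x))
  have hρ : ∀ m, χ m → ∀ t j, C (Sum.inl (.y j)) (Sum.inl (.low (δ m t))) = ρ j := by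
    intro m hm t j
    obtain ⟨g, -, hg⟩ := hx' t
    have e1 : C (Sum.inl (.y j)) (Sum.inl (.low (δ m t))) = Cφ (.y j) (.s t) :=
      hχ m hm (.y j) (.s t)
    have e2 : C (Sum.inl (.y j)) (Sum.inl (.low (δ (g 0) t))) = Cφ (.y j) (.s t) :=
      hχ (g 0) (hg 0).1 (.y j) (.s t)
    rw [(hg 0).2] at e2
    exact e1.trans e2.symm
  -- the pattern of the private hubs
  obtain ⟨π, hπ⟩ : ∃ π : Fin h → Bool, K ≤ (univ.filter (fun w : Fin Nw =>
      (fun j => Cφ (.p j) (.s (Sum.inl w))) = π)).card := by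
    have h3 : Fintype.card (Fin h → Bool) * K ≤ Fintype.card (Fin Nw) := by
      rw [Fintype.card_fun, Fintype.card_bool, Fintype.card_fin, Fintype.card_fin]
      calc 2 ^ h * K = K * 2 ^ h := Nat.mul_comm _ _
        _ ≤ Nw := hKN
    exact Fintype.exists_le_card_fiber_of_mul_le_card
      (fun w : Fin Nw => (fun j => Cφ (.p j) (.s (Sum.inl w)) : Fin h → Bool)) h3
  set W : Finset (Fin Nw) := univ.filter (fun w : Fin Nw =>
      (fun j => Cφ (.p j) (.s (Sum.inl w))) = π) with hW
  have hWπ : ∀ w ∈ W, ∀ j, Cφ (.p j) (.s (Sum.inl w)) = π j := fun w hw j =>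
    congrFun (Finset.mem_filter.1 hw).2 j
  -- edges in the colour classes
  have adjy : ∀ c m, χ m → ∀ t j, ρ j = c →
      (cls (WG Ga δ) C c).Adj (Sum.inl (.y j)) (Sum.inl (.low (δ m t))) := by
    intro c m hm t j hj
    refine ⟨?_, (hρ m hm t j).trans hj, ?_⟩
    · rw [WG, SimpleGraph.fromRel_adj]
      exact ⟨by simp, Or.inl trivial⟩
    · rw [hC]
      exact (hρ m hm t j).trans hj
  have adjp : ∀ c m, χ m → ∀ w ∈ W, ∀ j, π j = c →
      (cls (WG Ga δ) C c).Adj (Sum.inl (.p m j)) (Sum.inl (.low (δ m (Sum.inl w)))) := by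
    intro c m hm w hw j hj
    have e1 : C (Sum.inl (.p m j)) (Sum.inl (.low (δ m (Sum.inl w)))) =
        Cφ (.p j) (.s (Sum.inl w)) := hχ m hm (.p j) (.s (Sum.inl w))
    have e2 := (e1.trans (hWπ w hw j)).trans hj
    refine ⟨?_, e2, ?_⟩
    · rw [WG, SimpleGraph.fromRel_adj]
      exact ⟨by simp, Or.inl ⟨w, rfl⟩⟩
    · rw [hC]
      exact e2
  -- hubs and lows
  let Yc : Bool → Finset (Fin h) := fun c => univ.filter (fun j => ρ j = c)
  let Sc : Bool → Finset (Fin h) := fun c => univ.filter (fun j => π j = c)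
  let Hb : Bool → M → Finset (WP h I M ⊕ (M × Z)) := fun c m =>
    (Yc c).image (fun j => Sum.inl (.y j)) ∪ (Sc c).image (fun j => Sum.inl (.p m j))
  let Lw : M → Finset (WP h I M ⊕ (M × Z)) := fun m =>
    W.image (fun w => Sum.inl (.low (δ m (Sum.inl w))))
  have hLw : ∀ m, K ≤ (Lw m).card := by
    intro m
    rw [Finset.card_image_of_injective]
    · exact hπ
    · intro w w' hww
      have h3 : δ m (Sum.inl w) = δ m (Sum.inl w') := by simpa using hww
      exact Sum.inl.inj (hinj m h3)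
  have hHbcard : ∀ c m, (Hb c m).card = (Yc c).card + (Sc c).card := by
    intro c m
    rw [Finset.card_union_of_disjoint, Finset.card_image_of_injective,
      Finset.card_image_of_injective]
    · intro j j' hjj
      simpa using hjj
    · intro j j' hjj
      simpa using hjj
    · rw [Finset.disjoint_left]
      intro z hz hz'
      obtain ⟨j, -, rfl⟩ := Finset.mem_image.1 hz
      obtain ⟨j', -, e⟩ := Finset.mem_image.1 hz'
      simp at e
  have hHbP : ∀ c m, ∀ r ∈ Hb c m, ∃ l, r = Sum.inl l := by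
    intro c m r hr
    rcases Finset.mem_union.1 hr with hr | hr
    · obtain ⟨j, -, rfl⟩ := Finset.mem_image.1 hr
      exact ⟨_, rfl⟩
    · obtain ⟨j, -, rfl⟩ := Finset.mem_image.1 hr
      exact ⟨_, rfl⟩
  have hLwP : ∀ m, ∀ z ∈ Lw m, ∃ l, z = Sum.inl l := by
    intro m z hz
    obtain ⟨w, -, rfl⟩ := Finset.mem_image.1 hz
    exact ⟨_, rfl⟩
  have hHL : ∀ c m, χ m → ∀ r ∈ Hb c m, ∀ w ∈ W,
      (cls (WG Ga δ) C c).Adj r (Sum.inl (.low (δ m (Sum.inl w)))) := by
    intro c m hm r hr w hw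
    rcases Finset.mem_union.1 hr with hr | hr
    · obtain ⟨j, hj, rfl⟩ := Finset.mem_image.1 hr
      exact adjy c m hm _ j (Finset.mem_filter.1 hj).2
    · obtain ⟨j, hj, rfl⟩ := Finset.mem_image.1 hr
      exact adjp c m hm w hw j (Finset.mem_filter.1 hj).2
  have hHL' : ∀ c m, χ m → ∀ r ∈ Hb c m, ∀ z ∈ Lw m, (cls (WG Ga δ) C c).Adj r z := by
    intro c m hm r hr z hz
    obtain ⟨w, hw, rfl⟩ := Finset.mem_image.1 hz
    exact hHL c m hm r hr w hw
  by_contra hcon
  push Not at hcon
  obtain ⟨hnomono, hnocol⟩ := hcon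
  have hno : ∀ (c : Bool) (f : Fin (U c).1 → WP h I M ⊕ (M × Z)), Function.Injective f →
      (∀ i, ∃ l, f i = Sum.inl l) →
      ¬ ∀ i j, (U c).2.Adj i j → (cls (WG Ga δ) C c).Adj (f i) (f j) := by
    intro c f hf hP he
    obtain ⟨g, hg⟩ := mono_of hf hP he
    exact hnomono c g hg
  -- at most `h` hubs of each colour
  have hle : ∀ c m, χ m → (Yc c).card + (Sc c).card ≤ h := by
    intro c m hm
    by_contra hlt
    push Not at hlt
    rw [← hHbcard c m] at hlt
    obtain ⟨T, hT, hTc⟩ := Finset.exists_subset_card_eq (Nat.succ_le_of_lt hlt)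
    obtain ⟨hBi, hUK⟩ := hU c
    obtain ⟨α, hα⟩ : ∃ α, κ c α = true := by
      have h3 : 0 < (univ.filter (fun v => κ c v = true)).card := by
        rw [hBi.cardA]
        exact Nat.succ_pos _
      obtain ⟨α, hα⟩ := Finset.card_pos.1 h3
      exact ⟨α, (Finset.mem_filter.1 hα).2⟩
    have hTne : T.Nonempty := Finset.card_pos.1 (by rw [hTc]; exact Nat.succ_pos _)
    obtain ⟨v, hv⟩ := hTne
    obtain ⟨f, hf, hfα, hfP, hfe⟩ := h1 (U c).1 h (U c).2 (κ c) hBi α hα _
      (cls (WG Ga δ) C c) (fun z => ∃ l, z = Sum.inl l) (T.erase v) (Lw m) v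
      (by rw [Finset.card_erase_of_mem hv, hTc]; rfl)
      (Finset.notMem_erase v T)
      (fun y hy => hHbP c m y (hT (Finset.mem_of_mem_erase hy)))
      (hUK.trans (hLw m))
      (fun z hz => ⟨hLwP m z hz, hHL' c m hm v (hT hv) z hz,
        fun y hy => hHL' c m hm y (hT (Finset.mem_of_mem_erase hy)) z hz⟩)
    refine hno c f hf (fun i => ?_) hfe
    by_cases hi : i = α
    · rw [hi, hfα]
      exact hHbP c m v (hT hv)
    · exact hfP i hi
  -- there is a world role
  have hUpos : ∀ c, 0 < (U c).1 := by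
    intro c
    have h3 := (hU c).1.cardA
    have h4 : (univ.filter (fun v => κ c v = true)).card ≤ (U c).1 := by
      refine (Finset.card_filter_le _ _).trans ?_
      rw [Finset.card_univ, Fintype.card_fin]
    omega
  have hKpos : 0 < K := lt_of_lt_of_le (hUpos true) (hU true).2
  obtain ⟨w0, hw0⟩ : W.Nonempty := Finset.card_pos.1 (lt_of_lt_of_le hKpos hπ)
  obtain ⟨g, hg, hg'⟩ := hx' (Sum.inl w0)
  have hm := (hg' 0).1
  have hsumY : (Yc true).card + (Yc false).card = h := by
    have h3 := Finset.card_filter_add_card_filter_not (s := (univ : Finset (Fin h)))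
      (fun j => ρ j = true)
    have h4 : (univ.filter (fun j => ¬ ρ j = true)) = Yc false := by
      ext j
      simp [Yc]
    rw [h4, Finset.card_univ, Fintype.card_fin] at h3
    exact h3
  have hsumS : (Sc true).card + (Sc false).card = h := by
    have h3 := Finset.card_filter_add_card_filter_not (s := (univ : Finset (Fin h)))
      (fun j => π j = true)
    have h4 : (univ.filter (fun j => ¬ π j = true)) = Sc false := by
      ext j
      simp [Sc]
    rw [h4, Finset.card_univ, Fintype.card_fin] at h3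
    exact h3
  have heq : ∀ c, (Yc c).card + (Sc c).card = h := by
    intro c
    have h3 := hle true (g 0) hm
    have h4 := hle false (g 0) hm
    cases c <;> omega
  -- both colours occur
  have hbothY : ∀ c, 0 < (Yc c).card := by
    intro c
    by_contra hc
    have hc0 : Yc c = ∅ := Finset.card_eq_zero.1 (by omega)
    obtain ⟨m, hm, t, j, hj⟩ := hnocol (!c)
    apply hj
    rw [hρ m hm t j]
    by_contra hne
    have h3 : ρ j = c := by
      cases hr : ρ j <;> cases c <;> simp_all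
    have h4 : j ∈ Yc c := Finset.mem_filter.2 ⟨Finset.mem_univ _, h3⟩
    rw [hc0] at h4
    exact absurd h4 (Finset.notMem_empty j)
  obtain ⟨c, ⟨nc⟩⟩ := hNc
  have hSpos : 0 < (Sc c).card := by
    have h3 := heq c
    have h4 : (Yc c).card < h := by
      have h5 := hbothY true
      have h6 := hbothY false
      cases c <;> omega
    omega
  obtain ⟨j0, hj0⟩ := Finset.card_pos.1 hSpos
  obtain ⟨j1, hj1⟩ := Finset.card_pos.1 (hbothY c)
  have hg01 : g 0 ≠ g 1 := fun e => by
    have h3 := hg e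
    have h4 := congrArg Fin.val h3
    simp at h4
  have hm1 := (hg' 1).1
  let mm : Bool → M := fun s => if s then g 0 else g 1
  have hmm : ∀ s, χ (mm s) := by
    intro s
    cases s
    · exact hm1
    · exact hm
  have hmx : ∀ s, δ (mm s) (Sum.inl w0) = x := by
    intro s
    cases s
    · exact (hg' 1).2
    · exact (hg' 0).2
  obtain ⟨f, hf, hfP, hfe⟩ := h2 (U c).1 h (U c).2 (κ c) (hU c).1 nc _ (cls (WG Ga δ) C c)
    (fun z => ∃ l, z = Sum.inl l) (fun s => Hb c (mm s)) (fun s => Lw (mm s))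
    (Sum.inl (.y j1)) (Sum.inl (.low x))
    (fun s => (hHbcard c (mm s)).trans (heq c))
    (by
      intro e
      have h3 : (Sum.inl (.p (g 0) j0) : WP h I M ⊕ (M × Z)) ∈ Hb c (mm true) :=
        Finset.mem_union_right _ (Finset.mem_image.2 ⟨j0, hj0, rfl⟩)
      have h4 : (Sum.inl (.p (g 0) j0) : WP h I M ⊕ (M × Z)) ∈ Hb c (mm false) := by
        have e' : Hb c (mm true) = Hb c (mm false) := e
        rw [← e']
        exact h3
      rcases Finset.mem_union.1 h4 with h5 | h5
      · obtain ⟨j, -, e1⟩ := Finset.mem_image.1 h5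
        simp at e1
      · obtain ⟨j, -, e1⟩ := Finset.mem_image.1 h5
        have e2 : g 1 = g 0 ∧ j = j0 := by simpa [mm] using e1
        exact hg01 e2.1.symm)
    (fun s => Finset.mem_union_left _ (Finset.mem_image.2 ⟨j1, hj1, rfl⟩))
    ⟨_, rfl⟩
    (fun s r hr => ⟨hHbP c (mm s) r hr, by
      have h3 := hHL c (mm s) (hmm s) r hr w0 hw0
      rw [hmx s] at h3
      exact h3⟩)
    (fun s => (hU c).2.trans (hLw (mm s)))
    (fun s z hz => ⟨hLwP (mm s) z hz, fun r hr => hHL' c (mm s) (hmm s) r hr z hz⟩)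
  exact hno c f hf hfP hfe

end MP3240G
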