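import Pool.Agent.Lib.MP_3240be_co.H62.Defs

/-!
# Row WGR: the red copies of `D` in the intended colouring of the world gadget
-/

set_option autoImplicit false

namespace MP3240G

open Finset
open MP3240Q (Mono)

namespace WgrAux

/-- A function that is constant along the edges of a connected graph is constant. -/
theorem const_of_conn {V T : Type} {D : SimpleGraph V} (hD : D.Connected) (φ : V → T)
    (h : ∀ i j, D.Adj i j → φ i = φ j) (i j : V) : φ i = φ j := by
  obtain ⟨w⟩ := hD.preconnected i j
  induction w with
  | nil => rfl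
  | cons e _ ih => exact (h _ _ e).trans ih

/-- A red edge of the world gadget: one end is a common hub and the other a low, or both are
copies of vertices in `Z` with the same hyperedge. -/
theorem red_edge {h Nw : ℕ} {I M R Z : Type} (Ga : SimpleGraph (R ⊕ Z))
    (δ : M → Fin Nw ⊕ R → I) (a b : WP h I M ⊕ (M × Z)) (h1 : (WG Ga δ).Adj a b)
    (h2 : cG a b = true) :
    ((∃ j i, a = Sum.inl (WP.y j) ∧ b = Sum.inl (WP.low i)) ∨
      (∃ j i, b = Sum.inl (WP.y j) ∧ a = Sum.inl (WP.low i))) ∨
    ∃ q q' : M × Z, a = Sum.inr q ∧ b = Sum.inr q' ∧ q.1 = q'.1 := by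
  classical
  have h3 : redG a b ∨ redG b a := by
    unfold cG at h2
    simpa using h2
  have h4 : relG Ga δ a b ∨ relG Ga δ b a := by
    unfold WG at h1
    exact ((SimpleGraph.fromRel_adj _ _ _).1 h1).2
  rcases a with (j | i | ⟨m, j⟩) | q <;> rcases b with (j' | i' | ⟨m', j'⟩) | q'
  all_goals first
    | exact Or.inl (Or.inl ⟨_, _, rfl, rfl⟩)
    | exact Or.inl (Or.inr ⟨_, _, rfl, rfl⟩)
    | (exfalso; rcases h3 with h3 | h3 <;> exact h3)
    | (refine Or.inr ⟨_, _, rfl, rfl, ?_⟩
       rcases h4 with h4 | h4
       · exact h4.1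
       · exact h4.1.symm)

end WgrAux

open WgrAux in
theorem wgr_proof (hL : LrgStatement) : WgrStatement := by
  classical
  intro k h Nw D κ hT hB I M R Z Ga δ f hf
  obtain ⟨hinj, hadj⟩ := hf
  have hred := fun i j (e : D.Adj i j) => red_edge Ga δ (f i) (f j) (hadj i j e).1 (hadj i j e).2
  -- all images are on the same side
  have hside : ∀ i j, (f i).isRight = (f j).isRight := by
    refine const_of_conn hT.conn (fun v => (f v).isRight) ?_
    intro i j e
    rcases hred i j e with (⟨_, _, h1, h2⟩ | ⟨_, _, h1, h2⟩) | ⟨q, q', h1, h2, _⟩ <;>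
      simp only [h1, h2] <;> rfl
  have v0 : Fin k := ⟨0, by have := hT.three; omega⟩
  rcases hf0 : f v0 with p | q0
  · -- all on the left: every edge has exactly one end among the common hubs
    exfalso
    have hleft : ∀ i, (f i).isRight = false := by
      intro i
      rw [hside i v0, hf0]; rfl
    refine hL k h D κ hT.conn hB (WP h I M ⊕ (M × Z)) f
      (univ.image (fun j : Fin h => (Sum.inl (WP.y j) : WP h I M ⊕ (M × Z)))) hinj ?_ ?_
    · refine le_trans card_image_le ?_
      simp
    · intro i j e
      rcases hred i j e with (⟨a, b, h1, h2⟩ | ⟨a, b, h1, h2⟩) | ⟨q, q', h1, h2, _⟩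
      · rw [h1, h2]
        simp
      · rw [h1, h2]
        simp
      · have := hleft i
        rw [h1] at this
        exact absurd this (by simp)
  · -- all on the right
    have hright : ∀ i, (f i).isRight = true := by
      intro i
      rw [hside i v0, hf0]; rfl
    have hm : ∀ i j, (Sum.elim (fun _ => none) (fun q => some q.1) (f i) : Option M) =
        Sum.elim (fun _ => none) (fun q => some q.1) (f j) := by
      refine const_of_conn hT.conn
        (fun v => (Sum.elim (fun _ => none) (fun q => some q.1) (f v) : Option M)) ?_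
      intro i j e
      rcases hred i j e with (⟨_, _, h1, h2⟩ | ⟨_, _, h1, h2⟩) | ⟨q, q', h1, h2, h3⟩
      · simp only [h1, h2, Sum.elim_inl]
      · simp only [h1, h2, Sum.elim_inl]
      · simp only [h1, h2, Sum.elim_inr, h3]
    refine ⟨q0.1, fun v => ?_⟩
    rcases hfv : f v with p | q
    · have := hright v
      rw [hfv] at this
      exact absurd this (by simp)
    · have := hm v v0
      rw [hfv, hf0] at this
      simp only [Sum.elim_inr, Option.some.injEq] at this
      exact ⟨q.2, by rw [← this]⟩

end MP3240G
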