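import Mathlib
import Pool.Agent.Lib.MP_3240be_co.H62.Defs
import Pool.Agent.Lib.MP_3240be_co.H62.Blb
import Pool.Agent.Lib.MP_3240be_co.H62.Bpc
import Pool.Agent.Lib.MP_3240be_co.H62.Btf
import Pool.Agent.Lib.MP_3240be_co.H62.Cho
import Pool.Agent.Lib.MP_3240be_co.H62.Emg
import Pool.Agent.Lib.MP_3240be_co.H62.Exl
import Pool.Agent.Lib.MP_3240be_co.H62.Gab
import Pool.Agent.Lib.MP_3240be_co.H62.Gfl
import Pool.Agent.Lib.MP_3240be_co.H62.Glu
import Pool.Agent.Lib.MP_3240be_co.H62.Gmc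
import Pool.Agent.Lib.MP_3240be_co.H62.Khn
import Pool.Agent.Lib.MP_3240be_co.H62.Lrg
import Pool.Agent.Lib.MP_3240be_co.H62.Nbc
import Pool.Agent.Lib.MP_3240be_co.H62.Nbn
import Pool.Agent.Lib.MP_3240be_co.H62.Ncd
import Pool.Agent.Lib.MP_3240be_co.H62.Nfb
import Pool.Agent.Lib.MP_3240be_co.H62.Pgd
import Pool.Agent.Lib.MP_3240be_co.H62.Pps
import Pool.Agent.Lib.MP_3240be_co.H62.Rel
import Pool.Agent.Lib.MP_3240be_co.H62.Rlc
import Pool.Agent.Lib.MP_3240be_co.H62.Syt
import Pool.Agent.Lib.MP_3240be_co.H62.Unf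
import Pool.Agent.Lib.MP_3240be_co.H62.Wga
import Pool.Agent.Lib.MP_3240be_co.H62.Wgb
import Pool.Agent.Lib.MP_3240be_co.H62.Wgp
import Pool.Agent.Lib.MP_3240be_co.H62.Wgr
import Pool.Agent.Lib.MP_3240be_co.Q22.Main2
import Pool.Agent.Lib.MP_3240be_co.H43.Pc2
import Pool.Agent.Lib.MP_3240be_co.H43.Two

set_option autoImplicit false

/-!
# Theorem T2: assembly of the rows
-/

namespace MP3240G

theorem pi2_all : MP3240Q.Piece2Statement :=
  MP3240Q.pi2_proof
    (MP3240Q.pa3_proof (MP3240Q.pa2_proof MP3240Q.sy2_proof MP3240Q.nb2_proof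
      (MP3240Q.rp2_proof MP3240Q.one_proof) MP3240Q.pb2_proof
      (MP3240Q.al2_proof MP3240Q.col_proof) MP3240Q.rcl_proof MP3240Q.bcl_proof
      MP3240Q.bcd_proof MP3240Q.lbs_proof MP3240Q.cst_proof))
    MP3240Q.att_proof (MP3240Q.gm2_proof (MP3240Q.gma_proof MP3240Q.gam_proof) MP3240Q.gmb_proof)

theorem khn_all : KhnStatement := khn_proof exl_proof
theorem rlc_all : RlcStatement := rlc_proof exl_proof
theorem wgp_all : WgpStatement := wgp_proof khn_all rlc_all
theorem wga_all : WgaStatement := wga_proof wgp_all khn_all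
theorem wgr_all : WgrStatement := wgr_proof lrg_proof
theorem wgb_all : WgbStatement :=
  wgb_proof lrg_proof MP3240W.pc2_proof MP3240W.two_proof MP3240Q.lin_proof
theorem typ_all : MP3240Q.TypStatement := MP3240Q.typ_proof MP3240Q.hyp_proof
theorem nfb_all : NfbStatement := nfb_proof MP3240Q.lin_proof
theorem glu_all : GluStatement := glu_proof MP3240Q.mon_proof MP3240Q.fnb_proof MP3240Q.fre_proof
theorem emg_all : EmgStatement :=
  emg_proof MP3240Q.mon_proof MP3240Q.fnb_proof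
    (MP3240Q.pen_proof MP3240Q.mon_proof MP3240Q.fnb_proof)
    (MP3240Q.cpy_proof MP3240Q.mon_proof MP3240Q.fnb_proof MP3240Q.fre_proof)
    glu_all btf_proof
theorem pgd_all : PgdStatement :=
  pgd_proof typ_all MP3240Q.lin_proof wga_all wgr_all wgb_all gab_proof blb_proof

theorem bpc_of (hK : KgdStatement) : BpcStatement :=
  bpc_proof (pps_proof pgd_all hK unf_proof pi2_all) hK gmc_proof unf_proof cas_proof

theorem rel_of (hK : KgdStatement) : RelStatement :=
  rel_proof (bpc_of hK) typ_all emg_all nfb_all MP3240Q.lin_proof btf_proof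

theorem cho_of (hS : SpcStatement) : ChoStatement :=
  cho_proof ncd_proof (nbc_proof hS) (nbn_proof gfl_proof hS MP3240W.two_proof)

theorem main_of (hK : KgdStatement) (hS : SpcStatement) : MainStatement :=
  main_proof (cho_of hS) syt_proof (rel_of hK)

end MP3240G

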