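import Mathlib
import Pool.Agent.Lib.MP_3240be_co.H62.Defs

set_option autoImplicit false

/-!
# Row SPC
-/

namespace MP3240G

theorem spc_proof : SpcStatement := by
  intro k t D U a b φ hab hS hφ hφa
  obtain ⟨ψ, hψ, hψa⟩ := hS
  have hkt : k = t := by
    have h1 : k ≤ t := by simpa using Fintype.card_le_of_injective φ hφ
    have h2 : t ≤ k := by simpa using Fintype.card_le_of_injective ψ hψ
    omega
  have hφs : Function.Surjective φ := by
    have h3 : Function.Bijective φ :=
      (Fintype.bijective_iff_injective_and_card φ).2 ⟨hφ, by simp [hkt]⟩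
    exact h3.2
  obtain ⟨u, hu⟩ := hφs a
  obtain ⟨v, hv⟩ := hφs b
  refine ⟨u, v, ?_, hu, hv⟩
  have hg : Function.Injective (ψ ∘ φ) := hψ.comp hφ
  have hgs : ∀ u v, D.Adj u v → D.Adj ((ψ ∘ φ) u) ((ψ ∘ φ) v) :=
    fun u v h => hψa _ _ (hφa _ _ h)
  let g : Equiv.Perm (Fin k) := Equiv.ofBijective (ψ ∘ φ) (Finite.injective_iff_bijective.1 hg)
  have hgi : ∀ m : ℕ, D.Adj (((g ^ (m + 1) : Equiv.Perm (Fin k))) u)
      (((g ^ (m + 1) : Equiv.Perm (Fin k))) v) := by
    intro m
    induction m with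
    | zero =>
      have h4 : D.Adj (ψ a) (ψ b) := hψa _ _ hab
      rw [← hu, ← hv] at h4
      simpa [g] using h4
    | succ m ih =>
      have h5 := hgs _ _ ih
      rw [pow_succ' g (m + 1)]
      exact h5
  have h6 := hgi (orderOf g - 1)
  have h7 : orderOf g - 1 + 1 = orderOf g := Nat.sub_add_cancel (orderOf_pos g)
  rw [h7, pow_orderOf_eq_one] at h6
  exact h6

end MP3240G

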