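import Mathlib
import Pool.Agent.Lib.MP_3240be_co.H62.Asm
import Pool.Agent.Lib.MP_3240be_co.H62.Kgd
import Pool.Agent.Lib.MP_3240be_co.H62.Spc

set_option autoImplicit false

/-!
# Theorem T2 (unconditional)
-/

namespace MP3240G

theorem kgd_all : KgdStatement :=
  kgd_proof typ_all MP3240Q.lin_proof wga_all wgr_all wgb_all gab_proof blb_proof

theorem cho_all : ChoStatement := cho_of spc_proof

/-- The theorem relative to `D`. -/
theorem rel : RelStatement := rel_of kgd_all

/-- The symmetric theorem. -/
theorem main : MainStatement := main_of kgd_all spc_proof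

end MP3240G
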